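import Mathlib

/-!
# Project LT2: logarithmic moments by Abel summation
-/

set_option autoImplicit false

open Finset Filter Topology MeasureTheory

namespace Pool.Agent.Helper63.LT2

/-- Abel summation with a decreasing function vanishing at the end -/
theorem abel_gen (c : ℕ → ℝ) (hc : c 0 = 0) {a C : ℝ}
    (hM : ∀ x : ℝ, 1 ≤ x → |∑ k ∈ Icc 0 ⌊x⌋₊, c k - a * Real.log x| ≤ C) {t : ℝ} (ht : 1 ≤ t)
    (f f' G : ℝ → ℝ) (hf : ∀ u ∈ Set.Icc 1 t, HasDerivAt f (f' u) u)
    (hf'c : ContinuousOn f' (Set.Icc 1 t)) (hf'n : ∀ u ∈ Set.Icc 1 t, f' u ≤ 0) (hft : f t = 0)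
    (hG : ∀ u ∈ Set.Icc 1 t, HasDerivAt G (f' u * Real.log u) u) :
    |∑ k ∈ Icc 0 ⌊t⌋₊, f k * c k + a * (G t - G 1)| ≤ C * f 1 := by
  have hint : IntegrableOn f' (Set.Icc 1 t) := hf'c.integrableOn_Icc
  have hderiv : Set.EqOn (deriv f) f' (Set.Icc 1 t) := fun u hu => (hf u hu).deriv
  have hint' : IntegrableOn (deriv f) (Set.Icc 1 t) :=
    hint.congr_fun (fun u hu => (hderiv hu).symm) measurableSet_Icc
  have h1 := sum_mul_eq_sub_integral_mul₀ (f := f) c hc t
    (fun u hu => (hf u hu).differentiableAt) hint'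
  rw [hft, zero_mul, zero_sub] at h1
  obtain ⟨M, hMd⟩ : ∃ M : ℝ → ℝ, M = fun u => ∑ k ∈ Icc 0 ⌊u⌋₊, c k := ⟨_, rfl⟩
  have hM' : ∀ u : ℝ, 1 ≤ u → |M u - a * Real.log u| ≤ C := by
    intro u hu
    rw [hMd]
    exact hM u hu
  have e1 : ∫ u in Set.Ioc 1 t, deriv f u * ∑ k ∈ Icc 0 ⌊u⌋₊, c k =
      ∫ u in Set.Ioc 1 t, f' u * M u := by
    apply setIntegral_congr_fun measurableSet_Ioc
    intro u hu
    simp only
    rw [hderiv (Set.Ioc_subset_Icc_self hu), hMd]
  rw [e1] at h1
  have i1 : IntegrableOn (fun u => f' u * M u) (Set.Icc 1 t) := by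
    rw [hMd]
    exact integrableOn_mul_sum_Icc c (by norm_num) hint
  have hlogc : ContinuousOn (fun u : ℝ => Real.log u) (Set.Icc 1 t) := by
    apply Real.continuousOn_log.mono
    intro u hu
    have : (0 : ℝ) < u := lt_of_lt_of_le one_pos hu.1
    simp [this.ne']
  have i2 : IntegrableOn (fun u => f' u * Real.log u) (Set.Icc 1 t) :=
    (hf'c.mul hlogc).integrableOn_Icc
  have e2 : ∫ u in (1 : ℝ)..t, f' u * Real.log u = G t - G 1 := by
    apply intervalIntegral.integral_eq_sub_of_hasDerivAt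
    · intro u hu
      rw [Set.uIcc_of_le ht] at hu
      exact hG u hu
    · rw [intervalIntegrable_iff_integrableOn_Icc_of_le ht]
      exact i2
  have e3 : ∫ u in (1 : ℝ)..t, f' u = f t - f 1 := by
    apply intervalIntegral.integral_eq_sub_of_hasDerivAt
    · intro u hu
      rw [Set.uIcc_of_le ht] at hu
      exact hf u hu
    · rw [intervalIntegrable_iff_integrableOn_Icc_of_le ht]
      exact hint
  rw [← intervalIntegral.integral_of_le ht] at h1
  have ii1 : IntervalIntegrable (fun u => f' u * M u) volume 1 t := by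
    rw [intervalIntegrable_iff_integrableOn_Icc_of_le ht]
    exact i1
  have ii2 : IntervalIntegrable (fun u => a * (f' u * Real.log u)) volume 1 t := by
    apply IntervalIntegrable.const_mul
    rw [intervalIntegrable_iff_integrableOn_Icc_of_le ht]
    exact i2
  have e4 : ∑ k ∈ Icc 0 ⌊t⌋₊, f k * c k + a * (G t - G 1) =
      - ∫ u in (1 : ℝ)..t, (f' u * M u - a * (f' u * Real.log u)) := by
    rw [h1, intervalIntegral.integral_sub ii1 ii2, intervalIntegral.integral_const_mul, e2]
    ring
  rw [e4, abs_neg]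
  have h5 := intervalIntegral.norm_integral_le_of_norm_le (μ := volume)
    (f := fun u => f' u * M u - a * (f' u * Real.log u)) (g := fun u => C * (- f' u)) ht
    (by
      refine Filter.Eventually.of_forall fun u hu => ?_
      have hu' := Set.Ioc_subset_Icc_self hu
      rw [Real.norm_eq_abs]
      have : f' u * M u - a * (f' u * Real.log u) = f' u * (M u - a * Real.log u) := by ring
      rw [this, abs_mul, abs_of_nonpos (hf'n u hu'), mul_comm]
      exact mul_le_mul_of_nonneg_right (hM' u hu'.1) (by linarith [hf'n u hu']))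
    (by
      apply IntervalIntegrable.const_mul
      rw [intervalIntegrable_iff_integrableOn_Icc_of_le ht]
      exact hint.neg)
  rw [Real.norm_eq_abs, intervalIntegral.integral_const_mul, intervalIntegral.integral_neg, e3,
    hft] at h5
  refine h5.trans (le_of_eq ?_)
  ring

/-- first logarithmic moment -/
theorem abel_one (c : ℕ → ℝ) (hc : c 0 = 0) {a C : ℝ}
    (hM : ∀ x : ℝ, 1 ≤ x → |∑ k ∈ Icc 0 ⌊x⌋₊, c k - a * Real.log x| ≤ C) {t : ℝ} (ht : 1 ≤ t) :
    |∑ k ∈ Icc 0 ⌊t⌋₊, (Real.log t - Real.log k) * c k - a / 2 * Real.log t ^ 2| ≤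
      C * Real.log t := by
  have h := abel_gen c hc hM ht (fun u => Real.log t - Real.log u) (fun u => -(1 / u))
    (fun u => -(Real.log u ^ 2 / 2)) ?_ ?_ ?_ ?_ ?_
  · simp only [Real.log_one, sub_zero] at h
    convert h using 2
    ring
  · intro u hu
    have hu0 : u ≠ 0 := (lt_of_lt_of_le one_pos hu.1).ne'
    simpa [one_div] using (Real.hasDerivAt_log hu0).const_sub (Real.log t)
  · apply ContinuousOn.neg
    apply ContinuousOn.div continuousOn_const continuousOn_id
    intro u hu
    exact (lt_of_lt_of_le one_pos hu.1).ne'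
  · intro u hu
    have : 0 < u := lt_of_lt_of_le one_pos hu.1
    have : 0 < 1 / u := by positivity
    linarith
  · simp
  · intro u hu
    have hu0 : u ≠ 0 := (lt_of_lt_of_le one_pos hu.1).ne'
    have h1 := (((Real.hasDerivAt_log hu0).pow 2).div_const 2).neg
    refine h1.congr_deriv ?_
    push_cast
    field_simp

/-- second logarithmic moment -/
theorem abel_two (c : ℕ → ℝ) (hc : c 0 = 0) {a C : ℝ}
    (hM : ∀ x : ℝ, 1 ≤ x → |∑ k ∈ Icc 0 ⌊x⌋₊, c k - a * Real.log x| ≤ C) {t : ℝ} (ht : 1 ≤ t) :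
    |∑ k ∈ Icc 0 ⌊t⌋₊, (Real.log t - Real.log k) ^ 2 * c k - a / 3 * Real.log t ^ 3| ≤
      C * Real.log t ^ 2 := by
  have h := abel_gen c hc hM ht (fun u => (Real.log t - Real.log u) ^ 2)
    (fun u => -(2 * (Real.log t - Real.log u) * (1 / u)))
    (fun u => -(Real.log t * Real.log u ^ 2 - 2 / 3 * Real.log u ^ 3)) ?_ ?_ ?_ ?_ ?_
  · simp only [Real.log_one, sub_zero] at h
    convert h using 2
    ring
  · intro u hu
    have hu0 : u ≠ 0 := (lt_of_lt_of_le one_pos hu.1).ne'
    have h1 := ((Real.hasDerivAt_log hu0).const_sub (Real.log t)).pow 2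
    refine h1.congr_deriv ?_
    push_cast
    field_simp
  · apply ContinuousOn.neg
    apply ContinuousOn.mul
    · apply ContinuousOn.mul continuousOn_const
      apply ContinuousOn.sub continuousOn_const
      apply Real.continuousOn_log.mono
      intro u hu
      have : (0 : ℝ) < u := lt_of_lt_of_le one_pos hu.1
      simp [this.ne']
    · apply ContinuousOn.div continuousOn_const continuousOn_id
      intro u hu
      exact (lt_of_lt_of_le one_pos hu.1).ne'
  · intro u hu
    have h0 : 0 < u := lt_of_lt_of_le one_pos hu.1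
    have h1 : Real.log u ≤ Real.log t := Real.log_le_log h0 hu.2
    have h2 : 0 ≤ 2 * (Real.log t - Real.log u) * (1 / u) := by
      apply mul_nonneg (by linarith) (by positivity)
    linarith
  · simp
  · intro u hu
    have hu0 : u ≠ 0 := (lt_of_lt_of_le one_pos hu.1).ne'
    have h1 := ((((Real.hasDerivAt_log hu0).pow 2).const_mul (Real.log t)).sub
      (((Real.hasDerivAt_log hu0).pow 3).const_mul (2 / 3))).neg
    refine h1.congr_deriv ?_
    push_cast
    field_simp

end Pool.Agent.Helper63.LT2
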