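import Pool.Agent.Helper63.LT2.Core
import Pool.Agent.Helper63.LT.Exc

/-!
# Project LT2: independent points on inequivalent curves, with the constant `160`
-/

set_option autoImplicit false

open Finset Filter Topology

namespace Pool.Agent.Helper63.LT2

open WeierstrassCurve Pool.Agent.Helper10.SS Pool.Agent.Helper63.LT

/-- The main theorem for families indexed by a finite type, with the constant `C`. -/
def MainIC (C : ℕ) : Prop :=
  ∀ (I : Type) [Fintype I] (a : I → ℤ) (P : ∀ i, (EF (a i : ℚ) 0).Point),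
    (∀ i, P i ≠ 0) → Indep a P →
    (∀ i, ∀ r : ℚ, (-a i : ℚ) ≠ r ^ 2 ∧ (-a i : ℚ) ≠ -3 * r ^ 2) →
    (∀ i x y, AtF (P i) x y → ∀ r : ℚ, x ≠ r ^ 2 ∧ x ≠ -3 * r ^ 2 ∧
      a i * x ≠ r ^ 2 ∧ a i * x ≠ -3 * r ^ 2) →
    ∃ c : ℝ, 0 < c ∧ ∀ z0 : ℝ, ∃ z : ℝ, z0 ≤ z ∧
      c * z / Real.log z ^ 2 ≤ ({p : ℕ | p.Prime ∧ (p : ℝ) ≤ z ∧
        Fintype.card I ≤ 4 * {i : I | Primitive (a i) (P i) p}.ncard + C}.ncard : ℝ)

theorem mainIC (hM : MainM) (hPat : PatternInt) : MainIC 160 := by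
  classical
  intro I _ a P hP0 hind h1 h2
  have hex : ∀ i, ∃ x y, AtF (P i) x y := fun i => (zero_orF (P i)).resolve_left (hP0 i)
  choose X Y hXY using hex
  have ha : ∀ i, a i ≠ 0 := by
    intro i h0
    apply (h1 i 0).1
    rw [h0]
    norm_num
  have hden : ∀ i, (((X i).den : ℕ) : ℚ) ≠ 0 := fun i => by exact_mod_cast (X i).den_ne_zero
  have hXi : ∀ i, (X i : ℚ) * (X i).den = (X i).num := fun i => Rat.mul_den_eq_num (X i)
  obtain ⟨v, u, hv, huv, h4v, hu4, hru, T, hTc, hpat⟩ := hPat I (fun i => -a i)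
    (fun i => (X i).num * (X i).den) (by
      intro i
      have hd := hden i
      have hx := hXi i
      refine ⟨?_, ?_, ?_, ?_, ?_, ?_⟩
      · rintro ⟨s, hs⟩
        apply (h1 i s).1
        have : ((-a i : ℤ) : ℚ) = ((s * s : ℤ) : ℚ) := by exact_mod_cast hs
        push_cast at this
        rw [this]; ring
      · rintro ⟨s, hs⟩
        apply (h1 i (s / 3)).2
        have : ((-3 * -a i : ℤ) : ℚ) = ((s * s : ℤ) : ℚ) := by exact_mod_cast hs
        push_cast at this
        linear_combination (-1 / 3 : ℚ) * this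
      · rintro ⟨s, hs⟩
        apply (h2 i _ _ (hXY i) (s / (X i).den)).1
        have h3 : (((X i).num : ℤ) : ℚ) * (X i).den = s * s := by exact_mod_cast hs
        rw [div_pow, eq_div_iff (pow_ne_zero _ hd)]
        rw [← hx] at h3
        linear_combination h3
      · rintro ⟨s, hs⟩
        apply (h2 i _ _ (hXY i) (s / (3 * (X i).den))).2.1
        have h3 : (-3 : ℚ) * ((((X i).num : ℤ) : ℚ) * (X i).den) = s * s := by exact_mod_cast hs
        rw [← hx] at h3
        field_simp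
        linear_combination (-1 : ℚ) * h3
      · rintro ⟨s, hs⟩
        apply (h2 i _ _ (hXY i) (s / (X i).den)).2.2.1
        have h3 : -(-(a i : ℚ) * ((((X i).num : ℤ) : ℚ) * (X i).den)) = s * s := by
          exact_mod_cast hs
        rw [div_pow, eq_div_iff (pow_ne_zero _ hd)]
        rw [← hx] at h3
        linear_combination h3
      · rintro ⟨s, hs⟩
        apply (h2 i _ _ (hXY i) (s / (3 * (X i).den))).2.2.2
        have h3 : (3 : ℚ) * (-(a i : ℚ) * ((((X i).num : ℤ) : ℚ) * (X i).den)) = s * s := by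
          exact_mod_cast hs
        rw [← hx] at h3
        field_simp
        linear_combination (-1 : ℚ) * h3)
  obtain ⟨cl, N, hNT, hN, c, hc, hcz⟩ := hM I a P X Y hXY ha v u hv huv h4v hu4 hru T 0
    (fun p hp _ hpu => hpat p hp hpu)
  have hNc : N.card ≤ 40 := by
    rw [Finset.card_eq_sum_card_fiberwise (f := cl) (t := Finset.univ)
      (fun n _ => Finset.mem_univ _)]
    have h3 : ∀ j ∈ (Finset.univ : Finset (Fin 5)), (N.filter (fun i => cl i = j)).card ≤ 8 := by
      intro j _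
      by_contra hcon
      push Not at hcon
      obtain ⟨J, hJ, hJc⟩ := Finset.exists_subset_card_eq (s := N.filter (fun i => cl i = j))
        (n := 9) (by omega)
      have hJ' : ∀ i ∈ J, i ∈ N ∧ cl i = j := fun i hi => Finset.mem_filter.1 (hJ hi)
      obtain ⟨i, hi, i', hi', hne⟩ := hN J (fun i hi => (hJ' i hi).1) hJc (indep_sub hP0 hind J)
      apply hne
      rw [(hJ' i hi).2, (hJ' i' hi').2]
    refine (Finset.sum_le_sum h3).trans ?_
    rw [Finset.sum_const, Finset.card_univ, Fintype.card_fin, smul_eq_mul]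
  refine ⟨c, hc, fun z0 => ?_⟩
  obtain ⟨z, hz1, hz2⟩ := hcz z0
  refine ⟨z, hz1, hz2.trans ?_⟩
  have hfin : {p : ℕ | p.Prime ∧ (p : ℝ) ≤ z ∧
        Fintype.card I ≤ 4 * {i : I | Primitive (a i) (P i) p}.ncard + 160}.Finite := by
    apply (Set.finite_Iic (⌊z⌋₊)).subset
    rintro p ⟨-, hp, -⟩
    exact Nat.le_floor hp
  norm_cast
  apply Set.ncard_le_ncard _ hfin
  rintro p ⟨hp1, hp2, hp3⟩
  refine ⟨hp1, hp2, ?_⟩
  have h5 : (T \ N).card ≤ {i : I | Primitive (a i) (P i) p}.ncard := by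
    rw [← Set.ncard_coe_finset]
    apply Set.ncard_le_ncard _ (Set.toFinite _)
    intro i hi
    obtain ⟨hi1, hi2⟩ := Finset.mem_sdiff.1 (Finset.mem_coe.1 hi)
    exact hp3 i hi1 hi2
  have h6 : T.card ≤ (T \ N).card + N.card := by
    rw [Finset.card_sdiff_of_subset hNT]
    omega
  omega

/-- the main theorem for admissible points with the constant `160` -/
theorem mainAC {C : ℕ} (hC : MainIC C) : MainA C := by
  classical
  intro m0 a0 k0 P0 hne0 hli0 hadm
  -- the indices with points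
  obtain ⟨m, hm⟩ : ∃ m : ℕ, m = Fintype.card {i : Fin m0 // 0 < k0 i} := ⟨_, rfl⟩
  let e : Fin m ≃ {i : Fin m0 // 0 < k0 i} := (Fintype.equivFinOfCardEq hm.symm).symm
  obtain ⟨a, ha⟩ : ∃ a : Fin m → ℤ, a = fun i => a0 (e i).1 := ⟨_, rfl⟩
  subst ha
  obtain ⟨k, hk⟩ : ∃ k : Fin m → ℕ, k = fun i => k0 (e i).1 := ⟨_, rfl⟩
  subst hk
  have hinj : ∀ i j : Fin m, a0 (e i).1 = a0 (e j).1 → i = j := by
    intro i j hij
    by_contra hne
    have h3 : (e i).1 ≠ (e j).1 := fun h0 => hne (e.injective (Subtype.ext h0))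
    refine (hne0 _ _ h3 1).1 ?_
    rw [hij]
    norm_num
  have key := hC (Σ i : Fin m, Fin (k0 (e i).1)) (fun ij => a0 (e ij.1).1)
    (fun ij => P0 (e ij.1).1 ij.2) (fun ij => (hli0 (e ij.1).1).ne_zero ij.2) ⟨?_, ?_⟩ (by
      intro ij r
      obtain ⟨-, x, y, -, hxy⟩ := hadm (e ij.1).1 ij.2
      exact (hxy r).1) (by
      intro ij x y hA r
      obtain ⟨-, x', y', hA', hxy⟩ := hadm (e ij.1).1 ij.2
      obtain ⟨rfl, -⟩ := hA.unique hA'
      exact ⟨(hxy r).2.1.1, (hxy r).2.1.2, (hxy r).2.2.1, (hxy r).2.2.2⟩)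
  · obtain ⟨c, hc, hz⟩ := key
    refine ⟨c, hc, fun z0 => ?_⟩
    obtain ⟨z, hz0, hz1⟩ := hz z0
    refine ⟨z, hz0, hz1.trans ?_⟩
    have hcard : Fintype.card (Σ i : Fin m, Fin (k0 (e i).1)) = ∑ i : Fin m, k0 (e i).1 := by
      simp
    have hsum : ∑ i, k0 i = ∑ i : Fin m, k0 (e i).1 := by
      rw [e.sum_comp (fun i : {i : Fin m0 // 0 < k0 i} => k0 i.1)]
      rw [← Finset.sum_subtype (Finset.univ.filter fun i => 0 < k0 i) (by simp) k0]
      symm
      apply Finset.sum_subset (Finset.filter_subset _ _)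
      intro i _ hi
      simpa using hi
    have hfin : {p : ℕ | p.Prime ∧ (p : ℝ) ≤ z ∧ ∑ i, k0 i ≤
        4 * {ij : Σ i, Fin (k0 i) | Primitive (a0 ij.1) (P0 ij.1 ij.2) p}.ncard + C}.Finite := by
      apply (Set.finite_Iic (⌊z⌋₊)).subset
      rintro p ⟨-, hp, -⟩
      exact Nat.le_floor hp
    norm_cast
    apply Set.ncard_le_ncard _ hfin
    rintro p ⟨hp, hpz, hp2⟩
    refine ⟨hp, hpz, ?_⟩
    rw [hsum, ← hcard]
    refine hp2.trans ?_
    have hle : {ij : (Σ i : Fin m, Fin (k0 (e i).1)) |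
        Primitive (a0 (e ij.1).1) (P0 (e ij.1).1 ij.2) p}.ncard ≤
        {ij : Σ i, Fin (k0 i) | Primitive (a0 ij.1) (P0 ij.1 ij.2) p}.ncard := by
      apply Set.ncard_le_ncard_of_injOn
        (fun ij : (Σ i : Fin m, Fin (k0 (e i).1)) => (⟨(e ij.1).1, ij.2⟩ : Σ i, Fin (k0 i)))
      · rintro ⟨i, j⟩ hij
        exact hij
      · rintro ⟨i, j⟩ - ⟨i', j'⟩ - h0
        simp only [Sigma.mk.injEq] at h0
        obtain ⟨h1, h2⟩ := h0
        have h3 : i = i' := e.injective (Subtype.ext h1)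
        subst h3
        simpa using h2
    omega
  · intro ij ij' hne r
    apply hne0
    intro h
    exact hne (congrArg a0 h)
  · intro d S hS n hn hsum
    by_cases hex : ∃ i : Fin m, a0 (e i).1 = d
    · obtain ⟨i, rfl⟩ := hex
      have hzero : ∀ i' : Fin m, i' ≠ i → ∀ j : Fin (k0 (e i').1), n ⟨i', j⟩ = 0 := by
        intro i' hi' j
        by_contra hne
        exact hi' (hinj _ _ (hn ⟨i', j⟩ hne))
      have hSP : ∀ j : Fin (k0 (e i).1), S ⟨i, j⟩ = P0 (e i).1 j := by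
        intro j
        obtain ⟨x, y, hx, hy⟩ := hS ⟨i, j⟩ rfl
        exact AtF.eq hy hx
      have hs : ∑ j : Fin (k0 (e i).1), n ⟨i, j⟩ • P0 (e i).1 j = 0 := by
        rw [← hsum, Fintype.sum_sigma, Finset.sum_eq_single i]
        · exact Finset.sum_congr rfl fun j _ => by rw [hSP j]
        · intro i' _ hi'
          exact Finset.sum_eq_zero fun j _ => by rw [hzero i' hi' j, zero_zsmul]
        · intro hi
          exact absurd (Finset.mem_univ i) hi
      have hli := Fintype.linearIndependent_iff.1 (hli0 (e i).1) (fun j => n ⟨i, j⟩) hs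
      rintro ⟨i', j⟩
      by_cases hi' : i' = i
      · subst hi'
        exact hli j
      · exact hzero i' hi' j
    · intro ij
      by_contra hne
      exact hex ⟨ij.1, hn ij hne⟩

end Pool.Agent.Helper63.LT2
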