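import Pool.Agent.Helper63.LT2.Def

/-!
# Project LT2: subgroups of bounded rank and lattice points in boxes
-/

set_option autoImplicit false

namespace Pool.Agent.Helper63.LT2

variable {G : Type} [AddCommGroup G]

/-- a set without `r + 1` independent elements generates a subgroup of rank at most `r` -/
theorem rankLe_closure {r : ℕ} {X : Set G}
    (hX : ∀ v : Fin (r + 1) → G, (∀ i, v i ∈ X) → ¬ LinearIndependent ℤ v) :
    RankLe r (AddSubgroup.closure X) := by
  classical
  obtain ⟨Pm, hPm⟩ : ∃ Pm : ℕ → Prop, Pm = fun m => ∃ v : Fin m → G, (∀ i, v i ∈ X) ∧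
    LinearIndependent ℤ v := ⟨_, rfl⟩
  have h0 : Pm 0 := by
    rw [hPm]
    exact ⟨fun i => i.elim0, fun i => i.elim0, linearIndependent_empty_type⟩
  obtain ⟨m, hm⟩ : ∃ m, m = Nat.findGreatest Pm r := ⟨_, rfl⟩
  have hmr : m ≤ r := by rw [hm]; exact Nat.findGreatest_le r
  have hPmm : Pm m := by
    rw [hm]
    exact Nat.findGreatest_spec (Nat.zero_le r) h0
  have hgr : ∀ j, m < j → j ≤ r → ¬ Pm j := by
    intro j hj hjr
    rw [hm] at hj
    exact Nat.findGreatest_is_greatest hj hjr
  rw [hPm] at hPmm
  obtain ⟨v, hvX, hv⟩ := hPmm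
  -- the saturation of the span of `v`
  let M' : AddSubgroup G :=
    { carrier := {g | ∃ c : ℤ, c ≠ 0 ∧ c • g ∈ Submodule.span ℤ (Set.range v)}
      zero_mem' := ⟨1, one_ne_zero, by simp⟩
      add_mem' := by
        rintro x y ⟨c, hc, hcx⟩ ⟨d, hd, hdy⟩
        refine ⟨c * d, mul_ne_zero hc hd, ?_⟩
        rw [smul_add]
        apply Submodule.add_mem
        · rw [mul_comm, mul_smul]
          exact Submodule.smul_mem _ _ hcx
        · rw [mul_smul]
          exact Submodule.smul_mem _ _ hdy
      neg_mem' := by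
        rintro x ⟨c, hc, hcx⟩
        refine ⟨c, hc, ?_⟩
        rw [smul_neg]
        exact Submodule.neg_mem _ hcx }
  have hXM : X ⊆ M' := by
    intro x hx
    have hdep : ¬ LinearIndependent ℤ (Fin.cons x v : Fin (m + 1) → G) := by
      have hmem : ∀ i, (Fin.cons x v : Fin (m + 1) → G) i ∈ X := by
        intro i
        refine Fin.cases ?_ (fun j => ?_) i
        · exact hx
        · exact hvX j
      rcases Nat.lt_or_ge m r with hlt | hge
      · intro hli
        apply hgr (m + 1) (Nat.lt_succ_self m) hlt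
        rw [hPm]
        exact ⟨_, hmem, hli⟩
      · have : m = r := le_antisymm hmr hge
        subst this
        exact hX _ hmem
    rw [Fintype.not_linearIndependent_iff] at hdep
    obtain ⟨g, hg, i, hi⟩ := hdep
    rw [Fin.sum_univ_succ] at hg
    simp only [Fin.cons_zero, Fin.cons_succ] at hg
    have hg0 : g 0 ≠ 0 := by
      intro h
      rw [h, zero_smul, zero_add] at hg
      have h1 := Fintype.linearIndependent_iff.1 hv (fun j => g j.succ) hg
      apply hi
      refine Fin.cases h (fun j => ?_) i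
      exact h1 j
    refine ⟨g 0, hg0, ?_⟩
    have h2 : g 0 • x = -∑ j : Fin m, g j.succ • v j := eq_neg_of_add_eq_zero_left hg
    rw [h2]
    apply Submodule.neg_mem
    apply Submodule.sum_mem
    intro j _
    exact Submodule.smul_mem _ _ (Submodule.subset_span ⟨j, rfl⟩)
  have hcl : AddSubgroup.closure X ≤ M' := (AddSubgroup.closure_le M').2 hXM
  intro w hw hli
  have hw' : ∀ i, ∃ c : ℤ, c ≠ 0 ∧ c • w i ∈ Submodule.span ℤ (Set.range v) := fun i =>
    hcl (hw i)
  choose c hc hcw using hw'
  have hli' : LinearIndependent ℤ (fun i => c i • w i) := by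
    rw [Fintype.linearIndependent_iff] at hli ⊢
    intro g hg i
    have h1 := hli (fun i => g i * c i) (by
      rw [← hg]
      exact Finset.sum_congr rfl fun j _ => by rw [mul_smul]) i
    exact (mul_eq_zero.1 h1).resolve_right (hc i)
  have h1 := linearIndependent_le_span' (fun i => c i • w i) hli' (Set.range v) (by
    rintro _ ⟨i, rfl⟩
    exact hcw i)
  rw [Cardinal.mk_fin, Nat.cast_le] at h1
  have h2 : Fintype.card (Set.range v) ≤ m := by
    have := Fintype.card_range_le v
    simpa using this
  omega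

/-- lattice points in a box with differences in a set of rank at most `d` -/
theorem box_count (k N : ℕ) : ∀ (d : ℕ) (S : Finset (Fin k → ℤ)) (D : Set (Fin k → ℤ)),
    (∀ n ∈ S, ∀ n' ∈ S, n - n' ∈ D) →
    (∀ w : Fin (d + 1) → (Fin k → ℤ), (∀ j, w j ∈ D) → ¬ LinearIndependent ℤ w) →
    (∀ n ∈ S, ∀ i, |n i| ≤ N) → S.card ≤ (2 * N + 1) ^ d := by
  classical
  have hone : ∀ (S : Finset (Fin k → ℤ)) (D : Set (Fin k → ℤ)),
      (∀ n ∈ S, ∀ n' ∈ S, n - n' ∈ D) → (∀ v ∈ D, v = 0) → S.card ≤ 1 := by
    intro S D h1 h2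
    rw [Finset.card_le_one]
    intro n hn n' hn'
    exact sub_eq_zero.1 (h2 _ (h1 n hn n' hn'))
  intro d
  induction d with
  | zero =>
    intro S D h1 h2 h3
    rw [pow_zero]
    apply hone S D h1
    intro v hv
    by_contra hne
    apply h2 (fun _ => v) (fun _ => hv)
    rw [Fintype.linearIndependent_iff]
    intro g hg i
    have h5 : (∑ i : Fin 1, g i • v) = 0 := hg
    rw [Fin.sum_univ_one] at h5
    have : i = 0 := Fin.fin_one_eq_zero i
    rw [this]
    replace hg := h5
    exact (smul_eq_zero.1 hg).resolve_right hne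
  | succ d ih =>
    intro S D h1 h2 h3
    by_cases hD : ∀ v ∈ D, v = 0
    · exact (hone S D h1 hD).trans (Nat.one_le_pow' _ _)
    push Not at hD
    obtain ⟨v, hvD, hv⟩ := hD
    obtain ⟨i, hi⟩ : ∃ i, v i ≠ 0 := by
      by_contra h
      push Not at h
      exact hv (funext h)
    have hmaps : ∀ n ∈ S, n i ∈ Finset.Icc (-(N : ℤ)) N := by
      intro n hn
      rw [Finset.mem_Icc]
      exact abs_le.1 (h3 n hn i)
    rw [Finset.card_eq_sum_card_fiberwise hmaps]
    have h4 : ∀ c ∈ Finset.Icc (-(N : ℤ)) N, (S.filter (fun n => n i = c)).card ≤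
        (2 * N + 1) ^ d := by
      intro c _
      apply ih _ {w | w ∈ D ∧ w i = 0}
      · intro n hn n' hn'
        obtain ⟨hn1, hn2⟩ := Finset.mem_filter.1 hn
        obtain ⟨hn1', hn2'⟩ := Finset.mem_filter.1 hn'
        refine ⟨h1 n hn1 n' hn1', ?_⟩
        rw [Pi.sub_apply, hn2, hn2', sub_self]
      · intro w hw hli
        apply h2 (Fin.cons v w : Fin (d + 1 + 1) → (Fin k → ℤ))
        · intro j
          refine Fin.cases ?_ (fun j => ?_) j
          · exact hvD
          · exact (hw j).1
        · rw [Fintype.linearIndependent_iff] at hli ⊢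
          intro g hg
          rw [Fin.sum_univ_succ] at hg
          simp only [Fin.cons_zero, Fin.cons_succ] at hg
          have h5 := congrFun hg i
          rw [Pi.add_apply, Pi.smul_apply, Finset.sum_apply] at h5
          have h6 : ∑ j : Fin (d + 1), (g j.succ • w j) i = 0 := by
            apply Finset.sum_eq_zero
            intro j _
            rw [Pi.smul_apply, (hw j).2, smul_zero]
          rw [h6, add_zero, Pi.zero_apply, smul_eq_mul] at h5
          have h7 : g 0 = 0 := (mul_eq_zero.1 h5).resolve_right hi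
          rw [h7, zero_smul, zero_add] at hg
          have h8 := hli (fun j => g j.succ) hg
          intro j
          refine Fin.cases h7 (fun j => ?_) j
          exact h8 j
      · intro n hn
        exact h3 n (Finset.mem_filter.1 hn).1
    refine (Finset.sum_le_sum h4).trans ?_
    rw [Finset.sum_const, Int.card_Icc, smul_eq_mul, pow_succ, mul_comm]
    apply Nat.mul_le_mul_left
    omega

/-- few elements `Q + t ∑ nᵢ Rᵢ` of a box lie in a set without `r + 1` independent elements -/
theorem box_bound {r k N : ℕ} {X : Set G}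
    (hX : ∀ v : Fin (r + 1) → G, (∀ i, v i ∈ X) → ¬ LinearIndependent ℤ v)
    {R : Fin k → G} (hR : LinearIndependent ℤ R) (Q : G) {t : ℤ} (ht : t ≠ 0)
    (S : Finset (Fin k → ℤ)) (hS : ∀ n ∈ S, Q + t • ∑ i, n i • R i ∈ X)
    (hN : ∀ n ∈ S, ∀ i, |n i| ≤ N) : S.card ≤ (2 * N + 1) ^ r := by
  apply box_count k N r S {w | ∃ c : ℤ, c ≠ 0 ∧ c • ∑ i, w i • R i ∈ AddSubgroup.closure X}
  · intro n hn n' hn'
    refine ⟨t, ht, ?_⟩
    have h1 : t • ∑ i, (n - n') i • R i =
        (Q + t • ∑ i, n i • R i) - (Q + t • ∑ i, n' i • R i) := by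
      simp only [Pi.sub_apply, sub_smul, Finset.sum_sub_distrib, smul_sub]
      abel
    rw [h1]
    exact AddSubgroup.sub_mem _ (AddSubgroup.subset_closure (hS n hn))
      (AddSubgroup.subset_closure (hS n' hn'))
  · intro w hw hli
    choose c hc hcw using hw
    apply rankLe_closure hX (fun j => c j • ∑ i, w j i • R i) hcw
    rw [Fintype.linearIndependent_iff] at hli hR ⊢
    intro g hg
    have h1 : ∑ i, (∑ j, g j * c j * w j i) • R i = 0 := by
      rw [← hg]
      simp only [Finset.sum_smul, Finset.smul_sum]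
      rw [Finset.sum_comm]
      refine Finset.sum_congr rfl fun j _ => Finset.sum_congr rfl fun i _ => ?_
      rw [smul_smul, smul_smul]
    have h2 := hR _ h1
    have h3 := hli (fun j => g j * c j) (by
      funext i
      rw [Finset.sum_apply, Pi.zero_apply, ← h2 i]
      refine Finset.sum_congr rfl fun j _ => ?_
      rw [Pi.smul_apply, smul_eq_mul])
    intro j
    exact (mul_eq_zero.1 (h3 j)).resolve_right (hc j)
  · exact hN

end Pool.Agent.Helper63.LT2
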