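import Pool.Agent.Helper63.LT2.XZ

/-!
# Project LT2: linear combinations, quadratic growth of the logarithmic height
-/

set_option autoImplicit false

open scoped NumberField

namespace Pool.Agent.Helper63.LT2

open WeierstrassCurve Pool.Agent.Helper10.SS Pool.Agent.Helper63.LT

section hs
variable {L : Type} [Field L] {w v : L} {B C : ℝ}

theorem hs_mono (h : Hs w B) (hBC : B ≤ C) : Hs w C := fun σ => (h σ).trans hBC

theorem hs_mul (h : Hs w B) (h' : Hs v C) (hB : 0 ≤ B) : Hs (w * v) (B * C) := fun σ => by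
  rw [map_mul, norm_mul]
  exact mul_le_mul (h σ) (h' σ) (norm_nonneg _) hB

theorem hs_add (h : Hs w B) (h' : Hs v C) : Hs (w + v) (B + C) := fun σ => by
  rw [map_add]
  exact (norm_add_le _ _).trans (add_le_add (h σ) (h' σ))

theorem hs_neg (h : Hs w B) : Hs (-w) B := fun σ => by
  rw [map_neg, norm_neg]
  exact h σ

theorem hs_sub (h : Hs w B) (h' : Hs v C) : Hs (w - v) (B + C) := by
  rw [sub_eq_add_neg]
  exact hs_add h (hs_neg h')

theorem hs_pow (h : Hs w B) (n : ℕ) : Hs (w ^ n) (B ^ n) := fun σ => by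
  rw [map_pow, norm_pow]
  exact pow_le_pow_left₀ (norm_nonneg _) (h σ) n

theorem hs_nat (n : ℕ) : Hs (n : L) n := fun σ => by
  rw [map_natCast]
  simp

theorem hs_ex [NumberField L] (w : L) : ∃ B : ℝ, Hs w B := by
  refine ⟨∑ σ : L →+* ℂ, ‖σ w‖, fun σ => ?_⟩
  exact Finset.single_le_sum (f := fun σ : L →+* ℂ => ‖σ w‖) (fun _ _ => norm_nonneg _)
    (Finset.mem_univ σ)

end hs

section coe
variable {L : Type} [Field L]

private lemma cmul (a b : 𝓞 L) : ((a * b : 𝓞 L) : L) = (a : L) * (b : L) := map_mul _ _ _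
private lemma cadd (a b : 𝓞 L) : ((a + b : 𝓞 L) : L) = (a : L) + (b : L) := map_add _ _ _
private lemma csub (a b : 𝓞 L) : ((a - b : 𝓞 L) : L) = (a : L) - (b : L) := map_sub _ _ _
private lemma cpow (a : 𝓞 L) (n : ℕ) : ((a ^ n : 𝓞 L) : L) = (a : L) ^ n := map_pow _ _ _
private lemma czero : ((0 : 𝓞 L) : L) = 0 := map_zero _
private lemma cone : ((1 : 𝓞 L) : L) = 1 := map_one _
private lemma cfour : ((4 : 𝓞 L) : L) = ((4 : ℕ) : L) := by
  have := map_natCast (algebraMap (𝓞 L) L) 4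
  exact_mod_cast this

/-- coordinates exist -/
theorem xz_ex [NumberField L] (P : (EF (1 : L) 0).Point) :
    ∃ X Z : 𝓞 L, XZ P (X : L) (Z : L) := by
  rcases zero_orF P with h | ⟨x, y, hP⟩
  · refine ⟨1, 0, Or.inl ⟨h, czero, ?_⟩⟩
    rw [cone]
    exact one_ne_zero
  · obtain ⟨s, b, hb, hx⟩ := IsFractionRing.div_surjective (A := 𝓞 L) x
    have hb0 : b ≠ 0 := nonZeroDivisors.ne_zero hb
    have hbL : (b : L) ≠ 0 := by
      intro h; apply hb0; exact NumberField.RingOfIntegers.coe_eq_zero_iff.mp h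
    refine ⟨s, b, Or.inr ⟨x, y, hP, hbL, ?_⟩⟩
    have hx' : (s : L) / (b : L) = x := hx
    rw [← hx']
    field_simp

end coe

/-- the inductive statement -/
private def St {L : Type} [Field L] [DecidableEq L] {I : Type} [Fintype I]
    (Q : I → (EF (1 : L) 0).Point) (w : 𝓞 L) (m : I → ℤ) (X Z : 𝓞 L) : Prop :=
  XZ (∑ i, m i • Q i) (X : L) (Z : L) ∧
  ∀ (κ : Type) [Field κ] [DecidableEq κ] (φ : 𝓞 L →+* κ) (Q' : I → (EF (1 : κ) 0).Point),
    (2 : κ) ≠ 0 → φ w ≠ 0 → (∀ i, Rd φ (Q i) (Q' i)) → XZ (∑ i, m i • Q' i) (φ X) (φ Z)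

private theorem sum_split {G : Type} [AddCommGroup G] {I : Type} [Fintype I] (Q : I → G)
    (m u v : I → ℤ) (h : ∀ i, m i = u i + v i) :
    ∑ i, m i • Q i = ∑ i, u i • Q i + ∑ i, v i • Q i := by
  rw [← Finset.sum_add_distrib]
  refine Finset.sum_congr rfl fun i _ => ?_
  rw [h i, add_smul]

private theorem sum_diff {G : Type} [AddCommGroup G] {I : Type} [Fintype I] (Q : I → G)
    (e u v : I → ℤ) (h : ∀ i, e i = u i - v i) :
    ∑ i, e i • Q i = ∑ i, u i • Q i - ∑ i, v i • Q i := by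
  rw [← Finset.sum_sub_distrib]
  refine Finset.sum_congr rfl fun i _ => ?_
  rw [h i, sub_smul]

/-- one step -/
private theorem step {L : Type} [Field L] [NumberField L] [DecidableEq L] {I : Type} [Fintype I]
    {Q : I → (EF (1 : L) 0).Point} {w : 𝓞 L} {B0 b : ℝ} (hB0 : 1 ≤ B0) (hb : 1 ≤ b)
    (m u v e : I → ℤ) (hm : ∀ i, m i = u i + v i) (he : ∀ i, e i = u i - v i)
    {Xe Ze Xu Zu Xv Zv : 𝓞 L}
    (hSe : e ≠ 0 → St Q w e Xe Ze ∧ ∑ i, e i • Q i + ∑ i, e i • Q i ≠ 0 ∧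
      Hs (Xe : L) B0 ∧ Hs (Ze : L) B0 ∧
      ∀ (κ : Type) [Field κ] (φ : 𝓞 L →+* κ), φ w ≠ 0 → φ Xe ≠ 0 ∧ φ Ze ≠ 0)
    (hSu : St Q w u Xu Zu) (hSv : St Q w v Xv Zv)
    (hXu : Hs (Xu : L) b) (hZu : Hs (Zu : L) b) (hXv : Hs (Xv : L) b) (hZv : Hs (Zv : L) b) :
    ∃ X Z : 𝓞 L, St Q w m X Z ∧ Hs (X : L) (8 * B0 * b ^ 4) ∧ Hs (Z : L) (8 * B0 * b ^ 4) := by
  have h2L : (2 : L) ≠ 0 := two_ne_zero
  have hb0 : 0 ≤ b := by linarith
  have hb4 : 0 ≤ b ^ 4 := by positivity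
  by_cases h0 : e = 0
  · -- doubling
    have huv : ∀ i, v i = u i := by
      intro i
      have h1 := he i
      rw [h0] at h1
      simp only [Pi.zero_apply] at h1
      linarith
    have hvu : v = u := funext huv
    refine ⟨(Xu ^ 2 - Zu ^ 2) ^ 2, 4 * Xu * Zu * (Xu ^ 2 + Zu ^ 2), ⟨?_, ?_⟩, ?_, ?_⟩
    · rw [sum_split Q m u v hm, hvu]
      simp only [cmul, cadd, csub, cpow, cfour]
      have := hSu.1.dbl h2L
      push_cast
      exact this
    · intro κ _ _ φ Q' h2 hw hR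
      rw [sum_split Q' m u v hm, hvu]
      have := (hSu.2 κ φ Q' h2 hw hR).dbl h2
      simp only [map_mul, map_add, map_sub, map_pow, map_ofNat]
      exact this
    · simp only [csub, cpow]
      have h1 := hs_pow (hs_sub (hs_pow hXu 2) (hs_pow hZu 2)) 2
      refine hs_mono h1 ?_
      have : (b ^ 2 + b ^ 2) ^ 2 = 4 * b ^ 4 := by ring
      rw [this]
      nlinarith
    · simp only [cmul, cadd, cpow, cfour]
      have h1 := hs_mul (hs_mul (hs_mul (hs_nat (L := L) 4) hXu (by norm_num)) hZu (by positivity))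
        (hs_add (hs_pow hXu 2) (hs_pow hZu 2)) (by positivity)
      refine hs_mono h1 ?_
      have : ((4 : ℕ) : ℝ) * b * b * (b ^ 2 + b ^ 2) = 8 * b ^ 4 := by push_cast; ring
      rw [this]
      nlinarith
  · obtain ⟨hS, hne, hXe, hZe, hφ⟩ := hSe h0
    obtain ⟨hX0, hZ0⟩ := hS.1.two hne
    refine ⟨Ze * (Xu * Xv - Zu * Zv) ^ 2, Xe * (Xu * Zv - Xv * Zu) ^ 2, ⟨?_, ?_⟩, ?_, ?_⟩
    · rw [sum_split Q m u v hm]
      simp only [cmul, csub, cpow]
      apply XZ.add h2L hSu.1 hSv.1 _ hX0 hZ0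
      rw [← sum_diff Q e u v he]
      exact hS.1
    · intro κ _ _ φ Q' h2 hw hR
      rw [sum_split Q' m u v hm]
      simp only [map_mul, map_sub, map_pow]
      obtain ⟨h3, h4⟩ := hφ κ φ hw
      apply XZ.add h2 (hSu.2 κ φ Q' h2 hw hR) (hSv.2 κ φ Q' h2 hw hR) _ h3 h4
      rw [← sum_diff Q' e u v he]
      exact hS.2 κ φ Q' h2 hw hR
    · simp only [cmul, csub, cpow]
      have h1 := hs_mul hZe (hs_pow (hs_sub (hs_mul hXu hXv hb0) (hs_mul hZu hZv hb0)) 2)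
        (by linarith)
      refine hs_mono h1 ?_
      have : B0 * (b * b + b * b) ^ 2 = 4 * (B0 * b ^ 4) := by ring
      rw [this]
      have : 0 ≤ B0 * b ^ 4 := by positivity
      nlinarith
    · simp only [cmul, csub, cpow]
      have h1 := hs_mul hXe (hs_pow (hs_sub (hs_mul hXu hZv hb0) (hs_mul hXv hZu hb0)) 2)
        (by linarith)
      refine hs_mono h1 ?_
      have : B0 * (b * b + b * b) ^ 2 = 4 * (B0 * b ^ 4) := by ring
      rw [this]
      have : 0 ≤ B0 * b ^ 4 := by positivity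
      nlinarith

/-- linear combinations with coefficients at most `2 ^ J`: the denominators are at most
`exp (A 4 ^ J)` -/
theorem chainX (hC : Chain) (L : Type) [Field L] [NumberField L] [DecidableEq L] (I : Type)
    [Fintype I] (Q : I → (EF (1 : L) 0).Point)
    (hQ : ∀ e : I → ℤ, e ≠ 0 → ∑ i, e i • Q i + ∑ i, e i • Q i ≠ 0) :
    ∃ A : ℝ, 0 < A ∧ ∀ (J : ℕ) (n : I → ℤ), (∀ i, |n i| ≤ 2 ^ J) → ∑ i, n i • Q i ≠ 0 →
      ∃ w : 𝓞 L, w ≠ 0 ∧ Hs (w : L) (Real.exp (A * 4 ^ J)) ∧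
      ∀ (κ : Type) [Field κ] [DecidableEq κ] (φ : 𝓞 L →+* κ) (Q' : I → (EF (1 : κ) 0).Point),
        (2 : κ) ≠ 0 → φ w ≠ 0 → (∀ i, Rd φ (Q i) (Q' i)) → ∑ i, n i • Q' i ≠ 0 := by
  classical
  obtain ⟨c, -, hch⟩ := hC
  obtain ⟨A1, -, hA1⟩ := hch L I Q
  obtain ⟨Box, hBox⟩ : ∃ Box : Finset (I → ℤ), Box = Fintype.piFinset
    (fun _ : I => Finset.Icc (-2 : ℤ) 2) := ⟨_, rfl⟩
  have hmem : ∀ m, m ∈ Box ↔ ∀ i, -2 ≤ m i ∧ m i ≤ 2 := by
    intro m
    rw [hBox, Fintype.mem_piFinset]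
    simp only [Finset.mem_Icc]
  have hwex : ∀ m : I → ℤ, ∃ w : 𝓞 L, m ∈ Box → w ≠ 0 ∧
      ∀ (κ : Type) [Field κ] [DecidableEq κ] (φ : 𝓞 L →+* κ) (Q' : I → (EF (1 : κ) 0).Point),
        (2 : κ) ≠ 0 → φ w ≠ 0 → (∀ i, Rd φ (Q i) (Q' i)) →
        Rd φ (∑ i, m i • Q i) (∑ i, m i • Q' i) := by
    intro m
    by_cases h : m ∈ Box
    · obtain ⟨w, h1, -, h3⟩ := hA1 1 m (by
        intro i
        have := (hmem m).1 h i
        rw [pow_one, abs_le]
        exact this)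
      exact ⟨w, fun _ => ⟨h1, h3⟩⟩
    · exact ⟨0, fun h' => absurd h' h⟩
  choose w0 hw0 using hwex
  choose X0 Z0 hXZ using fun m : I → ℤ => xz_ex (∑ i, m i • Q i)
  obtain ⟨W, hW⟩ : ∃ W : 𝓞 L, W = ∏ m ∈ Box, (w0 m * (if X0 m = 0 then 1 else X0 m) *
    (if Z0 m = 0 then 1 else Z0 m)) := ⟨_, rfl⟩
  have hW0 : W ≠ 0 := by
    rw [hW]
    apply Finset.prod_ne_zero_iff.2
    intro m hm
    refine mul_ne_zero (mul_ne_zero (hw0 m hm).1 ?_) ?_
    · split_ifs with h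
      · exact one_ne_zero
      · exact h
    · split_ifs with h
      · exact one_ne_zero
      · exact h
  have hφW : ∀ (κ : Type) [Field κ] (φ : 𝓞 L →+* κ), φ W ≠ 0 → ∀ m ∈ Box, φ (w0 m) ≠ 0 ∧
      (X0 m ≠ 0 → φ (X0 m) ≠ 0) ∧ (Z0 m ≠ 0 → φ (Z0 m) ≠ 0) := by
    intro κ _ φ h m hm
    rw [hW, map_prod] at h
    have h1 := Finset.prod_ne_zero_iff.1 h m hm
    rw [map_mul, map_mul] at h1
    refine ⟨left_ne_zero_of_mul (left_ne_zero_of_mul h1), ?_, ?_⟩
    · intro h2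
      have := right_ne_zero_of_mul (left_ne_zero_of_mul h1)
      rwa [if_neg h2] at this
    · intro h2
      have := right_ne_zero_of_mul h1
      rwa [if_neg h2] at this
  have hStBox : ∀ m ∈ Box, St Q W m (X0 m) (Z0 m) := by
    intro m hm
    refine ⟨hXZ m, ?_⟩
    intro κ _ _ φ Q' h2 hw hR
    obtain ⟨h3, h4, h5⟩ := hφW κ φ hw m hm
    exact rd_xz ((hw0 m hm).2 κ φ Q' h2 h3 hR) (hXZ m) h4 h5
  -- the bound
  obtain ⟨B0, hB01, hB0W, hB0⟩ : ∃ B0 : ℝ, 1 ≤ B0 ∧ Hs (W : L) B0 ∧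
      ∀ m ∈ Box, Hs (X0 m : L) B0 ∧ Hs (Z0 m : L) B0 := by
    choose bX hbX using fun m : I → ℤ => hs_ex (X0 m : L)
    choose bZ hbZ using fun m : I → ℤ => hs_ex (Z0 m : L)
    obtain ⟨bW, hbW⟩ := hs_ex (W : L)
    refine ⟨1 + |bW| + ∑ m ∈ Box, (|bX m| + |bZ m|), ?_, ?_, ?_⟩
    · have h1 : 0 ≤ ∑ m ∈ Box, (|bX m| + |bZ m|) := Finset.sum_nonneg fun m _ => by positivity
      have h2 := abs_nonneg bW
      linarith
    · refine hs_mono hbW ?_
      have h1 : 0 ≤ ∑ m ∈ Box, (|bX m| + |bZ m|) := Finset.sum_nonneg fun m _ => by positivity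
      have h2 := le_abs_self bW
      linarith
    · intro m hm
      have h1 : |bX m| + |bZ m| ≤ ∑ m ∈ Box, (|bX m| + |bZ m|) :=
        Finset.single_le_sum (f := fun m => |bX m| + |bZ m|) (fun m _ => by positivity) hm
      have h2 := abs_nonneg bW
      have h3 := le_abs_self (bX m)
      have h4 := le_abs_self (bZ m)
      have h5 := abs_nonneg (bX m)
      have h6 := abs_nonneg (bZ m)
      exact ⟨hs_mono (hbX m) (by linarith), hs_mono (hbZ m) (by linarith)⟩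
  have hB00 : 0 < B0 := by linarith
  -- the induction; `b J = (8 B0) ^ (4 ^ J)`
  obtain ⟨bb, hbb⟩ : ∃ bb : ℕ → ℝ, bb = fun J => (8 * B0) ^ (2 * 4 ^ J - 1) := ⟨_, rfl⟩
  have hbb1 : ∀ J, 1 ≤ bb J := by
    intro J
    rw [hbb]
    exact one_le_pow₀ (by linarith)
  have hbbs : ∀ J, 8 * B0 * bb J ^ 4 ≤ bb (J + 1) := by
    intro J
    rw [hbb]
    simp only
    rw [← pow_mul, ← pow_succ']
    apply pow_le_pow_right₀ (by linarith)
    have : 1 ≤ 4 ^ J := Nat.one_le_pow _ _ (by norm_num)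
    rw [pow_succ]
    omega
  have key : ∀ (J : ℕ) (n : I → ℤ), (∀ i, |n i| ≤ 2 ^ J) → ∀ m : I → ℤ,
      (∀ i, m i = n i ∨ m i = n i + 1) →
      ∃ X Z : 𝓞 L, St Q W m X Z ∧ Hs (X : L) (bb J) ∧ Hs (Z : L) (bb J) := by
    intro J
    induction J with
    | zero =>
      intro n hn m hm
      have hmB : m ∈ Box := by
        rw [hmem]
        intro i
        have h1 := hn i
        rw [pow_zero, abs_le] at h1
        rcases hm i with h | h <;> omega
      refine ⟨X0 m, Z0 m, hStBox m hmB, ?_, ?_⟩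
      · refine hs_mono (hB0 m hmB).1 ?_
        rw [hbb]
        norm_num
        linarith
      · refine hs_mono (hB0 m hmB).2 ?_
        rw [hbb]
        norm_num
        linarith
    | succ J ih =>
      intro n hn m hm
      obtain ⟨n', hn'⟩ : ∃ n' : I → ℤ, n' = fun i => n i / 2 := ⟨_, rfl⟩
      obtain ⟨u, hu⟩ : ∃ u : I → ℤ, u = fun i => (m i + 1) / 2 := ⟨_, rfl⟩
      obtain ⟨v, hv⟩ : ∃ v : I → ℤ, v = fun i => m i / 2 := ⟨_, rfl⟩
      obtain ⟨e, he⟩ : ∃ e : I → ℤ, e = fun i => u i - v i := ⟨_, rfl⟩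
      have hn'b : ∀ i, |n' i| ≤ 2 ^ J := by
        intro i
        have h1 := hn i
        rw [pow_succ, abs_le] at h1
        rw [hn', abs_le]
        simp only
        omega
      have hub : ∀ i, u i = n' i ∨ u i = n' i + 1 := by
        intro i
        rw [hu, hn']
        simp only
        rcases hm i with h | h <;> omega
      have hvb : ∀ i, v i = n' i ∨ v i = n' i + 1 := by
        intro i
        rw [hv, hn']
        simp only
        rcases hm i with h | h <;> omega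
      have hmuv : ∀ i, m i = u i + v i := by
        intro i
        rw [hu, hv]
        simp only
        omega
      have heB : e ∈ Box := by
        rw [hmem]
        intro i
        rw [he, hu, hv]
        simp only
        omega
      obtain ⟨Xu, Zu, hSu, hXu, hZu⟩ := ih n' hn'b u hub
      obtain ⟨Xv, Zv, hSv, hXv, hZv⟩ := ih n' hn'b v hvb
      obtain ⟨X, Z, h1, h2, h3⟩ := step (w := W) hB01 (hbb1 J) m u v e hmuv
        (fun i => by rw [he]) (Xe := X0 e) (Ze := Z0 e) (by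
          intro hne
          refine ⟨hStBox e heB, hQ e hne, (hB0 e heB).1, (hB0 e heB).2, ?_⟩
          intro κ _ φ hφ
          obtain ⟨-, h4, h5⟩ := hφW κ φ hφ e heB
          obtain ⟨h6, h7⟩ := (hXZ e).two (hQ e hne)
          refine ⟨h4 fun h => h6 ?_, h5 fun h => h7 ?_⟩
          · rw [h]; exact czero
          · rw [h]; exact czero) hSu hSv hXu hZu hXv hZv
      exact ⟨X, Z, h1, hs_mono h2 (hbbs J), hs_mono h3 (hbbs J)⟩
  -- the conclusion
  have hlog0 : 0 < Real.log (8 * B0) := Real.log_pos (by linarith)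
  refine ⟨2 * Real.log (8 * B0), by linarith, ?_⟩
  intro J n hn hsum
  obtain ⟨X, Z, hS, -, hZ⟩ := key J n hn n (fun i => Or.inl rfl)
  have hZ0 : (Z : L) ≠ 0 := by
    intro h
    apply hsum
    have := hS.1
    rw [h] at this
    exact this.zero_right
  refine ⟨W * Z, mul_ne_zero hW0 (fun h => hZ0 (by rw [h]; exact czero)), ?_, ?_⟩
  · rw [cmul]
    refine hs_mono (hs_mul hB0W hZ hB00.le) ?_
    rw [hbb]
    simp only
    have h1 : 1 ≤ 4 ^ J := Nat.one_le_pow _ _ (by norm_num)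
    calc B0 * (8 * B0) ^ (2 * 4 ^ J - 1) ≤ (8 * B0) * (8 * B0) ^ (2 * 4 ^ J - 1) := by
          apply mul_le_mul_of_nonneg_right (by linarith) (by positivity)
      _ = (8 * B0) ^ (2 * 4 ^ J) := by
          rw [← pow_succ']
          congr 1
          omega
      _ = Real.exp (2 * Real.log (8 * B0) * 4 ^ J) := by
          rw [← Real.exp_log (show 0 < (8 * B0) ^ (2 * 4 ^ J) by positivity), Real.log_pow]
          congr 1
          push_cast
          ring
  · intro κ _ _ φ Q' h2 hφ hR hs'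
    rw [map_mul] at hφ
    have h3 := hS.2 κ φ Q' h2 (left_ne_zero_of_mul hφ) hR
    rw [hs'] at h3
    exact right_ne_zero_of_mul hφ h3.of_zero

end Pool.Agent.Helper63.LT2
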