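import Mathlib

/-!
# Project LT2: the square class of the `x`-coordinate divides `a`
-/

set_option autoImplicit false

namespace Pool.Agent.Helper63.LT2

theorem val_even {p : ℕ} [Fact p.Prime] {a x y : ℚ} (ha : a ≠ 0) (hx : x ≠ 0)
    (h : y ^ 2 = x ^ 3 + a * x) (hva : padicValRat p a = 0) : Even (padicValRat p x) := by
  by_cases hxa : x ^ 2 + a = 0
  · have h1 : a = -(x ^ 2) := by linarith
    have h2 : padicValRat p a = 2 * padicValRat p x := by
      rw [h1, padicValRat.neg, padicValRat.pow]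
      norm_num
    rw [hva] at h2
    have h3 : padicValRat p x = 0 := by omega
    rw [h3]
    exact Even.zero
  have hy : y ≠ 0 := by
    rintro rfl
    have h1 : x * (x ^ 2 + a) = 0 := by linear_combination -h
    rcases mul_eq_zero.1 h1 with h2 | h2
    · exact hx h2
    · exact hxa h2
  have h1 : 2 * padicValRat p y = padicValRat p x + padicValRat p (x ^ 2 + a) := by
    have h2 : y ^ 2 = x * (x ^ 2 + a) := by rw [h]; ring
    rw [← padicValRat.mul hx hxa, ← h2, padicValRat.pow]
    norm_num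
  have hx2 : padicValRat p (x ^ 2) = 2 * padicValRat p x := by
    rw [padicValRat.pow]
    norm_num
  rcases lt_trichotomy (padicValRat p x) 0 with h3 | h3 | h3
  · have h4 := padicValRat.add_eq_of_lt (p := p) hxa (pow_ne_zero 2 hx) ha
      (by rw [hx2, hva]; omega)
    rw [h4, hx2] at h1
    rw [Int.even_iff]
    omega
  · rw [h3]
    exact Even.zero
  · have h4 := padicValRat.add_eq_of_lt (p := p) (q := a) (r := x ^ 2) (by rwa [add_comm]) ha
      (pow_ne_zero 2 hx) (by rw [hx2, hva]; omega)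
    rw [add_comm, hva] at h4
    rw [h4] at h1
    rw [Int.even_iff]
    omega

theorem class_dvd {a : ℤ} (ha : a ≠ 0) {x y : ℚ} (h : y ^ 2 = x ^ 3 + a * x) (hx : x ≠ 0) :
    ∃ b : ℤ, b ∣ a ∧ ∃ s : ℚ, s ≠ 0 ∧ x = b * s ^ 2 := by
  have hd : ((x.den : ℕ) : ℚ) ≠ 0 := by exact_mod_cast x.den_ne_zero
  have hxd : x * x.den = x.num := Rat.mul_den_eq_num x
  have hn : x.num ≠ 0 := Rat.num_ne_zero.2 hx
  obtain ⟨m, hm⟩ : ∃ m : ℤ, m = x.num * x.den := ⟨_, rfl⟩
  have hm0 : m ≠ 0 := by
    rw [hm]
    exact mul_ne_zero hn (by exact_mod_cast x.den_ne_zero)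
  obtain ⟨c, t, hc0, ht0, hct, hc⟩ := Nat.sq_mul_squarefree_of_pos (Int.natAbs_pos.2 hm0)
  have ht0' : ((t : ℕ) : ℚ) ≠ 0 := by exact_mod_cast ht0.ne'
  have hmq : (m : ℚ) = m.sign * c * (t : ℚ) ^ 2 := by
    have h1 : m = m.sign * (m.natAbs : ℤ) := (Int.sign_mul_natAbs m).symm
    rw [← hct] at h1
    have h2 : (m : ℚ) = ((m.sign * ((t ^ 2 * c : ℕ) : ℤ) : ℤ) : ℚ) := by exact_mod_cast h1
    rw [h2]
    push_cast
    ring
  have hxs : x = ((m.sign * c : ℤ) : ℚ) * ((t : ℚ) / x.den) ^ 2 := by
    have h1 : x = m / (x.den : ℚ) ^ 2 := by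
      rw [hm]
      push_cast
      rw [← hxd]
      field_simp
    conv_lhs => rw [h1, hmq]
    push_cast
    field_simp
  refine ⟨m.sign * c, ?_, (t : ℚ) / x.den, div_ne_zero ht0' hd, hxs⟩
  have hs : m.sign.natAbs = 1 := Int.natAbs_sign_of_ne_zero hm0
  rw [← Int.natAbs_dvd_natAbs, Int.natAbs_mul, hs, one_mul, Int.natAbs_natCast]
  rw [← Nat.prod_primeFactors_of_squarefree hc]
  apply Finset.prod_primes_dvd
  · intro p hp
    exact (Nat.prime_of_mem_primeFactors hp).prime
  · intro p hp
    have hpp := Nat.prime_of_mem_primeFactors hp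
    have hpc := Nat.dvd_of_mem_primeFactors hp
    have : Fact p.Prime := ⟨hpp⟩
    by_contra hpa
    have hva : padicValRat p (a : ℚ) = 0 := by
      rw [padicValRat.of_int]
      have : padicValInt p a = 0 := by
        unfold padicValInt
        exact padicValNat.eq_zero_of_not_dvd hpa
      rw [this]
      rfl
    have h1 := val_even (p := p) (a := (a : ℚ)) (by exact_mod_cast ha) hx h hva
    have hvc : padicValRat p ((m.sign * c : ℤ) : ℚ) = 1 := by
      rw [padicValRat.of_int]
      have : padicValInt p (m.sign * c) = 1 := by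
        unfold padicValInt
        rw [Int.natAbs_mul, hs, one_mul, Int.natAbs_natCast]
        apply le_antisymm
        · by_contra hcon
          push Not at hcon
          have h2 : p ^ 2 ∣ c := (padicValNat_dvd_iff_le hc0.ne').2 hcon
          have h3 : p * p ∣ c := by rwa [sq] at h2
          exact hpp.one_lt.ne' (Nat.isUnit_iff.1 (hc p h3))
        · exact one_le_padicValNat_of_dvd hc0.ne' hpc
      rw [this]
      rfl
    have hb0 : ((m.sign * c : ℤ) : ℚ) ≠ 0 := by
      intro h2
      rw [h2] at hvc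
      simp at hvc
    have h2 : padicValRat p x = 1 + 2 * padicValRat p ((t : ℚ) / x.den) := by
      conv_lhs => rw [hxs]
      rw [padicValRat.mul hb0 (pow_ne_zero 2 (div_ne_zero ht0' hd)), hvc, padicValRat.pow]
      norm_num
    rw [h2, Int.even_iff] at h1
    omega

end Pool.Agent.Helper63.LT2
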