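import Mathlib

/-!
# Project LT2: mean values by convolution
-/

set_option autoImplicit false

open Finset Filter Topology
open scoped ArithmeticFunction.zeta

namespace Pool.Agent.Helper63.LT2

/-- `∑_{n ≤ t} (b * 1)(n) / n = A log t + O(1)` -/
theorem conv_asymp (b : ArithmeticFunction ℝ)
    (hb : Summable fun n : ℕ => |b n| * (n : ℝ) ^ (-(3 / 4) : ℝ)) :
    ∃ C : ℝ, 0 ≤ C ∧ ∀ t : ℝ, 1 ≤ t →
      |∑ n ∈ Ioc 0 ⌊t⌋₊, (b * (ζ : ArithmeticFunction ℝ)) n / n -
        (∑' n : ℕ, b n / n) * Real.log t| ≤ C := by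
  obtain ⟨F, hF⟩ : ∃ F : ℕ → ℝ, F = fun n : ℕ => |b n| * (n : ℝ) ^ (-(3 / 4) : ℝ) := ⟨_, rfl⟩
  have hFs : Summable F := by rw [hF]; exact hb
  have hF0 : ∀ n, 0 ≤ F n := by
    intro n
    rw [hF]
    positivity
  -- pointwise bounds
  have hp1 : ∀ n : ℕ, |b n / n| ≤ F n := by
    intro n
    rcases Nat.eq_zero_or_pos n with rfl | hn
    · simp only [ArithmeticFunction.map_zero, zero_div, abs_zero]
      exact hF0 0
    · have hn1 : (1 : ℝ) ≤ n := by exact_mod_cast hn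
      have hn0 : (0 : ℝ) < n := by linarith
      rw [hF, abs_div, abs_of_pos hn0, div_eq_mul_inv]
      apply mul_le_mul_of_nonneg_left _ (abs_nonneg _)
      rw [← Real.rpow_neg_one]
      exact Real.rpow_le_rpow_of_exponent_le hn1 (by norm_num)
  have hp2 : ∀ n : ℕ, 1 ≤ n → |b n / n| * Real.log n ≤ 4 * F n := by
    intro n hn
    have hn1 : (1 : ℝ) ≤ n := by exact_mod_cast hn
    have hn0 : (0 : ℝ) < n := by linarith
    have h1 : Real.log n ≤ (n : ℝ) ^ (1 / 4 : ℝ) / (1 / 4) :=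
      Real.log_le_rpow_div hn0.le (by norm_num)
    have h2 : Real.log n ≤ 4 * (n : ℝ) ^ (1 / 4 : ℝ) := by linarith
    rw [hF, abs_div, abs_of_pos hn0]
    calc |b n| / n * Real.log n ≤ |b n| / n * (4 * (n : ℝ) ^ (1 / 4 : ℝ)) :=
          mul_le_mul_of_nonneg_left h2 (by positivity)
      _ = 4 * (|b n| * ((n : ℝ) ^ (-1 : ℝ) * (n : ℝ) ^ (1 / 4 : ℝ))) := by
          rw [Real.rpow_neg_one]; ring
      _ = 4 * (|b n| * (n : ℝ) ^ (-(3 / 4) : ℝ)) := by
          rw [← Real.rpow_add hn0]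
          norm_num
  have hsb : Summable (fun n : ℕ => b n / n) :=
    Summable.of_norm_bounded hFs (fun n => by rw [Real.norm_eq_abs]; exact hp1 n)
  obtain ⟨K, hK⟩ : ∃ K : ℝ, K = ∑' n, F n := ⟨_, rfl⟩
  have hfin : ∀ s : Finset ℕ, ∑ n ∈ s, F n ≤ K := by
    intro s
    rw [hK]
    exact hFs.sum_le_tsum s (fun n _ => hF0 n)
  refine ⟨9 * K, ?_, ?_⟩
  · have := hfin ∅
    rw [Finset.sum_empty] at this
    linarith
  intro t ht
  obtain ⟨N, hN⟩ : ∃ N : ℕ, N = ⌊t⌋₊ := ⟨_, rfl⟩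
  rw [← hN]
  have ht0 : 0 < t := by linarith
  have hlt : 0 ≤ Real.log t := Real.log_nonneg ht
  -- the convolution
  have e1 : ∑ n ∈ Ioc 0 N, (b * (ζ : ArithmeticFunction ℝ)) n / n =
      ∑ d ∈ Ioc 0 N, b d / d * ∑ m ∈ Ioc 0 (N / d), (1 : ℝ) / m := by
    obtain ⟨bb, hbb⟩ : ∃ bb : ArithmeticFunction ℝ, ∀ n, bb n = b n / n :=
      ⟨⟨fun n => b n / n, by simp⟩, fun n => rfl⟩
    obtain ⟨zz, hzz⟩ : ∃ zz : ArithmeticFunction ℝ, ∀ n, zz n = (1 : ℝ) / n :=
      ⟨⟨fun n => (1 : ℝ) / n, by simp⟩, fun n => rfl⟩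
    have h1 := ArithmeticFunction.sum_Ioc_mul_eq_sum_sum bb zz N
    simp only [hbb, hzz] at h1
    rw [← h1]
    refine Finset.sum_congr rfl fun n hn => ?_
    rw [ArithmeticFunction.mul_apply, ArithmeticFunction.mul_apply, Finset.sum_div]
    refine Finset.sum_congr rfl fun x hx => ?_
    obtain ⟨hx1, hx2⟩ := Nat.mem_divisorsAntidiagonal.1 hx
    have hx20 : x.2 ≠ 0 := by
      intro h0
      rw [h0, mul_zero] at hx1
      exact hx2 hx1.symm
    rw [hbb, hzz, ArithmeticFunction.natCoe_apply, ArithmeticFunction.zeta_apply, if_neg hx20,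
      ← hx1]
    push_cast
    rw [div_mul_div_comm, mul_one]
  have hharm : ∀ k : ℕ, ∑ m ∈ Ioc 0 k, (1 : ℝ) / m = (harmonic k : ℝ) := by
    intro k
    rw [harmonic_eq_sum_Icc]
    push_cast
    have : Ioc 0 k = Icc 1 k := by
      ext m
      simp only [Finset.mem_Ioc, Finset.mem_Icc]
      omega
    rw [this]
    simp only [one_div]
  have hcmp : ∀ d ∈ Ioc 0 N, |∑ m ∈ Ioc 0 (N / d), (1 : ℝ) / m - (Real.log t - Real.log d)| ≤
      1 := by
    intro d hd
    obtain ⟨hd0, hdN⟩ := Finset.mem_Ioc.1 hd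
    have hd0' : (0 : ℝ) < d := by exact_mod_cast hd0
    have hdt : (d : ℝ) ≤ t := by
      have : (d : ℝ) ≤ N := by exact_mod_cast hdN
      rw [hN] at this
      exact this.trans (Nat.floor_le ht0.le)
    have h1 : N / d = ⌊t / d⌋₊ := by rw [hN, Nat.floor_div_natCast]
    have h2 : 1 ≤ t / d := by rwa [le_div_iff₀ hd0', one_mul]
    rw [hharm, h1, ← Real.log_div ht0.ne' hd0'.ne']
    have h3 := log_le_harmonic_floor (t / d) (by positivity)
    have h4 := harmonic_floor_le_one_add_log (t / d) h2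
    rw [abs_le]
    constructor <;> linarith
  have e2 : |∑ d ∈ Ioc 0 N, b d / d * ∑ m ∈ Ioc 0 (N / d), (1 : ℝ) / m -
      ∑ d ∈ Ioc 0 N, b d / d * (Real.log t - Real.log d)| ≤ K := by
    rw [← Finset.sum_sub_distrib]
    refine (Finset.abs_sum_le_sum_abs _ _).trans ?_
    refine le_trans (Finset.sum_le_sum fun d hd => ?_) (hfin (Ioc 0 N))
    rw [← mul_sub, abs_mul]
    calc |b d / d| * |∑ m ∈ Ioc 0 (N / d), (1 : ℝ) / m - (Real.log t - Real.log d)|
        ≤ |b d / d| * 1 := mul_le_mul_of_nonneg_left (hcmp d hd) (abs_nonneg _)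
      _ ≤ F d := by rw [mul_one]; exact hp1 d
  have e3 : |∑ d ∈ Ioc 0 N, b d / d * Real.log d| ≤ 4 * K := by
    refine (Finset.abs_sum_le_sum_abs _ _).trans ?_
    have h1 : ∀ d ∈ Ioc 0 N, |b d / d * Real.log d| ≤ 4 * F d := by
      intro d hd
      obtain ⟨hd0, -⟩ := Finset.mem_Ioc.1 hd
      rw [abs_mul, abs_of_nonneg (Real.log_natCast_nonneg d)]
      exact hp2 d hd0
    refine (Finset.sum_le_sum h1).trans ?_
    rw [← Finset.mul_sum]
    exact mul_le_mul_of_nonneg_left (hfin _) (by norm_num)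
  -- the tail
  have e4 : |(∑' n : ℕ, b n / n) * Real.log t - (∑ d ∈ Ioc 0 N, b d / d) * Real.log t| ≤
      4 * K := by
    have h1 := hsb.sum_add_tsum_nat_add (N + 1)
    have h2 : ∑ i ∈ range (N + 1), b i / i = ∑ d ∈ Ioc 0 N, b d / d := by
      symm
      apply Finset.sum_subset
      · intro x hx
        have := Finset.mem_Ioc.1 hx
        rw [Finset.mem_range]
        omega
      · intro x hx hx'
        rw [Finset.mem_range] at hx
        rw [Finset.mem_Ioc] at hx'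
        have : x = 0 := by omega
        rw [this, Nat.cast_zero, div_zero]
    rw [← h1, h2]
    obtain ⟨g, hg⟩ : ∃ g : ℕ → ℝ, g = fun i => b (i + (N + 1)) / ((i + (N + 1) : ℕ) : ℝ) :=
      ⟨_, rfl⟩
    have hgs : Summable g := by
      rw [hg]
      exact (summable_nat_add_iff (N + 1)).2 hsb
    rw [← hg]
    have h3 : ∀ i : ℕ, |g i| * Real.log t ≤ 4 * F (i + (N + 1)) := by
      intro i
      rw [hg]
      refine le_trans ?_ (hp2 (i + (N + 1)) (by omega))
      apply mul_le_mul_of_nonneg_left _ (abs_nonneg _)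
      apply Real.log_le_log ht0
      have h4 : t < N + 1 := by rw [hN]; exact Nat.lt_floor_add_one t
      push_cast
      have : (0 : ℝ) ≤ i := Nat.cast_nonneg _
      linarith
    have h6 : Summable fun i : ℕ => F (i + (N + 1)) := (summable_nat_add_iff (N + 1)).2 hFs
    have h7 : |∑' i : ℕ, g i| ≤ ∑' i : ℕ, |g i| := norm_tsum_le_tsum_norm (f := g) hgs.norm
    have h8 : ∑' i : ℕ, F (i + (N + 1)) ≤ K := by
      have h9 := hFs.sum_add_tsum_nat_add (N + 1)
      have h10 : 0 ≤ ∑ i ∈ range (N + 1), F i := Finset.sum_nonneg fun i _ => hF0 i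
      rw [hK]
      linarith
    have e5 : (∑ d ∈ Ioc 0 N, b d / d + ∑' i : ℕ, g i) *
        Real.log t - (∑ d ∈ Ioc 0 N, b d / d) * Real.log t =
        (∑' i : ℕ, g i) * Real.log t := by ring
    rw [e5, abs_mul, abs_of_nonneg hlt]
    calc |∑' i : ℕ, g i| * Real.log t
        ≤ (∑' i : ℕ, |g i|) * Real.log t := mul_le_mul_of_nonneg_right h7 hlt
      _ = ∑' i : ℕ, |g i| * Real.log t := by rw [tsum_mul_right]
      _ ≤ ∑' i : ℕ, 4 * F (i + (N + 1)) :=
          (hgs.abs.mul_right _).tsum_le_tsum h3 (h6.mul_left _)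
      _ = 4 * ∑' i : ℕ, F (i + (N + 1)) := tsum_mul_left
      _ ≤ 4 * K := mul_le_mul_of_nonneg_left h8 (by norm_num)
  rw [e1]
  have e6 : ∑ d ∈ Ioc 0 N, b d / d * (Real.log t - Real.log d) =
      (∑ d ∈ Ioc 0 N, b d / d) * Real.log t - ∑ d ∈ Ioc 0 N, b d / d * Real.log d := by
    rw [Finset.sum_mul, ← Finset.sum_sub_distrib]
    refine Finset.sum_congr rfl fun d _ => ?_
    ring
  rw [e6] at e2
  rw [abs_le] at e2 e3 e4 ⊢
  constructor <;> linarith [e2.1, e2.2, e3.1, e3.2, e4.1, e4.2]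

end Pool.Agent.Helper63.LT2
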