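import Pool.Agent.Helper63.LT.Rank
import Pool.Agent.Helper63.LT2.ChainX

/-!
# Project LT2: few primes are bad for many points, with the exponent `1 + 2 / r`
-/

set_option autoImplicit false

open scoped NumberField

namespace Pool.Agent.Helper63.LT2

open WeierstrassCurve Pool.Agent.Helper10.SS Pool.Agent.Helper63.LT

/-- few primes are bad for many points, with the exponent `1 + 2 / |I|` -/
theorem rankX (hC : Chain) (hN : NormCount) (hI : IndepL) (hF : FieldEx) (hM : Match)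
    (hH : MapHom) (hG : Grp) (I : Type) [Fintype I] [Nonempty I] (a : I → ℤ)
    (P : ∀ i, (EF (a i : ℚ) 0).Point) (ha : ∀ i, a i ≠ 0) (hP : ∀ i, P i ≠ 0)
    (hind : Indep a P) :
    ∃ C : ℝ, 0 < C ∧ ∀ y : ℝ, 1 ≤ y → ∀ S : Finset ℕ, (∀ p ∈ S, Small a P p y) →
      (S.card : ℝ) ≤ C * y ^ (1 + 2 / (Fintype.card I : ℝ)) := by
  classical
  obtain ⟨L, iF, iN, hgal, ι, hι, θ, hθ⟩ := hF I a ha
  have : DecidableEq L := Classical.decEq L
  have hex : ∀ i, ∃ x y, AtF (P i) x y := fun i => (zero_orF (P i)).resolve_left (hP i)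
  choose X Y hXY using hex
  have hι0 : ι ≠ 0 := by
    intro h
    rw [h] at hι
    norm_num at hι
  have haL : ∀ i, ((a i : ℤ) : L) ≠ 0 := fun i => by exact_mod_cast ha i
  have hθ0 : ∀ i, θ i ≠ 0 := by
    intro i h
    apply haL i
    rw [← hθ i, h]
    ring
  have hι4 : ι ^ 4 = 1 := by
    calc ι ^ 4 = (ι ^ 2) ^ 2 := by ring
      _ = 1 := by rw [hι]; norm_num
  have hθf : ∀ (f : I → Fin 4) i, (ι ^ (f i : ℕ) * θ i) ^ 4 = a i := by
    intro f i
    rw [mul_pow, ← pow_mul, mul_comm (f i : ℕ) 4, pow_mul, hι4, one_pow, one_mul, hθ i]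
  have hθf0 : ∀ (f : I → Fin 4) i, ι ^ (f i : ℕ) * θ i ≠ 0 := fun f i =>
    mul_ne_zero (pow_ne_zero _ hι0) (hθ0 i)
  have hQex : ∀ (f : I → Fin 4) i, ∃ Q : (EF (1 : L) 0).Point,
      AtF Q ((X i : L) / (ι ^ (f i : ℕ) * θ i) ^ 2) ((Y i : L) / (ι ^ (f i : ℕ) * θ i) ^ 3) := by
    intro f i
    obtain ⟨U, -, hU⟩ := hH ℚ L (algebraMap ℚ L) (ι ^ (f i : ℕ) * θ i)⁻¹
      (inv_ne_zero (hθf0 f i)) two_ne_zero (a i : ℚ) 1 (by
        rw [map_intCast, ← hθf f i, ← mul_pow, inv_mul_cancel₀ (hθf0 f i), one_pow])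
    refine ⟨U (P i), ?_⟩
    have := hU (P i) _ _ (hXY i)
    rw [eq_ratCast, eq_ratCast] at this
    convert this using 1
    · rw [inv_pow, div_eq_mul_inv, mul_comm]
    · rw [inv_pow, div_eq_mul_inv, mul_comm]
  choose Q hQ using hQex
  have hindL : ∀ (f : I → Fin 4) (n : I → ℤ), ∑ i, n i • Q f i = 0 → n = 0 := by
    intro f n h1
    funext i
    refine hI L I a P ha hind ι hι (fun i => ι ^ (f i : ℕ) * θ i) (hθf f) (Q f) ?_ n h1 i
    intro i
    exact ⟨X i, Y i, hXY i, hQ f i⟩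
  have hchain := fun f : I → Fin 4 => chainX hC L I (Q f) (by
    intro e he h1
    have h2 : ∑ i, (e i + e i) • Q f i = 0 := by
      rw [← h1, ← Finset.sum_add_distrib]
      exact Finset.sum_congr rfl fun i _ => add_smul _ _ _
    have h3 := hindL f _ h2
    apply he
    funext i
    have h4 := congrFun h3 i
    simp only [Pi.zero_apply] at h4 ⊢
    omega)
  choose A hA hw using hchain
  set k : ℕ := Fintype.card I with hk
  have hkpos : 0 < k := Fintype.card_pos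
  have hk0 : (0 : ℝ) < k := by exact_mod_cast hkpos
  set D0 : ℕ := ∏ i, (X i).den * (Y i).den with hD0
  set deg : ℝ := (Module.finrank ℚ L : ℝ) with hdeg
  have hdeg0 : 0 ≤ deg := Nat.cast_nonneg _
  have hl2 : 0 < Real.log 2 := Real.log_pos (by norm_num)
  set K : ℝ := deg * (∑ f, A f) / Real.log 2 with hK
  have hK0 : 0 ≤ K := by
    apply div_nonneg (mul_nonneg hdeg0 (Finset.sum_nonneg fun f _ => (hA f).le)) hl2.le
  refine ⟨D0.primeFactors.card + 1 + 3 ^ k * 4 * K, by positivity, ?_⟩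
  intro y hy S hS
  have hy0 : 0 < y := by linarith
  have hyk : 1 ≤ y ^ (1 / (k : ℝ)) := Real.one_le_rpow hy (by positivity)
  set M : ℕ := ⌊y ^ (1 / (k : ℝ))⌋₊ with hMdef
  have hM1 : 1 ≤ M := Nat.le_floor (by simpa using hyk)
  have hMy : (M : ℝ) ≤ y ^ (1 / (k : ℝ)) := Nat.floor_le (by positivity)
  have hyM : y < ((M + 1) ^ k : ℕ) := by
    have h1 : y ^ (1 / (k : ℝ)) < M + 1 := Nat.lt_floor_add_one _
    have h2 : y = (y ^ (1 / (k : ℝ))) ^ k := by
      rw [← Real.rpow_natCast, ← Real.rpow_mul hy0.le, one_div, inv_mul_cancel₀ hk0.ne',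
        Real.rpow_one]
    calc y = (y ^ (1 / (k : ℝ))) ^ k := h2
      _ < ((M : ℝ) + 1) ^ k := pow_lt_pow_left₀ h1 (by positivity) hkpos.ne'
      _ = ((M + 1) ^ k : ℕ) := by push_cast; rfl
  set J : ℕ := Nat.log 2 M + 1 with hJ
  have hJ1 : M ≤ 2 ^ J := (Nat.lt_pow_succ_log_self (by norm_num) M).le
  have hJ2 : 2 ^ J ≤ 2 * M := by
    rw [hJ, pow_succ, mul_comm]
    exact Nat.mul_le_mul_left 2 (Nat.pow_log_le_self 2 (by omega))
  have hwex : ∀ (f : I → Fin 4) (n : I → ℤ), ∃ w : 𝓞 L, (∀ i, |n i| ≤ 2 ^ J) → n ≠ 0 →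
      w ≠ 0 ∧ Hs (w : L) (Real.exp (A f * 4 ^ J)) ∧
      ∀ (κ : Type) [Field κ] [DecidableEq κ] (φ : 𝓞 L →+* κ) (Q' : I → (EF (1 : κ) 0).Point),
        (2 : κ) ≠ 0 → φ w ≠ 0 → (∀ i, Rd φ (Q f i) (Q' i)) →
        ∑ i, n i • Q' i ≠ 0 := by
    intro f n
    by_cases h : (∀ i, |n i| ≤ 2 ^ J) ∧ n ≠ 0
    · obtain ⟨w, hw1, hw2, hw3⟩ := hw f J n h.1 (fun h' => h.2 (hindL f n h'))
      exact ⟨w, fun _ _ => ⟨hw1, hw2, hw3⟩⟩
    · exact ⟨0, fun h' h'' => absurd ⟨h', h''⟩ h⟩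
  choose w hw' using hwex
  set Box : Finset (I → ℤ) := (Fintype.piFinset
    (fun _ : I => Finset.Icc (-(M : ℤ)) M)).filter (fun n => n ≠ 0) with hBox
  have hBoxmem : ∀ n, n ∈ Box ↔ (∀ i, |n i| ≤ M) ∧ n ≠ 0 := by
    intro n
    rw [hBox, Finset.mem_filter, Fintype.mem_piFinset]
    simp only [Finset.mem_Icc, abs_le]
  have hBoxcard : Box.card ≤ (2 * M + 1) ^ k := by
    rw [hBox]
    refine (Finset.card_filter_le _ _).trans ?_
    rw [Fintype.card_piFinset]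
    simp only [Int.card_Icc, Finset.prod_const, Finset.card_univ]
    apply le_of_eq
    congr 1
    omega
  set B : (I → Fin 4) → (I → ℤ) → Finset ℕ := fun f n => S.filter (fun p =>
    ∃ (κ : Type) (_ : Field κ) (φ : 𝓞 L →+* κ), (p : κ) = 0 ∧ φ (w f n) = 0) with hB
  have hcov : S ⊆ D0.primeFactors ∪ (Finset.univ : Finset (I → Fin 4)).biUnion (fun f =>
      Box.biUnion (fun n => B f n)) := by
    intro p hp
    obtain ⟨hpF, hp'⟩ := hS p hp
    have hpp := hpF.out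
    by_cases hpD : p ∣ D0
    · apply Finset.mem_union_left
      rw [Nat.mem_primeFactors]
      refine ⟨hpp, hpD, ?_⟩
      rw [hD0]
      exact Finset.prod_ne_zero_iff.2 fun i _ => mul_ne_zero (X i).den_ne_zero (Y i).den_ne_zero
    · apply Finset.mem_union_right
      have hX : ∀ i, ¬ p ∣ (X i).den := fun i h => hpD ((h.mul_right _).trans
        (Finset.dvd_prod_of_mem (fun i => (X i).den * (Y i).den) (Finset.mem_univ i)))
      have hY : ∀ i, ¬ p ∣ (Y i).den := fun i h => hpD ((h.mul_left _).trans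
        (Finset.dvd_prod_of_mem (fun i => (X i).den * (Y i).den) (Finset.mem_univ i)))
      obtain ⟨-, κ, hκ, hκd, φ, f, n, Q', hpκ, h2κ, hn1, hn2, hrd, hsum⟩ :=
        local_part hM hH hG a P hP X Y hXY ι hι θ hθ hθ0 Q hQ p y (hS p hp) hX hY M hyM
      rw [Finset.mem_biUnion]
      refine ⟨f, Finset.mem_univ f, ?_⟩
      rw [Finset.mem_biUnion]
      refine ⟨n, (hBoxmem n).2 ⟨hn1, hn2⟩, ?_⟩
      rw [hB, Finset.mem_filter]
      refine ⟨hp, κ, hκ, φ, hpκ, ?_⟩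
      by_contra hφ
      have hnJ : ∀ i, |n i| ≤ 2 ^ J := fun i => (hn1 i).trans (by exact_mod_cast hJ1)
      exact (hw' f n hnJ hn2).2.2 κ φ Q' h2κ hφ hrd hsum
  have hBcard : ∀ f, ∀ n ∈ Box, ((B f n).card : ℝ) ≤ deg * A f / Real.log 2 * 4 ^ J := by
    intro f n hn
    have hnJ : ∀ i, |n i| ≤ 2 ^ J := fun i =>
      (((hBoxmem n).1 hn).1 i).trans (by exact_mod_cast hJ1)
    obtain ⟨h1, h2, -⟩ := hw' f n hnJ ((hBoxmem n).1 hn).2
    have hexp : 1 ≤ Real.exp (A f * 4 ^ J) := by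
      apply Real.one_le_exp
      have := (hA f).le
      positivity
    have h3 := hN L (w f n) _ h1 hexp h2 (B f n) (by
      intro p hp
      rw [hB, Finset.mem_filter] at hp
      obtain ⟨hpF, -⟩ := hS p hp.1
      exact ⟨hpF.out, hp.2⟩)
    rw [Real.log_exp] at h3
    have h4 : ((B f n).card : ℝ) ≤ deg * (A f * 4 ^ J) / Real.log 2 := by
      rw [le_div_iff₀ hl2]
      exact h3
    calc ((B f n).card : ℝ) ≤ deg * (A f * 4 ^ J) / Real.log 2 := h4
      _ = deg * A f / Real.log 2 * 4 ^ J := by ring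
  have hScard : (S.card : ℝ) ≤ D0.primeFactors.card + (2 * M + 1) ^ k * (K * 4 ^ J) := by
    have h1 : S.card ≤ D0.primeFactors.card + ∑ f : I → Fin 4, ∑ n ∈ Box, (B f n).card := by
      refine (Finset.card_le_card hcov).trans ((Finset.card_union_le _ _).trans ?_)
      refine Nat.add_le_add_left ?_ _
      refine Finset.card_biUnion_le.trans (Finset.sum_le_sum fun f _ => ?_)
      exact Finset.card_biUnion_le
    calc (S.card : ℝ) ≤ ((D0.primeFactors.card + ∑ f : I → Fin 4, ∑ n ∈ Box, (B f n).card : ℕ) : ℝ) :=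
          by exact_mod_cast h1
      _ = D0.primeFactors.card + ∑ f : I → Fin 4, ∑ n ∈ Box, ((B f n).card : ℝ) := by
          push_cast; rfl
      _ ≤ D0.primeFactors.card + ∑ f : I → Fin 4, ∑ n ∈ Box, deg * A f / Real.log 2 * 4 ^ J := by
          gcongr with f _ n hn
          exact hBcard f n hn
      _ = D0.primeFactors.card + (Box.card : ℝ) * (K * 4 ^ J) := by
          congr 1
          simp only [Finset.sum_const, nsmul_eq_mul]
          rw [← Finset.mul_sum, ← Finset.sum_mul, hK]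
          congr 2
          rw [← Finset.sum_div, ← Finset.mul_sum]
      _ ≤ D0.primeFactors.card + (2 * M + 1) ^ k * (K * 4 ^ J) := by
          have h5 : (Box.card : ℝ) ≤ (2 * M + 1) ^ k := by exact_mod_cast hBoxcard
          have h6 : 0 ≤ K * 4 ^ J := by positivity
          have := mul_le_mul_of_nonneg_right h5 h6
          linarith
  have hcJ : (4 : ℝ) ^ J ≤ 4 * (M : ℝ) ^ 2 := by
    have h1 : 4 ^ J ≤ (2 * M) ^ 2 := by
      calc 4 ^ J = (2 ^ J) ^ 2 := by rw [← pow_mul, mul_comm, pow_mul]; norm_num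
        _ ≤ (2 * M) ^ 2 := Nat.pow_le_pow_left hJ2 2
    have h2 : ((4 ^ J : ℕ) : ℝ) ≤ (((2 * M) ^ 2 : ℕ) : ℝ) := by exact_mod_cast h1
    push_cast at h2
    linarith [h2, show (2 * (M : ℝ)) ^ 2 = 4 * (M : ℝ) ^ 2 by ring]
  have hM1' : (1 : ℝ) ≤ M := by exact_mod_cast hM1
  have hMk : (2 * (M : ℝ) + 1) ^ k ≤ 3 ^ k * (M : ℝ) ^ k := by
    rw [← mul_pow]
    exact pow_le_pow_left₀ (by positivity) (by linarith) k
  have hpow : (M : ℝ) ^ k * (M : ℝ) ^ 2 ≤ y ^ (1 + 2 / (k : ℝ)) := by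
    rw [← pow_add]
    calc (M : ℝ) ^ (k + 2) ≤ (y ^ (1 / (k : ℝ))) ^ (k + 2) :=
          pow_le_pow_left₀ (by positivity) hMy _
      _ = y ^ (1 + 2 / (k : ℝ)) := by
          rw [← Real.rpow_natCast, ← Real.rpow_mul hy0.le]
          congr 1
          push_cast
          field_simp
  have hy1 : 1 ≤ y ^ (1 + 2 / (k : ℝ)) := Real.one_le_rpow hy (by positivity)
  calc (S.card : ℝ) ≤ D0.primeFactors.card + (2 * M + 1) ^ k * (K * 4 ^ J) := hScard
    _ ≤ D0.primeFactors.card + (3 ^ k * (M : ℝ) ^ k) * (K * (4 * (M : ℝ) ^ 2)) := by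
        gcongr
    _ = D0.primeFactors.card + 3 ^ k * 4 * K * ((M : ℝ) ^ k * (M : ℝ) ^ 2) := by ring
    _ ≤ (D0.primeFactors.card + 1) * y ^ (1 + 2 / (k : ℝ)) +
        3 ^ k * 4 * K * y ^ (1 + 2 / (k : ℝ)) := by
        apply add_le_add
        · have h0 : (0 : ℝ) ≤ D0.primeFactors.card := Nat.cast_nonneg _
          nlinarith
        · exact mul_le_mul_of_nonneg_left hpow (by positivity)
    _ = (D0.primeFactors.card + 1 + 3 ^ k * 4 * K) * y ^ (1 + 2 / (k : ℝ)) := by ring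

end Pool.Agent.Helper63.LT2
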