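import Pool.Agent.Helper63.LT2.Pig
import Pool.Agent.Helper63.LT2.RankX
import Pool.Agent.Helper63.LT.MainI

/-!
# Project LT2: the main theorem
-/

set_option autoImplicit false

open Finset Filter Topology

namespace Pool.Agent.Helper63.LT2

open WeierstrassCurve Pool.Agent.Helper10.SS Pool.Agent.Helper63.LT
open Pool.Agent.Helper18.BV (card_large)

/-- the points which do not generate modulo one special prime fall into five classes -/
theorem cover5 (hG : Grp) {I : Type} [Fintype I] (a : I → ℤ)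
    (P : ∀ i, (EF (a i : ℚ) 0).Point) (X Y : I → ℚ) (hXY : ∀ i, AtF (P i) (X i) (Y i))
    {x : ℝ} (hx : 2 < x) (T : Finset I) {p : ℕ} (hp : p.Prime) (hpx : (p : ℝ) ≤ x)
    (h4 : p % 4 = 3) (hdX : ∀ i, ¬ p ∣ (X i).den) (hdY : ∀ i, ¬ p ∣ (Y i).den)
    (hT : ∀ i ∈ T, ¬ IsSquare ((-(a i) : ℤ) : ZMod p) ∧
      ¬ IsSquare (((X i).num * (X i).den : ℤ) : ZMod p))
    (hr : ∀ r : ℕ, r.Prime → r ∣ p + 1 → r = 2 ∨ x ^ (183 / 1000 : ℝ) < (r : ℝ))
    (hsq : ∀ r : ℕ, r.Prime → r ∣ p + 1 → r = 2 ∨ ¬ r ^ 2 ∣ p + 1) :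
    ∃ cl : I → Fin 5, ∀ J : Finset I, J.Nonempty → J ⊆ T → (∀ i ∈ J, ¬ Primitive (a i) (P i) p) →
      (∀ i ∈ J, ∀ i' ∈ J, cl i = cl i') →
      Small (fun i : J => a i) (fun i : J => P i) p (2 * x ^ (1 - 183 / 1000 : ℝ)) := by
  classical
  have hF : Fact p.Prime := ⟨hp⟩
  have hp2 : p ≠ 2 := by omega
  have hns : ∀ i ∈ T, ¬ IsSquare (-(a i : ZMod p)) := by
    intro i hi h
    apply (hT i hi).1
    push_cast
    exact h
  have hex : ∀ i ∈ T, ∃ P' : (EF (a i : ZMod p) 0).Point,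
      AtF P' (X i : ZMod p) (Y i : ZMod p) ∧ Reduces (a i) p (P i) P' := fun i hi =>
    exists_red hp2 (a i) (hns i hi) (P i) (X i) (Y i) (hXY i) (hdX i) (hdY i)
  have hXns : ∀ i ∈ T, ¬ IsSquare ((X i : ℚ) : ZMod p) := by
    intro i hi hs
    apply (hT i hi).2
    obtain ⟨s, hs⟩ := hs
    have hXd : (((X i).den : ℕ) : ZMod p) ≠ 0 := by
      rw [Ne, ZMod.natCast_eq_zero_iff]
      exact hdX i
    refine ⟨s * (X i).den, ?_⟩
    have h1 : ((X i : ℚ) : ZMod p) * (X i).den = (X i).num := by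
      rw [Rat.cast_def (X i)]
      field_simp
    push_cast
    rw [← h1, hs]
    ring
  -- the indices in `T` which are not primitive
  set N : Finset I := T.filter (fun i => ¬ Primitive (a i) (P i) p) with hN
  have hq : ∀ i ∈ N, ∃ q : ℕ, q.Prime ∧ q ≠ 2 ∧ q ∣ p + 1 ∧
      ∃ P' : (EF (a i : ZMod p) 0).Point, Reduces (a i) p (P i) P' ∧ ((p + 1) / q) • P' = 0 := by
    intro i hi
    obtain ⟨hiT, hiP⟩ := Finset.mem_filter.1 hi
    obtain ⟨P', hP'1, hP'2⟩ := hex i hiT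
    have hgen : ¬ ∀ R, R ∈ AddSubgroup.zmultiples P' := by
      intro hgen
      apply hiP
      refine ⟨hF, ?_, P', hP'2, hgen⟩
      intro hdvd
      have h1 : ((2 * a i : ℤ) : ZMod p) = 0 := by
        rw [ZMod.intCast_zmod_eq_zero_iff_dvd]
        exact hdvd
      push_cast at h1
      rcases mul_eq_zero.1 h1 with h2 | h2
      · apply Ring.two_ne_zero (R := ZMod p) _ h2
        rw [ZMod.ringChar_zmod_n]
        exact hp2
      · apply hns i hiT
        rw [h2, neg_zero]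
        exact IsSquare.zero
    obtain ⟨q, hq1, hq2, hq3, hq4⟩ :=
      (hG p h4 hsq (a i : ZMod p) (hns i hiT)).2 P' _ _ hP'1 (hXns i hiT) hgen
    exact ⟨q, hq1, hq2, hq3, P', hP'2, hq4⟩
  -- the prime attached to an index
  have hq' : ∀ i : I, ∃ q : ℕ, i ∈ N → (q.Prime ∧ q ≠ 2 ∧ q ∣ p + 1 ∧
    ∃ P' : (EF (a i : ZMod p) 0).Point, Reduces (a i) p (P i) P' ∧
      ((p + 1) / q) • P' = 0) := by
    intro i
    by_cases hi : i ∈ N
    · obtain ⟨q, h⟩ := hq i hi
      exact ⟨q, fun _ => h⟩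
    · exact ⟨0, fun h => absurd h hi⟩
  choose qf hqf using hq'
  set R : Finset ℕ := N.image qf with hR
  have hx1 : 1 < x := by linarith
  have hx0 : 0 < x := by linarith
  have hRl : ∀ r ∈ R, r.Prime ∧ r ≠ 2 ∧ r ∣ p + 1 ∧ x ^ (183 / 1000 : ℝ) < (r : ℝ) := by
    intro r hr'
    obtain ⟨i, hi, rfl⟩ := Finset.mem_image.1 hr'
    obtain ⟨h1, h2, h3, -⟩ := hqf i hi
    exact ⟨h1, h2, h3, (hr _ h1 h3).resolve_left h2⟩
  have h4p : (p + 1) / 4 * 4 = p + 1 := Nat.div_mul_cancel (by omega)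
  have hRcard : R.card ≤ 5 := by
    have h1 := card_large (α := 183 / 1000) (x := x) (by norm_num) hx1 (n := (p + 1) / 4)
      (by omega) (by
        have h2 : (((p + 1) / 4 : ℕ) : ℝ) * 4 = p + 1 := by exact_mod_cast h4p
        nlinarith) R (by
        intro r hr'
        obtain ⟨h1, h2, h3, h5⟩ := hRl r hr'
        refine ⟨h1, ?_, h5⟩
        have h6 : r.Coprime 4 := by
          have : (4 : ℕ) = 2 ^ 2 := by norm_num
          rw [this]
          apply Nat.Coprime.pow_right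
          exact (Nat.coprime_primes h1 Nat.prime_two).2 h2
        rw [← h4p] at h3
        exact h6.dvd_of_dvd_mul_right h3)
    refine h1.trans ?_
    have h3 : ⌊(1 / (183 / 1000) : ℝ)⌋₊ = 5 := by
      rw [Nat.floor_eq_iff (by norm_num)]
      norm_num
    rw [h3]
  obtain ⟨e, he⟩ : ∃ e : ℕ → Fin 5, Set.InjOn e (R : Set ℕ) := by
    have h1 : Fintype.card R ≤ Fintype.card (Fin 5) := by
      rw [Fintype.card_coe, Fintype.card_fin]
      exact hRcard
    obtain ⟨f⟩ := Function.Embedding.nonempty_of_card_le h1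
    refine ⟨fun r => if h : r ∈ R then f ⟨r, h⟩ else 0, ?_⟩
    intro r hr' s hs h
    rw [Finset.mem_coe] at hr' hs
    simp only [hr', hs, dif_pos] at h
    have := f.injective h
    exact congrArg Subtype.val this
  refine ⟨fun i => e (qf i), ?_⟩
  intro J hJne hJT hJp hJcl
  have hJN : ∀ i ∈ J, i ∈ N := fun i hi => Finset.mem_filter.2 ⟨hJT hi, hJp i hi⟩
  obtain ⟨i0, hi0⟩ := hJne
  obtain ⟨r, hrd⟩ : ∃ r : ℕ, r = qf i0 := ⟨_, rfl⟩
  have hqr : ∀ i ∈ J, qf i = r := by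
    intro i hi
    rw [hrd]
    exact he (Finset.mem_coe.2 (Finset.mem_image_of_mem qf (hJN i hi)))
      (Finset.mem_coe.2 (Finset.mem_image_of_mem qf (hJN i0 hi0))) (hJcl i hi i0 hi0)
  have hrR : r ∈ R := by
    rw [hrd]
    exact Finset.mem_image_of_mem qf (hJN i0 hi0)
  obtain ⟨hr1, -, hr2, hr3⟩ := hRl r hrR
  refine ⟨hF, h4, hsq, ?_, (p + 1) / r, Nat.div_pos (Nat.le_of_dvd (by omega) hr2) hr1.pos, ?_, ?_⟩
  · intro i
    exact hns i (hJT i.2)
  · have h2 : 0 < x ^ (183 / 1000 : ℝ) := Real.rpow_pos_of_pos hx0 _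
    calc (((p + 1) / r : ℕ) : ℝ) ≤ ((p + 1 : ℕ) : ℝ) / r := Nat.cast_div_le
      _ ≤ (2 * x) / x ^ (183 / 1000 : ℝ) := by
          apply div_le_div₀ (by linarith) _ h2 hr3.le
          push_cast
          linarith
      _ = 2 * x ^ (1 - 183 / 1000 : ℝ) := by
          rw [Real.rpow_sub hx0, Real.rpow_one]
          ring
  · intro i
    obtain ⟨-, -, -, P', h5, h6⟩ := hqf i (hJN i i.2)
    rw [hqr i i.2] at h6
    exact ⟨P', h5, h6⟩

/-- The main theorem. -/
def MainM : Prop :=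
  ∀ (I : Type) [Fintype I] (a : I → ℤ) (P : ∀ i, (EF (a i : ℚ) 0).Point) (X Y : I → ℚ),
    (∀ i, AtF (P i) (X i) (Y i)) → (∀ i, a i ≠ 0) → ∀ v u : ℕ, 0 < v → u.Coprime v → 4 ∣ v →
    u % 4 = 3 → (∀ r : ℕ, r.Prime → r ≠ 2 → r ∣ v → ¬ r ∣ u + 1) → ∀ (T : Finset I) (p0 : ℕ),
    (∀ p : ℕ, p.Prime → p0 < p → p ≡ u [MOD v] → ∀ i ∈ T,
      ¬ IsSquare ((-(a i) : ℤ) : ZMod p) ∧
      ¬ IsSquare (((X i).num * (X i).den : ℤ) : ZMod p)) →
    ∃ (cl : I → Fin 5) (N : Finset I), N ⊆ T ∧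
      (∀ J : Finset I, J ⊆ N → J.card = 9 → Indep (fun i : J => a i) (fun i : J => P i) →
        ∃ i ∈ J, ∃ i' ∈ J, cl i ≠ cl i') ∧
      ∃ c : ℝ, 0 < c ∧ ∀ z0 : ℝ, ∃ z : ℝ, z0 ≤ z ∧ c * z / Real.log z ^ 2 ≤
        ({p : ℕ | p.Prime ∧ (p : ℝ) ≤ z ∧
          ∀ i ∈ T, i ∉ N → Primitive (a i) (P i) p}.ncard : ℝ)

theorem mainM (hS : SpecialPlus2) (hG : Grp) (hC : Chain) (hN : NormCount) (hI : IndepL)
    (hF : FieldEx) (hM : Match) (hH : MapHom) : MainM := by
  classical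
  intro I _ a P X Y hXY ha v u hv huv h4v hu4 hru T p0 hpat
  have hP0 : ∀ i, P i ≠ 0 := by
    intro i h
    exact (hXY i).ne_zero h
  -- the rank lemma for all subsets
  have hrank : ∀ J : Finset I, ∃ C : ℝ, 0 < C ∧ (J.card = 9 →
      Indep (fun i : J => a i) (fun i : J => P i) → ∀ y : ℝ, 1 ≤ y →
      ∀ S : Finset ℕ, (∀ p ∈ S, Small (fun i : J => a i) (fun i : J => P i) p y) →
      (S.card : ℝ) ≤ C * y ^ (11 / 9 : ℝ)) := by
    intro J
    by_cases hJ : J.card = 9 ∧ Indep (fun i : J => a i) (fun i : J => P i)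
    · have : Nonempty J := by
        have : J.Nonempty := by
          rw [← Finset.card_pos, hJ.1]
          norm_num
        exact this.to_subtype
      obtain ⟨C, hC0, hC⟩ := rankX hC hN hI hF hM hH hG J (fun i => a i) (fun i => P i)
        (fun i => ha i) (fun i => hP0 i) hJ.2
      refine ⟨C, hC0, fun _ _ y hy S hS => ?_⟩
      have := hC y hy S hS
      rw [Fintype.card_coe, hJ.1] at this
      norm_num at this
      exact this
    · exact ⟨1, one_pos, fun h h' => absurd ⟨h, h'⟩ hJ⟩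
  choose CJ hCJ0 hCJ using hrank
  obtain ⟨K, hK⟩ : ∃ K : ℝ, K = 4 + ∑ J : Finset I, 4 * CJ J := ⟨_, rfl⟩
  have hK0 : 0 ≤ K := by
    have : 0 ≤ ∑ J : Finset I, 4 * CJ J :=
      Finset.sum_nonneg fun J _ => mul_nonneg (by norm_num) (hCJ0 J).le
    linarith
  obtain ⟨D0, hD0⟩ : ∃ D0 : ℕ, D0 = ∏ i, (X i).den * (Y i).den := ⟨_, rfl⟩
  have hD0pos : 0 < D0 := by
    rw [hD0]
    exact Finset.prod_pos fun i _ => Nat.mul_pos (X i).den_pos (Y i).den_pos
  have hev1 : ∀ᶠ x : ℝ in atTop, (2 : ℝ) ≤ x ^ (183 / 1000 : ℝ) :=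
    (tendsto_rpow_atTop (by norm_num)).eventually_ge_atTop _
  have hev2 : ∀ᶠ x : ℝ in atTop, (D0 + p0 : ℝ) < x ^ (999 / 1000 : ℝ) :=
    (tendsto_rpow_atTop (by norm_num)).eventually_gt_atTop _
  obtain ⟨X1, hX1⟩ := (hev1.and (hev2.and (eventually_ge_atTop (4 : ℝ)))).exists_forall_of_atTop
  obtain ⟨ns, hns⟩ : ∃ ns : ℝ → Finset ℕ, ns = fun x => (Finset.range (⌊x⌋₊ + 1)).filter
    (fun p => ∃ r : ℕ, x ^ (183 / 1000 : ℝ) < (r : ℝ) ∧ r ^ 2 ∣ p + 1) := ⟨_, rfl⟩
  obtain ⟨B, hB⟩ : ∃ B : ℝ → Finset I → Finset ℕ, B = fun (x : ℝ) (J : Finset I) =>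
    (Finset.range (⌊x⌋₊ + 1)).filter (fun p => J.card = 9 ∧
      Indep (fun i : J => a i) (fun i : J => P i) ∧
      Small (fun i : J => a i) (fun i : J => P i) p (2 * x ^ (1 - 183 / 1000 : ℝ))) := ⟨_, rfl⟩
  obtain ⟨⟨⟨cl, N⟩, hN1, hN2⟩, c, hc, hcz⟩ := pigeon hS hv huv ((by norm_num : (2 : ℕ) ∣ 4).trans h4v)
    hru (A := {cn : (I → Fin 5) × Finset I // cn.2 ⊆ T ∧ ∀ J : Finset I, J ⊆ cn.2 → J.card = 9 →
      Indep (fun i : J => a i) (fun i : J => P i) → ∃ i ∈ J, ∃ i' ∈ J, cn.1 i ≠ cn.1 i'})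
    (fun cn => {p : ℕ | ∀ i ∈ T, i ∉ cn.1.2 → Primitive (a i) (P i) p})
    (fun x => ns x ∪ (Finset.univ : Finset (Finset I)).biUnion (B x)) (K := K) (X1 := X1) hK0
    (by
      intro x hx
      obtain ⟨hx2, hxD, hx4⟩ := hX1 x hx
      have hx1 : 1 < x := by linarith
      have hxpos : 0 < x := by linarith
      have h1 : ((ns x).card : ℝ) ≤ 4 * x ^ (4993 / 5000 : ℝ) := by
        have h5 := card_sq_le (x := x) (w := x ^ (183 / 1000 : ℝ)) hx1.le hx2 (ns x) (by
          intro p hp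
          rw [hns] at hp
          obtain ⟨hp1, hp2⟩ := Finset.mem_filter.1 hp
          rw [Finset.mem_range, Nat.lt_succ_iff, Nat.le_floor_iff hxpos.le] at hp1
          exact ⟨hp1, hp2⟩)
        refine h5.trans ?_
        have h6 : 4 * x / x ^ (183 / 1000 : ℝ) = 4 * x ^ (1 - 183 / 1000 : ℝ) := by
          rw [Real.rpow_sub hxpos, Real.rpow_one]; ring
        rw [h6]
        apply mul_le_mul_of_nonneg_left _ (by norm_num)
        exact Real.rpow_le_rpow_of_exponent_le hx1.le (by norm_num)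
      have h2 : ∀ J : Finset I, ((B x J).card : ℝ) ≤ 4 * CJ J * x ^ (4993 / 5000 : ℝ) := by
        intro J
        by_cases hJ : J.card = 9 ∧ Indep (fun i : J => a i) (fun i : J => P i)
        · have hy1 : 1 ≤ 2 * x ^ (1 - 183 / 1000 : ℝ) := by
            have := Real.one_le_rpow hx1.le (by norm_num : (0 : ℝ) ≤ 1 - 183 / 1000)
            linarith
          have h5 := hCJ J hJ.1 hJ.2 (2 * x ^ (1 - 183 / 1000 : ℝ)) hy1 (B x J) (by
            intro p hp
            rw [hB] at hp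
            exact (Finset.mem_filter.1 hp).2.2.2)
          have h6 : (2 * x ^ (1 - 183 / 1000 : ℝ)) ^ (11 / 9 : ℝ) ≤
              4 * x ^ (4993 / 5000 : ℝ) := by
            have hxa : 0 < x ^ (1 - 183 / 1000 : ℝ) := Real.rpow_pos_of_pos hxpos _
            rw [Real.mul_rpow (by norm_num) hxa.le]
            apply mul_le_mul
            · calc (2 : ℝ) ^ (11 / 9 : ℝ) ≤ 2 ^ (2 : ℝ) :=
                  Real.rpow_le_rpow_of_exponent_le (by norm_num) (by norm_num)
                _ = 4 := by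
                  rw [show (2 : ℝ) = ((2 : ℕ) : ℝ) by norm_num, Real.rpow_natCast]; norm_num
            · rw [← Real.rpow_mul hxpos.le]
              apply Real.rpow_le_rpow_of_exponent_le hx1.le
              norm_num
            · exact Real.rpow_nonneg hxa.le _
            · norm_num
          calc ((B x J).card : ℝ) ≤ CJ J * (2 * x ^ (1 - 183 / 1000 : ℝ)) ^ (11 / 9 : ℝ) := h5
            _ ≤ CJ J * (4 * x ^ (4993 / 5000 : ℝ)) := mul_le_mul_of_nonneg_left h6 (hCJ0 J).le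
            _ = 4 * CJ J * x ^ (4993 / 5000 : ℝ) := by ring
        · have : B x J = ∅ := by
            rw [hB]
            apply Finset.filter_eq_empty_iff.2
            intro p _ h
            exact hJ ⟨h.1, h.2.1⟩
          rw [this, Finset.card_empty, Nat.cast_zero]
          have := (hCJ0 J).le
          positivity
      have h3 : ((ns x ∪ (Finset.univ : Finset (Finset I)).biUnion (B x)).card : ℝ) ≤
          (ns x).card + ∑ J : Finset I, ((B x J).card : ℝ) := by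
        have h4 : (ns x ∪ (Finset.univ : Finset (Finset I)).biUnion (B x)).card ≤
            (ns x).card + ∑ J : Finset I, (B x J).card :=
          (Finset.card_union_le _ _).trans (Nat.add_le_add_left Finset.card_biUnion_le _)
        exact_mod_cast h4
      refine h3.trans ?_
      rw [hK, add_mul, Finset.sum_mul]
      exact add_le_add h1 (Finset.sum_le_sum fun J _ => h2 J))
    (by
      intro x hx p hpp hple hpx hpu hpr
      obtain ⟨hx2, hxD, hx4⟩ := hX1 x hx
      have hx1 : 1 < x := by linarith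
      have hxpos : 0 < x := by linarith
      have hprange : p ∈ Finset.range (⌊x⌋₊ + 1) := by
        rw [Finset.mem_range, Nat.lt_succ_iff, Nat.le_floor_iff hxpos.le]
        exact hple
      by_cases hnsq : ∃ r : ℕ, x ^ (183 / 1000 : ℝ) < (r : ℝ) ∧ r ^ 2 ∣ p + 1
      · left
        apply Finset.mem_union_left
        rw [hns]
        exact Finset.mem_filter.2 ⟨hprange, hnsq⟩
      have hsq : ∀ r : ℕ, r.Prime → r ∣ p + 1 → r = 2 ∨ ¬ r ^ 2 ∣ p + 1 := by
        intro r hr hrd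
        rcases hpr r hr hrd with h | h
        · exact Or.inl h
        · exact Or.inr fun h' => hnsq ⟨r, h, h'⟩
      have h4 : p % 4 = 3 := by
        have : p ≡ u [MOD 4] := hpu.of_dvd h4v
        rw [Nat.ModEq] at this
        omega
      have hpD : ¬ p ∣ D0 := by
        intro h
        have := Nat.le_of_dvd hD0pos h
        have h5 : (p : ℝ) ≤ D0 := by exact_mod_cast this
        have h6 : (0 : ℝ) ≤ p0 := Nat.cast_nonneg _
        linarith
      have hp0 : p0 < p := by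
        have h6 : (0 : ℝ) ≤ D0 := Nat.cast_nonneg _
        have h7 : (p0 : ℝ) < p := by linarith
        exact_mod_cast h7
      have hdX : ∀ i, ¬ p ∣ (X i).den := fun i h => hpD (by
        rw [hD0]
        exact (h.mul_right _).trans
          (Finset.dvd_prod_of_mem (fun i => (X i).den * (Y i).den) (Finset.mem_univ i)))
      have hdY : ∀ i, ¬ p ∣ (Y i).den := fun i h => hpD (by
        rw [hD0]
        exact (h.mul_left _).trans
          (Finset.dvd_prod_of_mem (fun i => (X i).den * (Y i).den) (Finset.mem_univ i)))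
      obtain ⟨cl, hcl⟩ := cover5 hG a P X Y hXY (by linarith) T hpp hple h4 hdX hdY
        (hpat p hpp hp0 hpu) hpr hsq
      obtain ⟨N, hN⟩ : ∃ N : Finset I, N = T.filter (fun i => ¬ Primitive (a i) (P i) p) :=
        ⟨_, rfl⟩
      have hNmem : ∀ i ∈ N, i ∈ T ∧ ¬ Primitive (a i) (P i) p := by
        intro i hi
        rw [hN] at hi
        exact Finset.mem_filter.1 hi
      by_cases hgood : ∀ J : Finset I, J ⊆ N → J.card = 9 →
          Indep (fun i : J => a i) (fun i : J => P i) → ∃ i ∈ J, ∃ i' ∈ J, cl i ≠ cl i'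
      · right
        refine ⟨⟨⟨cl, N⟩, fun i hi => (hNmem i hi).1, hgood⟩, ?_⟩
        intro i hiT hiN
        by_contra hcon
        apply hiN
        have hiN' : i ∈ N := by
          rw [hN]
          exact Finset.mem_filter.2 ⟨hiT, hcon⟩
        exact hiN'
      · left
        push Not at hgood
        obtain ⟨J, hJ1, hJ2, hJ3, hJ4⟩ := hgood
        apply Finset.mem_union_right
        rw [Finset.mem_biUnion]
        refine ⟨J, Finset.mem_univ _, ?_⟩
        rw [hB]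
        refine Finset.mem_filter.2 ⟨hprange, hJ2, hJ3, ?_⟩
        apply hcl J
        · rw [← Finset.card_pos, hJ2]
          norm_num
        · exact fun i hi => (hNmem i (hJ1 hi)).1
        · exact fun i hi => (hNmem i (hJ1 hi)).2
        · exact fun i hi i' hi' => hJ4 i hi i' hi')
  refine ⟨cl, N, hN1, hN2, c, hc, fun z0 => ?_⟩
  obtain ⟨z, hz1, hz2⟩ := hcz z0
  exact ⟨z, hz1, hz2⟩

end Pool.Agent.Helper63.LT2
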