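import Pool.Agent.Helper10.SSCurve

/-!
# Project LT2: the square class of the `x`-coordinate
-/

set_option autoImplicit false

namespace Pool.Agent.Helper63.LT2

open WeierstrassCurve Pool.Agent.Helper10.SS

/-- The `x`-coordinate of `P` is `ξ` times a nonzero square. -/
def InClass (a : ℤ) (ξ : ℚ) (P : (EF (a : ℚ) 0).Point) : Prop :=
  ∃ x y s : ℚ, AtF P x y ∧ s ≠ 0 ∧ x = ξ * s ^ 2

variable {a : ℤ}

/-- the product of the `x`-coordinates of three points on a line is a square -/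
theorem three_points {P R : (EF (a : ℚ) 0).Point} {x₁ y₁ x₂ y₂ x₃ y₃ : ℚ} (h₁ : AtF P x₁ y₁)
    (h₂ : AtF R x₂ y₂) (h₃ : AtF (P + R) x₃ y₃) : ∃ ν : ℚ, x₁ * x₂ * x₃ = ν ^ 2 := by
  have e1 := h₁.eqn
  have e2 := h₂.eqn
  by_cases hx : x₁ = x₂
  · subst hx
    have h3 : (y₁ - y₂) * (y₁ + y₂) = 0 := by linear_combination e1 - e2
    rcases mul_eq_zero.1 h3 with h4 | h4
    · have h5 : y₂ = y₁ := by linarith
      subst h5
      have hPR : P = R := h₁.eq h₂
      subst hPR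
      by_cases hy : y₂ = 0
      · exfalso
        apply h₃.ne_zero
        apply AtF.add_neg h₁
        have h6 : -y₂ = y₂ := by rw [hy, neg_zero]
        rw [h6]
        exact h₁
      · have h6 := h₁.dbl (mul_ne_zero two_ne_zero hy)
        obtain ⟨h7, -⟩ := h₃.unique h6
        refine ⟨y₂ - (3 * x₁ ^ 2 + a) / (2 * y₂) * x₁, ?_⟩
        rw [h7]
        field_simp
        linear_combination (-4 : ℚ) * y₂ ^ 2 * e1
    · exfalso
      apply h₃.ne_zero
      apply AtF.add_neg h₁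
      have : y₂ = -y₁ := by linarith
      rw [this] at h₂
      exact h₂
  · have h6 := h₁.add h₂ hx
    obtain ⟨h7, -⟩ := h₃.unique h6
    have h8 : x₁ - x₂ ≠ 0 := sub_ne_zero.2 hx
    refine ⟨y₁ - (y₁ - y₂) / (x₁ - x₂) * x₁, ?_⟩
    rw [h7]
    field_simp
    linear_combination ((x₁ - x₂) * x₂) * e1 - ((x₁ - x₂) * x₁) * e2

/-- adding twice a point does not change the square class of the `x`-coordinate -/
theorem inClass_add_two {ξ : ℚ} (h1 : ∀ r : ℚ, ξ ≠ r ^ 2) (h2 : ∀ r : ℚ, a * ξ ≠ r ^ 2)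
    {P : (EF (a : ℚ) 0).Point} (hP : InClass a ξ P) (R : (EF (a : ℚ) 0).Point) :
    InClass a ξ (P + (R + R)) := by
  obtain ⟨x₁, y₁, s, hA, hs, hx₁⟩ := hP
  have hξ : ξ ≠ 0 := fun h => h1 0 (by rw [h]; norm_num)
  have hx₁0 : x₁ ≠ 0 := by
    rw [hx₁]
    exact mul_ne_zero hξ (pow_ne_zero _ hs)
  have hP' : InClass a ξ P := ⟨x₁, y₁, s, hA, hs, hx₁⟩
  rcases zero_orF R with rfl | ⟨x₂, y₂, hR⟩
  · rw [add_zero, add_zero]
    exact hP'
  have eR := hR.eqn
  by_cases hy₂ : y₂ = 0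
  · have : R + R = 0 := by
      apply AtF.add_neg hR
      have h6 : -y₂ = y₂ := by rw [hy₂, neg_zero]
      rw [h6]
      exact hR
    rw [this, add_zero]
    exact hP'
  have hD := hR.dbl (mul_ne_zero two_ne_zero hy₂)
  obtain ⟨D, hDd⟩ : ∃ D, D = R + R := ⟨_, rfl⟩
  obtain ⟨x₄, hx₄⟩ : ∃ x₄ : ℚ, x₄ = ((3 * x₂ ^ 2 + a) / (2 * y₂)) ^ 2 - x₂ - x₂ := ⟨_, rfl⟩
  rw [← hDd, ← hx₄] at hD
  obtain ⟨y₄, hD⟩ : ∃ y₄, AtF D x₄ y₄ := ⟨_, hD⟩
  rw [← hDd]
  have hμ : x₄ = ((x₂ ^ 2 - a) / (2 * y₂)) ^ 2 := by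
    rw [hx₄]
    field_simp
    linear_combination (-8 : ℚ) * x₂ * eR
  have eD := hD.eqn
  have eA := hA.eqn
  by_cases hx₄0 : x₄ = 0
  · -- `2 R = (0, 0)`
    have ha : (a : ℚ) = x₂ ^ 2 := by
      rw [hx₄0] at hμ
      have h3 : (x₂ ^ 2 - a) / (2 * y₂) = 0 := by
        have := hμ.symm
        exact pow_eq_zero_iff (two_ne_zero) |>.1 this
      rw [div_eq_zero_iff] at h3
      rcases h3 with h3 | h3
      · linarith
      · exact absurd h3 (mul_ne_zero two_ne_zero hy₂)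
    have hy₄ : y₄ = 0 := by
      rw [hx₄0] at eD
      have : y₄ ^ 2 = 0 := by rw [eD]; ring
      exact pow_eq_zero_iff (two_ne_zero) |>.1 this
    have hx₂0 : x₂ ≠ 0 := by
      intro h
      rw [h] at eR
      have : y₂ ^ 2 = 0 := by rw [eR]; ring
      exact hy₂ (pow_eq_zero_iff (two_ne_zero) |>.1 this)
    have h5 := hA.add hD (by rw [hx₄0]; exact hx₁0)
    refine ⟨_, _, x₂ / (ξ * s), h5, div_ne_zero hx₂0 (mul_ne_zero hξ hs), ?_⟩
    rw [hx₄0, hy₄, sub_zero, sub_zero, sub_zero]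
    have h6 : (y₁ / x₁) ^ 2 - x₁ = a / x₁ := by
      field_simp
      linear_combination eA
    rw [h6, ha, hx₁]
    field_simp
  · have hμ0 : (x₂ ^ 2 - a) / (2 * y₂) ≠ 0 := by
      intro h
      rw [h] at hμ
      exact hx₄0 (by rw [hμ]; ring)
    obtain ⟨μ, hμd⟩ : ∃ μ : ℚ, μ = (x₂ ^ 2 - a) / (2 * y₂) := ⟨_, rfl⟩
    rw [← hμd] at hμ hμ0
    rcases zero_orF (P + D) with h0 | ⟨x₃, y₃, h₃⟩
    · exfalso
      have h5 : D = -P := by
        rw [← add_eq_zero_iff_neg_eq.1 h0]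
      rw [h5] at hD
      obtain ⟨h6, -⟩ := hD.unique hA.neg
      apply h1 (μ / s)
      rw [hμ, hx₁] at h6
      field_simp
      linarith
    · obtain ⟨ν, hν⟩ := three_points hA hD h₃
      by_cases hx₃ : x₃ = 0
      · exfalso
        have e3 := h₃.eqn
        have hy₃ : y₃ = 0 := by
          rw [hx₃] at e3
          have : y₃ ^ 2 = 0 := by rw [e3]; ring
          exact pow_eq_zero_iff (two_ne_zero) |>.1 this
        have h5 := h₃.add hD.neg (by rw [hx₃]; exact Ne.symm hx₄0)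
        rw [add_neg_cancel_right] at h5
        obtain ⟨h6, -⟩ := hA.unique h5
        rw [hx₃, hy₃] at h6
        have h7 : x₁ = a / x₄ := by
          have h8 : ((0 - -y₄) / (0 - x₄)) ^ 2 - 0 - x₄ = y₄ ^ 2 / x₄ ^ 2 - x₄ := by
            rw [sub_neg_eq_add, zero_add, zero_sub, sub_zero, div_neg, neg_sq, div_pow]
          rw [h6, h8, eD]
          field_simp
          ring
        apply h2 (ξ * s * μ)
        rw [hμ, hx₁] at h7
        field_simp at h7
        linear_combination -ξ * h7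
      · have hν0 : ν ≠ 0 := by
          intro h
          rw [h] at hν
          have : x₁ * x₄ * x₃ = 0 := by rw [hν]; ring
          rcases mul_eq_zero.1 this with h8 | h8
          · rcases mul_eq_zero.1 h8 with h9 | h9
            · exact hx₁0 h9
            · exact hx₄0 h9
          · exact hx₃ h8
        refine ⟨x₃, y₃, ν / (ξ * s * μ), h₃,
          div_ne_zero hν0 (mul_ne_zero (mul_ne_zero hξ hs) hμ0), ?_⟩
        have h8 : x₃ = ν ^ 2 / (x₁ * x₄) := by
          rw [← hν]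
          field_simp
        rw [h8, hx₁, hμ]
        field_simp

end Pool.Agent.Helper63.LT2
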