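import Pool.Agent.Helper63.LT2.Core
import Pool.Agent.Helper63.LT2.Sq
import Pool.Agent.Helper63.LT2.Box
import Pool.Agent.Helper63.LT.Adm

/-!
# Project LT2: the points of one curve which are not good
-/

set_option autoImplicit false

open Finset Filter Topology

namespace Pool.Agent.Helper63.LT2

open WeierstrassCurve Pool.Agent.Helper10.SS Pool.Agent.Helper63.LT

/-- None of `ξ`, `a ξ` is of the form `r ^ 2` or `-3 r ^ 2`. -/
def ClassOK (a : ℤ) (ξ : ℚ) : Prop :=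
  ∀ r : ℚ, (ξ ≠ r ^ 2 ∧ ξ ≠ -3 * r ^ 2) ∧ a * ξ ≠ r ^ 2 ∧ a * ξ ≠ -3 * r ^ 2

/-- Neither `-a` nor `3 a` is a square. -/
def CurveOK (a : ℤ) : Prop := ∀ r : ℚ, (-a : ℚ) ≠ r ^ 2 ∧ (-a : ℚ) ≠ -3 * r ^ 2

/-- a residue class for a square class -/
theorem pattern_one (hP : PatternInt) {a : ℤ} {ξ : ℚ} (ha : CurveOK a) (hξ : ClassOK a ξ) :
    ∃ v u : ℕ, 0 < v ∧ u.Coprime v ∧ 4 ∣ v ∧ u % 4 = 3 ∧
      (∀ r : ℕ, r.Prime → r ≠ 2 → r ∣ v → ¬ r ∣ u + 1) ∧
      ∀ p : ℕ, p.Prime → p ≡ u [MOD v] → ¬ IsSquare ((-a : ℤ) : ZMod p) ∧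
        ¬ IsSquare ((ξ.num * ξ.den : ℤ) : ZMod p) := by
  have hd : ((ξ.den : ℕ) : ℚ) ≠ 0 := by exact_mod_cast ξ.den_ne_zero
  have hx : ξ * ξ.den = ξ.num := Rat.mul_den_eq_num ξ
  obtain ⟨v, u, hv, huv, h4v, hu4, hru, T, hTc, hpat⟩ := hP Unit (fun _ => -a)
    (fun _ => ξ.num * ξ.den) (by
      intro i
      refine ⟨?_, ?_, ?_, ?_, ?_, ?_⟩
      · rintro ⟨s, hs⟩
        apply (ha s).1
        have : ((-a : ℤ) : ℚ) = ((s * s : ℤ) : ℚ) := by exact_mod_cast hs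
        push_cast at this
        rw [this]; ring
      · rintro ⟨s, hs⟩
        apply (ha (s / 3)).2
        have : ((-3 * -a : ℤ) : ℚ) = ((s * s : ℤ) : ℚ) := by exact_mod_cast hs
        push_cast at this
        linear_combination (-1 / 3 : ℚ) * this
      · rintro ⟨s, hs⟩
        apply (hξ (s / ξ.den)).1.1
        have h3 : ((ξ.num : ℤ) : ℚ) * ξ.den = s * s := by exact_mod_cast hs
        rw [div_pow, eq_div_iff (pow_ne_zero _ hd)]
        rw [← hx] at h3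
        linear_combination h3
      · rintro ⟨s, hs⟩
        apply (hξ (s / (3 * ξ.den))).1.2
        have h3 : (-3 : ℚ) * (((ξ.num : ℤ) : ℚ) * ξ.den) = s * s := by exact_mod_cast hs
        rw [← hx] at h3
        field_simp
        linear_combination (-1 : ℚ) * h3
      · rintro ⟨s, hs⟩
        apply (hξ (s / ξ.den)).2.1
        have h3 : -(-(a : ℚ) * (((ξ.num : ℤ) : ℚ) * ξ.den)) = s * s := by
          exact_mod_cast hs
        rw [div_pow, eq_div_iff (pow_ne_zero _ hd)]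
        rw [← hx] at h3
        linear_combination h3
      · rintro ⟨s, hs⟩
        apply (hξ (s / (3 * ξ.den))).2.2
        have h3 : (3 : ℚ) * (-(a : ℚ) * (((ξ.num : ℤ) : ℚ) * ξ.den)) = s * s := by
          exact_mod_cast hs
        rw [← hx] at h3
        field_simp
        linear_combination (-1 : ℚ) * h3)
  refine ⟨v, u, hv, huv, h4v, hu4, hru, fun p hp hpu => ?_⟩
  have hT : T.Nonempty := by
    rw [← Finset.card_pos]
    have : Fintype.card Unit = 1 := rfl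
    omega
  obtain ⟨i, hi⟩ := hT
  exact hpat p hp hpu i hi

/-- the coordinates of the points of a class are no squares modulo large primes -/
theorem class_not_square {ξ X s : ℚ} (hξ : ξ ≠ 0) (hs : s ≠ 0) (hX : X = ξ * s ^ 2) :
    ∃ p0 : ℕ, ∀ p : ℕ, p.Prime → p0 < p → ¬ IsSquare ((ξ.num * ξ.den : ℤ) : ZMod p) →
      ¬ IsSquare ((X.num * X.den : ℤ) : ZMod p) := by
  have hd : ((ξ.den : ℕ) : ℚ) ≠ 0 := by exact_mod_cast ξ.den_ne_zero
  have hx : ξ * ξ.den = ξ.num := Rat.mul_den_eq_num ξ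
  have hdX : ((X.den : ℕ) : ℚ) ≠ 0 := by exact_mod_cast X.den_ne_zero
  have hxX : X * X.den = X.num := Rat.mul_den_eq_num X
  obtain ⟨w, hw⟩ : ∃ w : ℚ, w = s * X.den / ξ.den := ⟨_, rfl⟩
  have hw0 : w ≠ 0 := by
    rw [hw]
    exact div_ne_zero (mul_ne_zero hs hdX) hd
  have hdw : ((w.den : ℕ) : ℚ) ≠ 0 := by exact_mod_cast w.den_ne_zero
  have hxw : w * w.den = w.num := Rat.mul_den_eq_num w
  have hwn : w.num ≠ 0 := Rat.num_ne_zero.2 hw0
  have key : (X.num * X.den : ℤ) * (w.den : ℤ) ^ 2 = (ξ.num * ξ.den : ℤ) * w.num ^ 2 := by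
    have : (X.num : ℚ) * X.den * (w.den : ℚ) ^ 2 = ξ.num * ξ.den * (w.num : ℚ) ^ 2 := by
      rw [← hxX, ← hx, ← hxw, hw, hX]
      field_simp
    exact_mod_cast this
  refine ⟨w.num.natAbs, fun p hp hp0 hns => ?_⟩
  have : Fact p.Prime := ⟨hp⟩
  rintro ⟨t, ht⟩
  apply hns
  have hwp : ((w.num : ℤ) : ZMod p) ≠ 0 := by
    intro h
    rw [ZMod.intCast_zmod_eq_zero_iff_dvd] at h
    have h1 := Int.natAbs_dvd_natAbs.2 h
    rw [Int.natAbs_natCast] at h1
    have h2 := Nat.le_of_dvd (Int.natAbs_pos.2 hwn) h1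
    omega
  refine ⟨t * w.den / w.num, ?_⟩
  have h1 := congrArg (fun z : ℤ => (z : ZMod p)) key
  simp only [Int.cast_mul, Int.cast_pow, Int.cast_natCast] at h1 ht ⊢
  rw [ht] at h1
  field_simp
  linear_combination -h1

/-- finite sets of points in one class -/
theorem finite_cov (hM : MainM) (hPat : PatternInt) {a : ℤ} {ξ : ℚ} (ha : CurveOK a)
    (hξ : ClassOK a ξ) (F : Finset (EF (a : ℚ) 0).Point) (hF : ∀ P ∈ F, InClass a ξ P) :
    ∃ (cl : (EF (a : ℚ) 0).Point → Fin 5) (N : Finset (EF (a : ℚ) 0).Point), N ⊆ F ∧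
      (∀ v : Fin (8 + 1) → (EF (a : ℚ) 0).Point, (∀ i, v i ∈ N) →
        (∀ i j, cl (v i) = cl (v j)) → ¬ LinearIndependent ℤ v) ∧
      ∃ c : ℝ, 0 < c ∧ ∀ z0 : ℝ, ∃ z : ℝ, z0 ≤ z ∧ c * z / Real.log z ^ 2 ≤
        ({p : ℕ | p.Prime ∧ (p : ℝ) ≤ z ∧ ∀ P ∈ F, P ∉ N → Primitive a P p}.ncard : ℝ) := by
  classical
  obtain ⟨v, u, hv, huv, h4v, hu4, hru, hpat⟩ := pattern_one hPat ha hξ
  have ha0 : a ≠ 0 := by
    rintro rfl
    apply (ha 0).1
    norm_num
  have hξ0 : ξ ≠ 0 := by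
    rintro rfl
    apply (hξ 0).1.1
    norm_num
  have hF' : ∀ i : F, ∃ x y s : ℚ, AtF (i : (EF (a : ℚ) 0).Point) x y ∧ s ≠ 0 ∧
      x = ξ * s ^ 2 := fun i => hF i i.2
  choose X Y s hXY hs hX using hF'
  choose pf hpf using fun i => class_not_square hξ0 (hs i) (hX i)
  obtain ⟨p0, hp0⟩ : ∃ p0 : ℕ, ∀ i, pf i ≤ p0 :=
    ⟨∑ i, pf i, fun i => Finset.single_le_sum (f := pf) (fun _ _ => Nat.zero_le _)
      (Finset.mem_univ i)⟩
  obtain ⟨cl, N, -, hN, c, hc, hcz⟩ := hM F (fun _ => a) (fun i => i) X Y hXY (fun _ => ha0) v u hv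
    huv h4v hu4 hru Finset.univ p0 (by
      intro p hp hpp hpu i _
      obtain ⟨h1, h2⟩ := hpat p hp hpu
      exact ⟨h1, hpf i p hp (lt_of_le_of_lt (hp0 i) hpp) h2⟩)
  refine ⟨fun P => if h : P ∈ F then cl ⟨P, h⟩ else 0, N.map (Function.Embedding.subtype _), ?_, ?_,
    c, hc, ?_⟩
  · intro P hP
    obtain ⟨i, -, rfl⟩ := Finset.mem_map.1 hP
    exact i.2
  · intro w hw hwcl hli
    have hwF : ∀ i, ∃ h : w i ∈ F, (⟨w i, h⟩ : F) ∈ N := by
      intro i
      obtain ⟨j, hj, hj2⟩ := Finset.mem_map.1 (hw i)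
      have hj2' : (j : (EF (a : ℚ) 0).Point) = w i := hj2
      have h3 : w i ∈ F := by rw [← hj2']; exact j.2
      refine ⟨h3, ?_⟩
      have h4 : j = ⟨w i, h3⟩ := Subtype.ext hj2'
      rw [← h4]
      exact hj
    choose hwF1 hwF2 using hwF
    have hinj : Function.Injective (fun i => (⟨w i, hwF1 i⟩ : F)) := by
      intro i j hij
      exact hli.injective (congrArg Subtype.val hij)
    obtain ⟨J, hJ⟩ : ∃ J : Finset F, J = Finset.univ.image (fun i => (⟨w i, hwF1 i⟩ : F)) :=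
      ⟨_, rfl⟩
    have hJmem : ∀ i : F, i ∈ J → ∃ j, (⟨w j, hwF1 j⟩ : F) = i := by
      intro i hi
      rw [hJ, Finset.mem_image] at hi
      obtain ⟨j, -, hj⟩ := hi
      exact ⟨j, hj⟩
    obtain ⟨i, hi, i', hi', hne⟩ := hN J (by
      intro i hi
      obtain ⟨j, rfl⟩ := hJmem i hi
      exact hwF2 j) (by
      rw [hJ, Finset.card_image_of_injective _ hinj, Finset.card_univ, Fintype.card_fin]) (by
      refine ⟨fun i j hij => absurd rfl hij, ?_⟩
      intro d S hS n hn hsum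
      by_cases hd : a = d
      · subst hd
        have hSP : ∀ i : J, S i = ((i : F) : (EF (a : ℚ) 0).Point) := by
          intro i
          obtain ⟨x, y, hx, hy⟩ := hS i rfl
          exact AtF.eq hy hx
        choose jf hjf using fun i : J => hJmem i i.2
        have hjfinj : Function.Injective jf := by
          intro i i' h
          apply Subtype.ext
          rw [← hjf i, ← hjf i', h]
        have h5 : LinearIndependent ℤ (fun i : J => w (jf i)) := hli.comp jf hjfinj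
        rw [Fintype.linearIndependent_iff] at h5
        apply h5 n
        rw [← hsum]
        refine Finset.sum_congr rfl fun i _ => ?_
        rw [hSP i, ← hjf i]
      · intro i
        by_contra h
        exact hd (hn i h))
    obtain ⟨j, rfl⟩ := hJmem i hi
    obtain ⟨j', rfl⟩ := hJmem i' hi'
    have h6 := hwcl j j'
    simp only at h6
    rw [dif_pos (hwF1 j), dif_pos (hwF1 j')] at h6
    exact hne h6
  · intro z0
    obtain ⟨z, hz1, hz2⟩ := hcz z0
    refine ⟨z, hz1, hz2.trans ?_⟩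
    have hfin : {p : ℕ | p.Prime ∧ (p : ℝ) ≤ z ∧
        ∀ P ∈ F, P ∉ N.map (Function.Embedding.subtype _) → Primitive a P p}.Finite := by
      apply (Set.finite_Iic (⌊z⌋₊)).subset
      rintro p ⟨-, hp, -⟩
      exact Nat.le_floor hp
    norm_cast
    apply Set.ncard_le_ncard _ hfin
    rintro p ⟨hp1, hp2, hp3⟩
    refine ⟨hp1, hp2, fun P hP hPN => ?_⟩
    apply hp3 ⟨P, hP⟩ (Finset.mem_univ _)
    intro h
    apply hPN
    exact Finset.mem_map.2 ⟨⟨P, hP⟩, h, rfl⟩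

theorem good_of {a : ℤ} {F N : Finset (EF (a : ℚ) 0).Point} {c : ℝ} (hc : 0 < c)
    (h : ∀ z0 : ℝ, ∃ z : ℝ, z0 ≤ z ∧ c * z / Real.log z ^ 2 ≤
        ({p : ℕ | p.Prime ∧ (p : ℝ) ≤ z ∧ ∀ P ∈ F, P ∉ N → Primitive a P p}.ncard : ℝ))
    {P : (EF (a : ℚ) 0).Point} (hP : P ∈ F) (hPN : P ∉ N) : Good a P := by
  refine ⟨c, hc, fun z0 => ?_⟩
  obtain ⟨z, hz1, hz2⟩ := h z0
  refine ⟨z, hz1, hz2.trans ?_⟩
  have hfin : {p : ℕ | (p : ℝ) ≤ z ∧ Primitive a P p}.Finite := by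
    apply (Set.finite_Iic (⌊z⌋₊)).subset
    rintro p ⟨hp, -⟩
    exact Nat.le_floor hp
  norm_cast
  apply Set.ncard_le_ncard _ hfin
  rintro p ⟨-, hp1, hp2⟩
  exact ⟨hp1, hp2 P hP hPN⟩

/-- the points of one class which are not good lie in five subgroups of rank at most `8` -/
theorem class_cov (hM : MainM) (hPat : PatternInt) {a : ℤ} {ξ : ℚ} (ha : CurveOK a)
    (hξ : ClassOK a ξ) : ∃ H : Fin 5 → AddSubgroup (EF (a : ℚ) 0).Point,
      (∀ j, RankLe 8 (H j)) ∧ ∀ P, InClass a ξ P → ¬ Good a P → ∃ j, P ∈ H j := by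
  classical
  obtain ⟨B, hB⟩ : ∃ B : Set (EF (a : ℚ) 0).Point, B = {P | InClass a ξ P ∧ ¬ Good a P} :=
    ⟨_, rfl⟩
  have key : ∀ s : Finset B, ∃ cl : B → Fin 5, ∀ w : Fin (8 + 1) → B, (∀ i, w i ∈ s) →
      (∀ i j, cl (w i) = cl (w j)) →
      ¬ LinearIndependent ℤ (fun i => ((w i : B) : (EF (a : ℚ) 0).Point)) := by
    intro s
    have hs : ∀ P ∈ s.map (Function.Embedding.subtype _), P ∈ B := by
      intro P hP
      obtain ⟨i, -, rfl⟩ := Finset.mem_map.1 hP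
      exact i.2
    obtain ⟨cl, N, hN1, hN2, c, hc, hcz⟩ := finite_cov hM hPat ha hξ
      (s.map (Function.Embedding.subtype _)) (by
        intro P hP
        have := hs P hP
        rw [hB] at this
        exact this.1)
    refine ⟨fun P => cl P, fun w hw hwcl => ?_⟩
    apply hN2 (fun i => w i) _ hwcl
    intro i
    by_contra hcon
    have h1 : ((w i : B) : (EF (a : ℚ) 0).Point) ∈ s.map (Function.Embedding.subtype _) :=
      Finset.mem_map.2 ⟨w i, hw i, rfl⟩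
    have h2 : ∀ P ∈ B, InClass a ξ P ∧ ¬ Good a P := by
      intro P hP
      rw [hB] at hP
      exact hP
    exact (h2 _ (w i).2).2 (good_of hc hcz h1 hcon)
  choose g hg using key
  obtain ⟨χ, hχ⟩ := Finset.rado_selection (α := B) (β := fun _ => Fin 5) g
  obtain ⟨X, hX⟩ : ∃ X : Fin 5 → Set (EF (a : ℚ) 0).Point,
      X = fun j => {P | ∃ h : P ∈ B, χ ⟨P, h⟩ = j} := ⟨_, rfl⟩
  refine ⟨fun j => AddSubgroup.closure (X j), fun j => ?_, fun P hP1 hP2 => ?_⟩
  · apply rankLe_closure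
    intro w hw hli
    rw [hX] at hw
    choose hwB hwj using hw
    obtain ⟨w', hw'⟩ : ∃ w' : Fin (8 + 1) → B, w' = fun i => ⟨w i, hwB i⟩ := ⟨_, rfl⟩
    obtain ⟨t, hst, ht⟩ := hχ (Finset.univ.image w')
    apply hg t w'
    · intro i
      exact hst (Finset.mem_image_of_mem _ (Finset.mem_univ i))
    · intro i i'
      have h1 : ∀ i, g t (w' i) = j := by
        intro i
        rw [← ht (w' i) (Finset.mem_image_of_mem _ (Finset.mem_univ i)), hw']
        exact hwj i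
      rw [h1, h1]
    · rw [hw']
      exact hli
  · have hPB : P ∈ B := by
      rw [hB]
      exact ⟨hP1, hP2⟩
    refine ⟨χ ⟨P, hPB⟩, AddSubgroup.subset_closure ?_⟩
    rw [hX]
    exact ⟨hPB, rfl⟩

end Pool.Agent.Helper63.LT2
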