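import Mathlib

/-!
# Project LT2: definition of the rank used in the final statement
-/

set_option autoImplicit false

namespace Pool.Agent.Helper63.LT2

/-- The subgroup has rank at most `r`: any `r + 1` elements are linearly dependent. -/
def RankLe {G : Type} [AddCommGroup G] (r : ℕ) (H : AddSubgroup G) : Prop :=
  ∀ v : Fin (r + 1) → G, (∀ i, v i ∈ H) → ¬ LinearIndependent ℤ v

end Pool.Agent.Helper63.LT2
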