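import Pool.Agent.Helper63.LT2.Mert
import Pool.Agent.Helper18.CA.St
import Pool.Agent.Helper18.BV.SpecialPrimes

/-!
# Project LT2: the error terms of the lower bound sieve
-/

set_option autoImplicit false

open Finset Filter Topology
open scoped ArithmeticFunction.vonMangoldt

namespace Pool.Agent.Helper63.LT2

open Pool.Agent.Helper18.BV Pool.Agent.Helper18.CA

/-- the trivial bound -/
theorem triv_bound {g : ℝ → ℝ} (hg : IsWt g) (hg1 : ∀ y, g y ≤ 1) {ε : ℝ}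
    (hgε : ∀ v, v ≤ 1 - ε → g v = 0) {x : ℝ} (hx : 3 ≤ x) {m : ℕ} (hm : 0 < m)
    (hmx : (m : ℝ) ≤ x ^ (1 - ε)) (c : ℕ) :
    ∑ n ∈ (Icc 1 ⌊x⌋₊).filter (fun n => n ≡ c [MOD m]), Λ n * wt g x n ≤
      2 * Real.log x ^ 2 / m := by
  classical
  have hx0 : 0 < x := by linarith
  have hlog1 : 1 ≤ Real.log x := by
    rw [Real.le_log_iff_exp_le hx0]
    have := Real.exp_one_lt_d9
    linarith
  have hlog : 0 < Real.log x := by linarith
  have hm0 : (0 : ℝ) < m := by exact_mod_cast hm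
  obtain ⟨F, hF⟩ : ∃ F : Finset ℕ, F = (Icc 1 ⌊x⌋₊).filter (fun n => n ≡ c [MOD m] ∧ m ≤ n) :=
    ⟨_, rfl⟩
  have h1 : ∑ n ∈ (Icc 1 ⌊x⌋₊).filter (fun n => n ≡ c [MOD m]), Λ n * wt g x n =
      ∑ n ∈ F, Λ n * wt g x n := by
    symm
    apply Finset.sum_subset
    · intro n hn
      rw [hF, Finset.mem_filter] at hn
      exact Finset.mem_filter.2 ⟨hn.1, hn.2.1⟩
    · intro n hn hn'
      obtain ⟨hn1, hn2⟩ := Finset.mem_filter.1 hn
      have hn0 : 1 ≤ n := (Finset.mem_Icc.1 hn1).1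
      have hlt : n < m := by
        by_contra h
        exact hn' (by rw [hF]; exact Finset.mem_filter.2 ⟨hn1, hn2, not_lt.1 h⟩)
      have hn0' : (0 : ℝ) < n := by exact_mod_cast hn0
      have h2 : Real.log n ≤ (1 - ε) * Real.log x := by
        rw [← Real.log_rpow hx0]
        apply Real.log_le_log hn0'
        have : (n : ℝ) ≤ m := by exact_mod_cast hlt.le
        linarith
      have : g (Real.log n / Real.log x) = 0 := by
        apply hgε
        rw [div_le_iff₀ hlog]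
        exact h2
      rw [wt, this]
      simp
  rw [h1]
  have h2 : ∀ n ∈ F, Λ n * wt g x n ≤ Real.log x * (1 / (m * ((n / m : ℕ) : ℝ))) := by
    intro n hn
    rw [hF, Finset.mem_filter] at hn
    obtain ⟨hn1, hn2, hn3⟩ := hn
    have hn0 : 1 ≤ n := (Finset.mem_Icc.1 hn1).1
    have hn0' : (0 : ℝ) < n := by exact_mod_cast hn0
    have hnx : (n : ℝ) ≤ x := (Nat.le_floor_iff hx0.le).1 (Finset.mem_Icc.1 hn1).2
    have h3 : Λ n ≤ Real.log x :=
      ArithmeticFunction.vonMangoldt_le_log.trans (Real.log_le_log hn0' hnx)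
    have h4 : wt g x n ≤ 1 / n := by
      unfold wt
      exact div_le_div_of_nonneg_right (hg1 _) hn0'.le
    have h5 : 0 < n / m := Nat.div_pos hn3 hm
    have h6 : (1 : ℝ) / n ≤ 1 / (m * ((n / m : ℕ) : ℝ)) := by
      apply one_div_le_one_div_of_le
      · have : (0 : ℝ) < ((n / m : ℕ) : ℝ) := by exact_mod_cast h5
        positivity
      · exact_mod_cast Nat.mul_div_le n m
    exact mul_le_mul h3 (h4.trans h6) (wt_nonneg hg x n) hlog.le
  refine (Finset.sum_le_sum h2).trans ?_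
  rw [← Finset.mul_sum]
  have hinj : Set.InjOn (fun n => n / m) (F : Set ℕ) := by
    intro a ha b hb hab
    rw [hF, Finset.mem_coe, Finset.mem_filter] at ha hb
    have h3 : a ≡ b [MOD m] := ha.2.1.trans hb.2.1.symm
    rw [← Nat.div_add_mod a m, ← Nat.div_add_mod b m]
    have h4 : a % m = b % m := h3
    have h5 : a / m = b / m := hab
    rw [h4, h5]
  have h3 : ∑ n ∈ F, 1 / ((m : ℝ) * ((n / m : ℕ) : ℝ)) ≤ (1 + Real.log x) / m := by
    rw [← Finset.sum_image (f := fun j : ℕ => 1 / ((m : ℝ) * (j : ℝ))) hinj]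
    have h4 : F.image (fun n => n / m) ⊆ Icc 1 ⌊x⌋₊ := by
      intro j hj
      obtain ⟨n, hn, rfl⟩ := Finset.mem_image.1 hj
      rw [hF, Finset.mem_filter, Finset.mem_Icc] at hn
      rw [Finset.mem_Icc]
      exact ⟨Nat.div_pos hn.2.2 hm, (Nat.div_le_self _ _).trans hn.1.2⟩
    refine (Finset.sum_le_sum_of_subset_of_nonneg h4 (fun j _ _ => by positivity)).trans ?_
    have h5 : ∑ j ∈ Icc 1 ⌊x⌋₊, 1 / ((m : ℝ) * (j : ℝ)) =
        (∑ j ∈ Icc 1 ⌊x⌋₊, ((j : ℝ))⁻¹) / m := by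
      rw [Finset.sum_div]
      refine Finset.sum_congr rfl fun j _ => ?_
      rw [one_div, mul_inv]
      ring
    rw [h5]
    apply div_le_div_of_nonneg_right _ hm0.le
    have h6 := harmonic_floor_le_one_add_log x (by linarith)
    rw [harmonic_eq_sum_Icc] at h6
    push_cast at h6
    exact h6
  calc Real.log x * ∑ n ∈ F, 1 / ((m : ℝ) * ((n / m : ℕ) : ℝ))
      ≤ Real.log x * ((1 + Real.log x) / m) := mul_le_mul_of_nonneg_left h3 hlog.le
    _ ≤ 2 * Real.log x ^ 2 / m := by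
        rw [mul_div_assoc']
        apply div_le_div_of_nonneg_right _ hm0.le
        nlinarith

/-- the product over the primes -/
theorem prod_le (V : ℕ) (h2 : 2 ∣ V) (k : ℕ) : ∃ C : ℝ, 0 < C ∧ ∀ x : ℝ, 3 ≤ x →
    ∀ P : Finset ℕ, (∀ q ∈ P, q.Prime ∧ (q : ℝ) ≤ x ∧ ¬ q ∣ V) →
    ∑ I ∈ P.powerset, (k : ℝ) ^ I.card * ∏ q ∈ I, (1 / ((q : ℝ) - 1)) ≤
      C * Real.log x ^ k := by
  obtain ⟨C2, hC2, hgi⟩ := gc_interval V
  have hl2 : 0 < Real.log 2 := Real.log_pos (by norm_num)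
  refine ⟨(1 / Real.log 2) ^ k * Real.exp (k * (C2 / Real.log 2)), by positivity, ?_⟩
  intro x hx P hP
  have hlx : 0 < Real.log x := Real.log_pos (by linarith)
  have hgc : ∀ q ∈ P, gc V q = 1 / ((q : ℝ) - 1) := by
    intro q hq
    unfold gc
    rw [if_pos ⟨(hP q hq).1, (hP q hq).2.2⟩]
  have h3 : ∑ I ∈ P.powerset, (k : ℝ) ^ I.card * ∏ q ∈ I, (1 / ((q : ℝ) - 1)) =
      ∏ q ∈ P, (1 + k * gc V q) := by
    rw [Finset.prod_one_add]
    refine Finset.sum_congr rfl fun I hI => ?_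
    rw [Finset.mem_powerset] at hI
    rw [Finset.prod_mul_distrib, Finset.prod_const]
    congr 1
    exact Finset.prod_congr rfl fun q hq => (hgc q (hI hq)).symm
  have h4 : ∑ q ∈ P, gc V q ≤ Real.log (Real.log x / Real.log 2) + C2 / Real.log 2 := by
    refine le_trans ?_ (hgi 2 x le_rfl (by linarith))
    apply Finset.sum_le_sum_of_subset_of_nonneg
    · intro q hq
      obtain ⟨a1, a2, a3⟩ := hP q hq
      rw [Finset.mem_Ioc]
      refine ⟨?_, Nat.le_floor a2⟩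
      have h5 := a1.two_le
      have h6 : q ≠ 2 := by
        rintro rfl
        exact a3 h2
      have h7 : ⌊(2 : ℝ)⌋₊ = 2 := by
        have : (2 : ℝ) = ((2 : ℕ) : ℝ) := by norm_num
        rw [this, Nat.floor_natCast]
      rw [h7]
      omega
    · intro q _ _
      exact gc_nonneg V q
  rw [h3]
  calc ∏ q ∈ P, (1 + k * gc V q) ≤ ∏ q ∈ P, Real.exp (k * gc V q) := by
        apply Finset.prod_le_prod
        · intro q _
          have := gc_nonneg V q
          positivity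
        · intro q _
          have := Real.add_one_le_exp (k * gc V q)
          linarith
    _ = Real.exp (k * ∑ q ∈ P, gc V q) := by
        rw [← Real.exp_sum, Finset.mul_sum]
    _ ≤ Real.exp (k * (Real.log (Real.log x / Real.log 2) + C2 / Real.log 2)) := by
        apply Real.exp_le_exp.2
        exact mul_le_mul_of_nonneg_left h4 (Nat.cast_nonneg k)
    _ = (1 / Real.log 2) ^ k * Real.exp (k * (C2 / Real.log 2)) * Real.log x ^ k := by
        rw [mul_add, Real.exp_add, Real.exp_nat_mul, Real.exp_log (by positivity)]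
        rw [div_pow, div_pow]
        ring

/-- The error term for the modulus `m`. -/
noncomputable def Er (g : ℝ → ℝ) (cf : ℕ → ℕ) (x : ℝ) (m : ℕ) : ℝ :=
  |∑ n ∈ (Icc 1 ⌊x⌋₊).filter (fun n => n ≡ cf m [MOD m]), Λ n * wt g x n -
    (1 / (m.totient : ℝ)) * ∑ n ∈ Icc 1 ⌊x⌋₊, Λ n * wt g x n|

theorem Er_nonneg (g : ℝ → ℝ) (cf : ℕ → ℕ) (x : ℝ) (m : ℕ) : 0 ≤ Er g cf x m := abs_nonneg _

theorem err_sum (hBV : BVhalf) (hM : Mass) {g : ℝ → ℝ} (hg : IsWt g) (hgne : ∃ y, g y ≠ 0)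
    (hg1 : ∀ y, g y ≤ 1) {ε : ℝ} (hε : 0 < ε) (hε1 : ε ≤ 1 / 2)
    (hgε : ∀ v, v ≤ 1 - ε → g v = 0) {V : ℕ} (hV : 0 < V) (h2 : 2 ∣ V) :
    ∃ C X0 : ℝ, 0 < C ∧ 3 ≤ X0 ∧ ∀ x : ℝ, X0 ≤ x → ∀ cf : ℕ → ℕ, (∀ d, Nat.Coprime (cf d) d) →
      ∀ P : Finset ℕ, (∀ q ∈ P, q.Prime ∧ (q : ℝ) ≤ x ∧ ¬ q ∣ V) →
      ∀ T : Finset (Finset ℕ), (∀ I ∈ T, I ⊆ P ∧ ((V * ∏ q ∈ I, q : ℕ) : ℝ) ≤ x ^ (1 / 2 - ε)) →
      ∑ I ∈ T, 8 ^ I.card * Er g cf x (V * ∏ q ∈ I, q) ≤ C / Real.log x ^ 3 := by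
  classical
  obtain ⟨C1, X1, hC1, hX1, hBV'⟩ := hBV ε hε hε1 g hg hgε 72 (by norm_num)
  obtain ⟨cm, Cm, X2, hcm, hCm, hX2, hmass⟩ := hM g hg hgne
  obtain ⟨C3, hC3, hprod⟩ := prod_le V h2 64
  obtain ⟨C4, hC4⟩ : ∃ C4 : ℝ, C4 = (2 + Cm) * C3 * C1 := ⟨_, rfl⟩
  have hC40 : 0 < C4 := by rw [hC4]; positivity
  refine ⟨Real.sqrt C4, max X1 X2, Real.sqrt_pos.2 hC40, hX1.trans (le_max_left _ _), ?_⟩
  intro x hx cf hcf P hP T hT
  have hx1 : X1 ≤ x := (le_max_left _ _).trans hx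
  have hx2 : X2 ≤ x := (le_max_right _ _).trans hx
  have hx3 : 3 ≤ x := hX1.trans hx1
  have hx0 : 0 < x := by linarith
  have hlog1 : 1 ≤ Real.log x := by
    rw [Real.le_log_iff_exp_le hx0]
    have := Real.exp_one_lt_d9
    linarith
  have hlog : 0 < Real.log x := by linarith
  have hTp : ∀ I ∈ T, ∀ q ∈ I, q.Prime := fun I hI q hq => (hP q ((hT I hI).1 hq)).1
  have hcop : ∀ I ∈ T, V.Coprime (∏ q ∈ I, q) := by
    intro I hI
    apply Nat.Coprime.prod_right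
    intro q hq
    rw [Nat.coprime_comm, Nat.Prime.coprime_iff_not_dvd (hTp I hI q hq)]
    exact (hP q ((hT I hI).1 hq)).2.2
  have hpos : ∀ I ∈ T, 0 < ∏ q ∈ I, q := fun I hI => Finset.prod_pos fun q hq => (hTp I hI q hq).pos
  -- first moment
  have hinj : Set.InjOn (fun I : Finset ℕ => V * ∏ q ∈ I, q) (T : Set (Finset ℕ)) := by
    intro I hI J hJ h
    have h3 : ∏ q ∈ I, q = ∏ q ∈ J, q := Nat.eq_of_mul_eq_mul_left hV h
    rw [← Nat.primeFactors_prod (hTp I hI), ← Nat.primeFactors_prod (hTp J hJ), h3]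
  have m1 : ∑ I ∈ T, Er g cf x (V * ∏ q ∈ I, q) ≤ C1 / Real.log x ^ (72 : ℝ) := by
    rw [← Finset.sum_image (f := fun m => Er g cf x m) hinj]
    refine le_trans ?_ (hBV' x hx1 cf hcf)
    apply Finset.sum_le_sum_of_subset_of_nonneg
    · intro m hm
      obtain ⟨I, hI, rfl⟩ := Finset.mem_image.1 hm
      rw [Finset.mem_Icc]
      refine ⟨Nat.mul_pos hV (hpos I hI), ?_⟩
      exact Nat.le_floor (hT I hI).2
    · intro m _ _
      exact Er_nonneg g cf x m
  -- second moment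
  have m2 : ∑ I ∈ T, 64 ^ I.card * Er g cf x (V * ∏ q ∈ I, q) ≤
      (2 + Cm) * Real.log x ^ 2 * (C3 * Real.log x ^ 64) := by
    have h3 : ∀ I ∈ T, 64 ^ I.card * Er g cf x (V * ∏ q ∈ I, q) ≤
        (2 + Cm) * Real.log x ^ 2 * (((64 : ℕ) : ℝ) ^ I.card * ∏ q ∈ I, (1 / ((q : ℝ) - 1))) := by
      intro I hI
      obtain ⟨d, hd⟩ : ∃ d : ℕ, d = ∏ q ∈ I, q := ⟨_, rfl⟩
      have hd0 : 0 < d := by rw [hd]; exact hpos I hI
      have hm0 : 0 < V * d := Nat.mul_pos hV hd0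
      have hφd : (1 : ℝ) / (d.totient : ℝ) = ∏ q ∈ I, (1 / ((q : ℝ) - 1)) := by
        rw [hd, totient_prod_primes I (hTp I hI)]
        push_cast
        rw [Finset.prod_div_distrib, Finset.prod_const_one]
        congr 1
        apply Finset.prod_congr rfl
        intro q hq
        rw [Nat.cast_sub (hTp I hI q hq).one_le, Nat.cast_one]
      have hφm : d.totient ≤ (V * d).totient :=
        Nat.le_of_dvd (Nat.totient_pos.2 hm0) (Nat.totient_dvd_of_dvd (dvd_mul_left _ _))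
      have hφ0 : (0 : ℝ) < d.totient := by exact_mod_cast Nat.totient_pos.2 hd0
      have hφm0 : (0 : ℝ) < (V * d).totient := by exact_mod_cast Nat.totient_pos.2 hm0
      have hφm' : (1 : ℝ) / ((V * d).totient : ℝ) ≤ 1 / d.totient :=
        one_div_le_one_div_of_le hφ0 (by exact_mod_cast hφm)
      have hmφ : (1 : ℝ) / ((V * d : ℕ) : ℝ) ≤ 1 / ((V * d).totient : ℝ) :=
        one_div_le_one_div_of_le hφm0 (by exact_mod_cast Nat.totient_le _)
      rw [← hφd, ← hd]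
      have hmx : ((V * d : ℕ) : ℝ) ≤ x ^ (1 - ε) := by
        have := (hT I hI).2
        rw [← hd] at this
        refine this.trans ?_
        apply Real.rpow_le_rpow_of_exponent_le (by linarith)
        linarith
      have t1 := triv_bound hg hg1 hgε hx3 hm0 hmx (cf (V * d))
      have t2 := (hmass x hx2).2
      have t0 : 0 ≤ ∑ n ∈ (Icc 1 ⌊x⌋₊).filter (fun n => n ≡ cf (V * d) [MOD V * d]),
          Λ n * wt g x n := Finset.sum_nonneg fun n _ =>
        mul_nonneg ArithmeticFunction.vonMangoldt_nonneg (wt_nonneg hg x n)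
      have t3 : 0 ≤ ∑ n ∈ Icc 1 ⌊x⌋₊, Λ n * wt g x n := Finset.sum_nonneg fun n _ =>
        mul_nonneg ArithmeticFunction.vonMangoldt_nonneg (wt_nonneg hg x n)
      have t4 : Er g cf x (V * d) ≤ (2 + Cm) * Real.log x ^ 2 * (1 / d.totient) := by
        unfold Er
        refine (abs_sub _ _).trans ?_
        rw [abs_of_nonneg t0, abs_of_nonneg (mul_nonneg (by positivity) t3)]
        have t5 : 2 * Real.log x ^ 2 / ((V * d : ℕ) : ℝ) ≤ 2 * Real.log x ^ 2 * (1 / d.totient) := by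
          rw [div_eq_mul_one_div]
          exact mul_le_mul_of_nonneg_left (hmφ.trans hφm') (by positivity)
        have t6 : 1 / ((V * d).totient : ℝ) * ∑ n ∈ Icc 1 ⌊x⌋₊, Λ n * wt g x n ≤
            1 / d.totient * (Cm * Real.log x ^ 2) := by
          apply mul_le_mul hφm' _ t3 (by positivity)
          refine t2.trans ?_
          apply mul_le_mul_of_nonneg_left _ hCm.le
          nlinarith
        calc _ ≤ 2 * Real.log x ^ 2 * (1 / (d.totient : ℝ)) +
              1 / d.totient * (Cm * Real.log x ^ 2) := add_le_add (t1.trans t5) t6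
          _ = _ := by ring
      calc 64 ^ I.card * Er g cf x (V * d) ≤
          64 ^ I.card * ((2 + Cm) * Real.log x ^ 2 * (1 / d.totient)) :=
            mul_le_mul_of_nonneg_left t4 (by positivity)
        _ = _ := by
            push_cast
            ring
    refine (Finset.sum_le_sum h3).trans ?_
    rw [← Finset.mul_sum]
    apply mul_le_mul_of_nonneg_left _ (by positivity)
    refine le_trans ?_ (hprod x hx3 P hP)
    apply Finset.sum_le_sum_of_subset_of_nonneg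
    · intro I hI
      exact Finset.mem_powerset.2 (hT I hI).1
    · intro I hI _
      rw [Finset.mem_powerset] at hI
      apply mul_nonneg (by positivity)
      apply Finset.prod_nonneg
      intro q hq
      have : (1 : ℝ) ≤ q := by exact_mod_cast (hP q (hI hq)).1.one_le
      exact div_nonneg zero_le_one (by linarith)
  -- Cauchy-Schwarz
  have hCS := Finset.sum_mul_sq_le_sq_mul_sq T
    (fun I => 8 ^ I.card * Real.sqrt (Er g cf x (V * ∏ q ∈ I, q)))
    (fun I => Real.sqrt (Er g cf x (V * ∏ q ∈ I, q)))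
  have k1 : ∑ I ∈ T, 8 ^ I.card * Real.sqrt (Er g cf x (V * ∏ q ∈ I, q)) *
      Real.sqrt (Er g cf x (V * ∏ q ∈ I, q)) =
      ∑ I ∈ T, 8 ^ I.card * Er g cf x (V * ∏ q ∈ I, q) := by
    refine Finset.sum_congr rfl fun I _ => ?_
    rw [mul_assoc, Real.mul_self_sqrt (Er_nonneg _ _ _ _)]
  have k2 : ∑ I ∈ T, (8 ^ I.card * Real.sqrt (Er g cf x (V * ∏ q ∈ I, q))) ^ 2 =
      ∑ I ∈ T, 64 ^ I.card * Er g cf x (V * ∏ q ∈ I, q) := by
    refine Finset.sum_congr rfl fun I _ => ?_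
    rw [mul_pow, Real.sq_sqrt (Er_nonneg _ _ _ _), ← pow_mul, mul_comm I.card 2, pow_mul]
    norm_num
  have k3 : ∑ I ∈ T, Real.sqrt (Er g cf x (V * ∏ q ∈ I, q)) ^ 2 =
      ∑ I ∈ T, Er g cf x (V * ∏ q ∈ I, q) := by
    refine Finset.sum_congr rfl fun I _ => ?_
    rw [Real.sq_sqrt (Er_nonneg _ _ _ _)]
  rw [k1, k2, k3] at hCS
  have k4 : (∑ I ∈ T, 8 ^ I.card * Er g cf x (V * ∏ q ∈ I, q)) ^ 2 ≤
      (Real.sqrt C4 / Real.log x ^ 3) ^ 2 := by
    refine hCS.trans ?_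
    have h3 : (0 : ℝ) ≤ ∑ I ∈ T, Er g cf x (V * ∏ q ∈ I, q) :=
      Finset.sum_nonneg fun I _ => Er_nonneg _ _ _ _
    refine (mul_le_mul m2 m1 h3 (by positivity)).trans (le_of_eq ?_)
    rw [div_pow, Real.sq_sqrt hC40.le, hC4]
    have h4 : Real.log x ^ (72 : ℝ) = Real.log x ^ 72 := by
      rw [← Real.rpow_natCast]
      norm_num
    rw [h4]
    field_simp
  exact (sq_le_sq₀ (Finset.sum_nonneg fun I _ => mul_nonneg (by positivity) (Er_nonneg _ _ _ _))
    (by positivity)).1 k4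

end Pool.Agent.Helper63.LT2
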