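import Pool.Agent.Helper63.LT2.Cov
import Pool.Agent.Helper63.LT2.Cls
import Pool.Agent.Helper63.LT.Exc

/-!
# Project LT2: consequences
-/

set_option autoImplicit false

open Finset Filter Topology

namespace Pool.Agent.Helper63.LT2

open WeierstrassCurve Pool.Agent.Helper10.SS Pool.Agent.Helper63.LT

/-- all but few points of a box generate simultaneously modulo many primes -/
theorem box_cov (hM : MainM) (hPat : PatternInt) {a : ℤ} {ξ : ℚ} (ha : CurveOK a)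
    (hξ : ClassOK a ξ) {k : ℕ} {R : Fin k → (EF (a : ℚ) 0).Point} (hR : LinearIndependent ℤ R)
    {Q : (EF (a : ℚ) 0).Point} (hQ : InClass a ξ Q) (N : ℕ) :
    ∃ S : Finset (Fin k → ℤ), S.card ≤ 5 * (2 * N + 1) ^ 8 ∧
      (∃ c : ℝ, 0 < c ∧ ∀ z0 : ℝ, ∃ z : ℝ, z0 ≤ z ∧ c * z / Real.log z ^ 2 ≤
        ({p : ℕ | p.Prime ∧ (p : ℝ) ≤ z ∧ ∀ n : Fin k → ℤ, (∀ i, |n i| ≤ N) → n ∉ S →
          Primitive a (Q + (2 : ℤ) • ∑ i, n i • R i) p}.ncard : ℝ)) ∧
      ∀ n : Fin k → ℤ, (∀ i, |n i| ≤ N) → n ∉ S → Good a (Q + (2 : ℤ) • ∑ i, n i • R i) := by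
  classical
  obtain ⟨B, hB⟩ : ∃ B : Finset (Fin k → ℤ),
      B = Fintype.piFinset (fun _ => Finset.Icc (-(N : ℤ)) N) := ⟨_, rfl⟩
  have hBmem : ∀ n : Fin k → ℤ, n ∈ B ↔ ∀ i, |n i| ≤ N := by
    intro n
    rw [hB, Fintype.mem_piFinset]
    simp only [Finset.mem_Icc, abs_le]
  obtain ⟨φ, hφ⟩ : ∃ φ : (Fin k → ℤ) → (EF (a : ℚ) 0).Point,
      φ = fun n => Q + (2 : ℤ) • ∑ i, n i • R i := ⟨_, rfl⟩
  have hcls : ∀ n, InClass a ξ (φ n) := by
    intro n
    rw [hφ]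
    simp only
    rw [two_zsmul]
    exact inClass_add_two (fun r => (hξ r).1.1) (fun r => (hξ r).2.1) hQ _
  obtain ⟨cl, M, hM1, hM2, c, hc, hcz⟩ := finite_cov hM hPat ha hξ (B.image φ) (by
    intro P hP
    obtain ⟨n, -, rfl⟩ := Finset.mem_image.1 hP
    exact hcls n)
  obtain ⟨S, hS⟩ : ∃ S : Finset (Fin k → ℤ), S = B.filter (fun n => φ n ∈ M) := ⟨_, rfl⟩
  have hSmem : ∀ n, n ∈ S ↔ n ∈ B ∧ φ n ∈ M := by
    intro n
    rw [hS, Finset.mem_filter]
  refine ⟨S, ?_, ⟨c, hc, fun z0 => ?_⟩, ?_⟩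
  · rw [Finset.card_eq_sum_card_fiberwise (f := fun n => cl (φ n)) (t := Finset.univ)
      (fun n _ => Finset.mem_univ _)]
    have h1 : ∀ j ∈ (Finset.univ : Finset (Fin 5)),
        (S.filter (fun n => cl (φ n) = j)).card ≤ (2 * N + 1) ^ 8 := by
      intro j _
      apply box_bound (r := 8) (X := {P | P ∈ M ∧ cl P = j}) _ hR Q (t := 2) (by norm_num)
      · intro n hn
        obtain ⟨hn1, hn2⟩ := Finset.mem_filter.1 hn
        have h3 := ((hSmem n).1 hn1).2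
        rw [hφ] at h3 hn2
        exact ⟨h3, hn2⟩
      · intro n hn
        obtain ⟨hn1, hn2⟩ := Finset.mem_filter.1 hn
        exact (hBmem n).1 ((hSmem n).1 hn1).1
      · intro v hv
        exact hM2 v (fun i => (hv i).1) (fun i j => by rw [(hv i).2, (hv j).2])
    refine (Finset.sum_le_sum h1).trans ?_
    rw [Finset.sum_const, Finset.card_univ, Fintype.card_fin, smul_eq_mul]
  · obtain ⟨z, hz1, hz2⟩ := hcz z0
    refine ⟨z, hz1, hz2.trans ?_⟩
    have hfin : {p : ℕ | p.Prime ∧ (p : ℝ) ≤ z ∧ ∀ n : Fin k → ℤ, (∀ i, |n i| ≤ N) → n ∉ S →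
          Primitive a (Q + (2 : ℤ) • ∑ i, n i • R i) p}.Finite := by
      apply (Set.finite_Iic (⌊z⌋₊)).subset
      rintro p ⟨-, hp, -⟩
      exact Nat.le_floor hp
    norm_cast
    apply Set.ncard_le_ncard _ hfin
    rintro p ⟨hp0, hp1, hp2⟩
    refine ⟨hp0, hp1, fun n hn hnS => ?_⟩
    have hnB : n ∈ B := (hBmem n).2 hn
    have h3 := hp2 (φ n) (Finset.mem_image_of_mem φ hnB) (fun h => hnS ((hSmem n).2 ⟨hnB, h⟩))
    rw [hφ] at h3
    exact h3
  · intro n hn hnS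
    have hnB : n ∈ B := (hBmem n).2 hn
    have h3 := good_of hc hcz (Finset.mem_image_of_mem φ hnB)
      (fun h => hnS ((hSmem n).2 ⟨hnB, h⟩))
    rw [hφ] at h3
    exact h3

/-- the admissible points which are not good lie in finitely many subgroups of rank at most `8` -/
theorem all_cov (hM : MainM) (hPat : PatternInt) {a : ℤ} (ha : CurveOK a) :
    ∃ H : Fin (10 * a.natAbs.divisors.card) → AddSubgroup (EF (a : ℚ) 0).Point,
      (∀ j, RankLe 8 (H j)) ∧ ∀ P, Admissible a P → ¬ Good a P → ∃ j, P ∈ H j := by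
  classical
  have ha0 : a ≠ 0 := by
    rintro rfl
    apply (ha 0).1
    norm_num
  have hbot : RankLe 8 (⊥ : AddSubgroup (EF (a : ℚ) 0).Point) := by
    intro v hv hli
    exact hli.ne_zero 0 (AddSubgroup.mem_bot.1 (hv 0))
  have hcl : ∀ b : ℤ, ∃ H : Fin 5 → AddSubgroup (EF (a : ℚ) 0).Point, (∀ j, RankLe 8 (H j)) ∧
      (ClassOK a b → ∀ P, InClass a b P → ¬ Good a P → ∃ j, P ∈ H j) := by
    intro b
    by_cases hb : ClassOK a b
    · obtain ⟨H, h1, h2⟩ := class_cov hM hPat ha hb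
      exact ⟨H, h1, fun _ => h2⟩
    · exact ⟨fun _ => ⊥, fun _ => hbot, fun h => absurd h hb⟩
  choose H hH1 hH2 using hcl
  -- the index type
  obtain ⟨e⟩ : Nonempty (Fin (10 * a.natAbs.divisors.card) ≃
      (Fin 5 × (Fin 2 × a.natAbs.divisors))) := by
    rw [← Fintype.card_eq]
    simp only [Fintype.card_fin, Fintype.card_prod, Fintype.card_coe]
    ring
  refine ⟨fun i => H ((if (e i).2.1 = 0 then 1 else -1) * ((e i).2.2 : ℕ)) (e i).1,
    fun j => hH1 _ _, ?_⟩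
  intro P hP hG
  obtain ⟨-, x, y, hA, hxy⟩ := hP
  have hx0 : x ≠ 0 := by
    rintro rfl
    apply (hxy 0).2.1.1
    norm_num
  have heq := hA.eqn
  rw [add_zero] at heq
  obtain ⟨b, hba, s, hs, hx⟩ := class_dvd ha0 heq hx0
  have hb0 : b ≠ 0 := by
    rintro rfl
    exact ha0 (zero_dvd_iff.1 hba)
  have hbOK : ClassOK a b := by
    intro r
    have h := hxy (r * s)
    refine ⟨⟨?_, ?_⟩, ?_, ?_⟩
    · intro h1
      apply h.2.1.1
      rw [hx, h1]
      ring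
    · intro h1
      apply h.2.1.2
      rw [hx, h1]
      ring
    · intro h1
      apply h.2.2.1
      rw [hx]
      linear_combination s ^ 2 * h1
    · intro h1
      apply h.2.2.2
      rw [hx]
      linear_combination s ^ 2 * h1
  obtain ⟨j, hj⟩ := hH2 b hbOK P ⟨x, y, s, hA, hs, hx⟩ hG
  have hbd : b.natAbs ∈ a.natAbs.divisors :=
    Nat.mem_divisors.2 ⟨Int.natAbs_dvd_natAbs.2 hba, Int.natAbs_ne_zero.2 ha0⟩
  obtain ⟨ε, hε⟩ : ∃ ε : Fin 2, (if ε = 0 then (1 : ℤ) else -1) * (b.natAbs : ℤ) = b := by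
    rcases Int.natAbs_eq b with h1 | h1
    · exact ⟨0, by rw [if_pos rfl, one_mul]; exact h1.symm⟩
    · exact ⟨1, by rw [if_neg (by decide)]; linarith⟩
  refine ⟨e.symm (j, (ε, ⟨b.natAbs, hbd⟩)), ?_⟩
  simp only [Equiv.apply_symm_apply]
  rw [hε]
  exact hj


end Pool.Agent.Helper63.LT2
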