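import Pool.Agent.Helper63.LT2.Conv
import Pool.Agent.Helper29.Euler

/-!
# Project LT2: the sum of `∏_{q ∣ n} 1 / (q - 2)` over squarefree numbers coprime to `V`
-/

set_option autoImplicit false

open Finset Filter Topology
open scoped ArithmeticFunction.zeta ArithmeticFunction.Moebius

namespace Pool.Agent.Helper63.LT2

/-- `n ∏_{q ∣ n} 1 / (q - 2)` on the squarefree numbers coprime to `V`. -/
noncomputable def fA (V : ℕ) : ArithmeticFunction ℝ :=
  ⟨fun n => if Squarefree n ∧ n.Coprime V then ∏ q ∈ n.primeFactors, ((q : ℝ) / ((q : ℝ) - 2))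
    else 0, by simp⟩

theorem fA_apply (V n : ℕ) : fA V n = if Squarefree n ∧ n.Coprime V then
    ∏ q ∈ n.primeFactors, ((q : ℝ) / ((q : ℝ) - 2)) else 0 := rfl

theorem fA_mult (V : ℕ) : (fA V).IsMultiplicative := by
  rw [ArithmeticFunction.IsMultiplicative.iff_ne_zero]
  refine ⟨?_, ?_⟩
  · rw [fA_apply, if_pos ⟨squarefree_one, Nat.coprime_one_left V⟩]
    simp
  · intro m n hm hn hmn
    rw [fA_apply, fA_apply, fA_apply]
    by_cases h1 : Squarefree m ∧ m.Coprime V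
    · by_cases h2 : Squarefree n ∧ n.Coprime V
      · rw [if_pos h1, if_pos h2, if_pos, Nat.primeFactors_mul hm hn, Finset.prod_union]
        · exact hmn.disjoint_primeFactors
        · exact ⟨(Nat.squarefree_mul hmn).2 ⟨h1.1, h2.1⟩, Nat.Coprime.mul_left h1.2 h2.2⟩
      · rw [if_neg h2, if_neg, mul_zero]
        rintro ⟨h3, h4⟩
        exact h2 ⟨((Nat.squarefree_mul hmn).1 h3).2, Nat.Coprime.coprime_mul_left h4⟩
    · rw [if_neg h1, if_neg, zero_mul]
      rintro ⟨h3, h4⟩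
      exact h1 ⟨((Nat.squarefree_mul hmn).1 h3).1, Nat.Coprime.coprime_mul_right h4⟩

/-- The convolution factor. -/
noncomputable def bA (V : ℕ) : ArithmeticFunction ℝ :=
  ((μ : ArithmeticFunction ℤ) : ArithmeticFunction ℝ) * fA V

theorem bA_mul_zeta (V : ℕ) : bA V * (ζ : ArithmeticFunction ℝ) = fA V := by
  unfold bA
  rw [mul_comm ((μ : ArithmeticFunction ℤ) : ArithmeticFunction ℝ) (fA V), mul_assoc,
    ArithmeticFunction.coe_moebius_mul_coe_zeta, mul_one]

theorem bA_mult (V : ℕ) : (bA V).IsMultiplicative :=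
  (ArithmeticFunction.isMultiplicative_moebius.intCast).mul (fA_mult V)

theorem bA_succ (V : ℕ) {p : ℕ} (hp : p.Prime) (k : ℕ) :
    bA V (p ^ (k + 1)) = fA V (p ^ (k + 1)) - fA V (p ^ k) := by
  have h : ∀ j : ℕ, fA V (p ^ j) = ∑ i ∈ range (j + 1), bA V (p ^ i) := by
    intro j
    rw [← bA_mul_zeta V, mul_comm, ArithmeticFunction.coe_zeta_mul_apply,
      Nat.sum_divisors_prime_pow hp]
  rw [h (k + 1), h k, Finset.sum_range_succ (fun i => bA V (p ^ i)) (k + 1)]
  ring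

theorem fA_pow_zero (V : ℕ) {p : ℕ} (hp : p.Prime) {k : ℕ} (hk : 2 ≤ k) : fA V (p ^ k) = 0 := by
  rw [fA_apply, if_neg]
  rintro ⟨h, -⟩
  have := (Nat.squarefree_pow_iff hp.ne_one (by omega)).1 h
  omega

theorem fA_one (V : ℕ) : fA V 1 = 1 := (fA_mult V).1

theorem fA_prime (V : ℕ) {p : ℕ} (hp : p.Prime) :
    fA V p = if p ∣ V then 0 else (p : ℝ) / ((p : ℝ) - 2) := by
  rw [fA_apply]
  by_cases h : p ∣ V
  · rw [if_pos h, if_neg]
    rintro ⟨-, h2⟩
    exact (Nat.Prime.coprime_iff_not_dvd hp).1 h2 h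
  · rw [if_neg h, if_pos ⟨hp.squarefree, (Nat.Prime.coprime_iff_not_dvd hp).2 h⟩,
      hp.primeFactors, Finset.prod_singleton]

theorem bA_summable {V : ℕ} (hV : V ≠ 0) (h2 : 2 ∣ V) :
    Summable fun n : ℕ => |bA V n| * (n : ℝ) ^ (-(3 / 4) : ℝ) := by
  obtain ⟨F, hF⟩ : ∃ F : ℕ → ℝ, F = fun n : ℕ => |bA V n| * (n : ℝ) ^ (-(3 / 4) : ℝ) := ⟨_, rfl⟩
  rw [← hF]
  have hF0 : ∀ n, 0 ≤ F n := by
    intro n
    rw [hF]
    positivity
  have hsupp : ∀ p : ℕ, p.Prime → ∀ k, 3 ≤ k → F (p ^ k) = 0 := by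
    intro p hp k hk
    obtain ⟨j, rfl⟩ : ∃ j, k = j + 1 := ⟨k - 1, by omega⟩
    rw [hF]
    simp only
    rw [bA_succ V hp, fA_pow_zero V hp (by omega), fA_pow_zero V hp (by omega)]
    simp
  obtain ⟨e, he⟩ : ∃ e : ℕ → ℝ, e = fun p : ℕ => 9 * (p : ℝ) ^ (-(3 / 2) : ℝ) +
    if p ∣ V then 1 else 0 := ⟨_, rfl⟩
  apply Pool.Agent.Helper29.sum_le_of_prod (F := F) hF0 (e := e)
  · rw [hF]
    simp
  · rw [hF]
    simp only
    rw [(bA_mult V).1]
    simp
  · intro m n hmn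
    rw [hF]
    simp only
    rw [(bA_mult V).2 hmn, abs_mul, Nat.cast_mul, Real.mul_rpow (Nat.cast_nonneg _)
      (Nat.cast_nonneg _)]
    ring
  · intro p hp
    apply summable_of_ne_finset_zero (s := range 3)
    intro k hk
    rw [Finset.mem_range, not_lt] at hk
    exact hsupp p hp k hk
  · intro p hp
    rw [tsum_eq_sum (s := range 3) (by
      intro k hk
      rw [Finset.mem_range, not_lt] at hk
      exact hsupp p hp k hk)]
    rw [Finset.sum_range_succ, Finset.sum_range_succ, Finset.sum_range_succ, Finset.sum_range_zero,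
      zero_add]
    have e0 : F (p ^ 0) = 1 := by
      rw [hF]
      simp only [pow_zero]
      rw [(bA_mult V).1]
      simp
    have hp0 : (0 : ℝ) < p := by exact_mod_cast hp.pos
    have hp1 : (1 : ℝ) ≤ p := by exact_mod_cast hp.one_le
    have b1 : bA V (p ^ 1) = fA V p - 1 := by
      have := bA_succ V hp 0
      rw [zero_add, pow_zero, fA_one, pow_one] at this
      rw [pow_one, this]
    have b2 : bA V (p ^ 2) = - fA V p := by
      have := bA_succ V hp 1
      rw [pow_one, fA_pow_zero V hp (by norm_num)] at this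
      rw [this]
      ring
    rw [e0, add_assoc]
    apply add_le_add le_rfl
    rw [hF, he]
    simp only
    rw [b1, b2, fA_prime V hp]
    by_cases hpV : p ∣ V
    · rw [if_pos hpV, if_pos hpV]
      have h3 : (((p ^ 1 : ℕ)) : ℝ) ^ (-(3 / 4) : ℝ) ≤ 1 := by
        rw [pow_one]
        exact Real.rpow_le_one_of_one_le_of_nonpos hp1 (by norm_num)
      have h4 : (0 : ℝ) ≤ 9 * (p : ℝ) ^ (-(3 / 2) : ℝ) := by positivity
      have h5 : |(0 : ℝ) - 1| = 1 := by norm_num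
      rw [h5, neg_zero, abs_zero, zero_mul, one_mul, add_zero]
      linarith
    · rw [if_neg hpV, if_neg hpV, add_zero]
      have hp3 : 3 ≤ p := by
        have h6 := hp.two_le
        have h7 : p ≠ 2 := by
          rintro rfl
          exact hpV h2
        omega
      have hp3' : (3 : ℝ) ≤ p := by exact_mod_cast hp3
      have hpm : (0 : ℝ) < p - 2 := by linarith
      have a1 : |(p : ℝ) / (p - 2) - 1| ≤ 6 / p := by
        have : (p : ℝ) / (p - 2) - 1 = 2 / (p - 2) := by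
          field_simp
          ring
        rw [this, abs_of_pos (by positivity), div_le_div_iff₀ hpm hp0]
        linarith
      have a2 : |-((p : ℝ) / (p - 2))| ≤ 3 := by
        rw [abs_neg, abs_of_pos (by positivity), div_le_iff₀ hpm]
        linarith
      have a3 : (((p ^ 1 : ℕ)) : ℝ) ^ (-(3 / 4) : ℝ) ≤ (p : ℝ) ^ (-(1 / 2) : ℝ) := by
        rw [pow_one]
        exact Real.rpow_le_rpow_of_exponent_le hp1 (by norm_num)
      have a4 : (((p ^ 2 : ℕ)) : ℝ) ^ (-(3 / 4) : ℝ) = (p : ℝ) ^ (-(3 / 2) : ℝ) := by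
        rw [Nat.cast_pow, ← Real.rpow_natCast, ← Real.rpow_mul hp0.le]
        norm_num
      have a5 : 6 / (p : ℝ) * (p : ℝ) ^ (-(1 / 2) : ℝ) = 6 * (p : ℝ) ^ (-(3 / 2) : ℝ) := by
        have : (p : ℝ) ^ (-(3 / 2) : ℝ) = (p : ℝ) ^ (-1 : ℝ) * (p : ℝ) ^ (-(1 / 2) : ℝ) := by
          rw [← Real.rpow_add hp0]
          norm_num
        rw [this, Real.rpow_neg_one]
        ring
      rw [a4]
      have c1 : |(p : ℝ) / (p - 2) - 1| * (((p ^ 1 : ℕ)) : ℝ) ^ (-(3 / 4) : ℝ) ≤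
          6 / (p : ℝ) * (p : ℝ) ^ (-(1 / 2) : ℝ) :=
        mul_le_mul a1 a3 (by positivity) (by positivity)
      have c2 : |-((p : ℝ) / (p - 2))| * (p : ℝ) ^ (-(3 / 2) : ℝ) ≤
          3 * (p : ℝ) ^ (-(3 / 2) : ℝ) := mul_le_mul_of_nonneg_right a2 (by positivity)
      rw [a5] at c1
      linarith
  · intro p
    rw [he]
    have : (0 : ℝ) ≤ if p ∣ V then 1 else 0 := by split_ifs <;> norm_num
    positivity
  · rw [he]
    have s1 : Summable fun p : ℕ => 9 * (p : ℝ) ^ (-(3 / 2) : ℝ) :=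
      (Real.summable_nat_rpow.2 (by norm_num)).mul_left 9
    have s2 : Summable fun p : ℕ => (if p ∣ V then (1 : ℝ) else 0) := by
      apply summable_of_ne_finset_zero (s := V.divisors)
      intro p hp
      rw [if_neg]
      intro h
      exact hp (Nat.mem_divisors.2 ⟨h, hV⟩)
    exact (s1.add s2).comp_injective Subtype.val_injective

/-- the summatory function -/
noncomputable def HH (V : ℕ) (t : ℝ) : ℝ := ∑ n ∈ Ioc 0 ⌊t⌋₊, fA V n / n

theorem HH_asymp {V : ℕ} (hV : V ≠ 0) (h2 : 2 ∣ V) :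
    ∃ A C : ℝ, 0 ≤ C ∧ ∀ t : ℝ, 1 ≤ t → |HH V t - A * Real.log t| ≤ C := by
  obtain ⟨C, hC, h⟩ := conv_asymp (bA V) (bA_summable hV h2)
  rw [bA_mul_zeta] at h
  exact ⟨_, C, hC, h⟩

end Pool.Agent.Helper63.LT2
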