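import Pool.Agent.Helper63.LT2.Model

/-!
# Project LT2: a lower bound sieve
-/

set_option autoImplicit false

open Finset

namespace Pool.Agent.Helper63.LT2

variable {α : Type} [DecidableEq α] {h : α → ℝ} {P : Finset α} {y : Finset α → ℝ}

/-- The coefficients of the sieve. -/
def lam (h : α → ℝ) (P : Finset α) (y : Finset α → ℝ) (d : Finset α) : ℝ :=
  (-1) ^ d.card * (∏ q ∈ d, (1 + h q)) * ∑ r ∈ P.powerset.filter (fun r => d ⊆ r),
    y r * ∏ q ∈ r \ d, h q

theorem FY_eq (D : Finset α) :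
    FY h P y D = ∑ d ∈ P.powerset, (if d ⊆ D then lam h P y d else 0) := by
  have h1 : ∀ r ∈ P.powerset, y r * ∏ q ∈ r, psi h D q =
      ∑ d ∈ P.powerset, (if d ⊆ r then (if d ⊆ D then
        (-1) ^ d.card * (∏ q ∈ d, (1 + h q)) * (y r * ∏ q ∈ r \ d, h q) else 0) else 0) := by
    intro r hr
    rw [Finset.mem_powerset] at hr
    have h2 : ∏ q ∈ r, psi h D q = ∏ q ∈ r, ((if q ∈ D then -(1 + h q) else 0) + h q) := by
      refine Finset.prod_congr rfl fun q _ => ?_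
      simp only [psi]
      split_ifs <;> ring
    rw [h2, Finset.prod_add, Finset.mul_sum, ← Finset.sum_filter]
    have h3 : P.powerset.filter (fun d => d ⊆ r) = r.powerset := by
      ext d
      simp only [Finset.mem_filter, Finset.mem_powerset]
      exact ⟨fun hh => hh.2, fun hh => ⟨hh.trans hr, hh⟩⟩
    rw [h3]
    refine Finset.sum_congr rfl fun d _ => ?_
    split_ifs with hd
    · have h4 : ∏ q ∈ d, (if q ∈ D then -(1 + h q) else 0) =
          (-1) ^ d.card * ∏ q ∈ d, (1 + h q) := by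
        rw [← Finset.prod_const, ← Finset.prod_mul_distrib]
        refine Finset.prod_congr rfl fun q hq => ?_
        rw [if_pos (hd hq)]
        ring
      rw [h4]
      ring
    · have h4 : ∏ q ∈ d, (if q ∈ D then -(1 + h q) else 0) = 0 := by
        obtain ⟨q, hq, hqD⟩ := Finset.not_subset.1 hd
        exact Finset.prod_eq_zero hq (if_neg hqD)
      rw [h4]
      ring
  unfold FY
  rw [Finset.sum_congr rfl h1, Finset.sum_comm]
  refine Finset.sum_congr rfl fun d _ => ?_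
  split_ifs with hd
  · unfold lam
    rw [Finset.mul_sum, ← Finset.sum_filter]
  · simp

/-- the size of the coefficients -/
theorem lam_le (hP : ∀ q ∈ P, 0 < h q) {S : Finset (Finset α)} (hS : ∀ r ∈ S, r ⊆ P)
    (hdown : ∀ r ∈ S, ∀ r' ⊆ r, r' ∈ S) (hy : ∀ r ∈ P.powerset, |y r| ≤ if r ∈ S then 1 else 0)
    {d : Finset α} (hd : d ⊆ P) : |lam h P y d| ≤ ∑ r ∈ S, ∏ q ∈ r, h q := by
  have hpos : ∀ r, r ⊆ P → 0 ≤ ∏ q ∈ r, h q := fun r hr =>
    Finset.prod_nonneg fun q hq => (hP q (hr hq)).le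
  have h1 : 0 ≤ ∏ q ∈ d, (1 + h q) := Finset.prod_nonneg fun q hq => by
    have := hP q (hd hq)
    linarith
  have h2 : |∑ r ∈ P.powerset.filter (fun r => d ⊆ r), y r * ∏ q ∈ r \ d, h q| ≤
      ∑ r ∈ S.filter (fun r => d ⊆ r), ∏ q ∈ r \ d, h q := by
    refine (Finset.abs_sum_le_sum_abs _ _).trans ?_
    have h3 : ∀ r ∈ P.powerset.filter (fun r => d ⊆ r), |y r * ∏ q ∈ r \ d, h q| ≤
        if r ∈ S then ∏ q ∈ r \ d, h q else 0 := by
      intro r hr
      obtain ⟨hr1, -⟩ := Finset.mem_filter.1 hr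
      have h4 : 0 ≤ ∏ q ∈ r \ d, h q :=
        hpos _ (Finset.sdiff_subset.trans (Finset.mem_powerset.1 hr1))
      rw [abs_mul, abs_of_nonneg h4]
      have h5 := hy r hr1
      split_ifs at h5 ⊢
      · calc |y r| * ∏ q ∈ r \ d, h q ≤ 1 * ∏ q ∈ r \ d, h q :=
            mul_le_mul_of_nonneg_right h5 h4
          _ = _ := one_mul _
      · have : |y r| = 0 := le_antisymm h5 (abs_nonneg _)
        rw [this, zero_mul]
    refine (Finset.sum_le_sum h3).trans ?_
    rw [← Finset.sum_filter]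
    apply Finset.sum_le_sum_of_subset_of_nonneg
    · intro r hr
      rw [Finset.mem_filter, Finset.mem_filter] at hr
      exact Finset.mem_filter.2 ⟨hr.2, hr.1.2⟩
    · intro r hr _
      exact hpos _ (Finset.sdiff_subset.trans (hS r (Finset.mem_filter.1 hr).1))
  unfold lam
  rw [abs_mul, abs_mul, abs_pow, abs_neg, abs_one, one_pow, one_mul, abs_of_nonneg h1]
  refine (mul_le_mul_of_nonneg_left h2 h1).trans ?_
  rw [Finset.prod_one_add, Finset.sum_mul_sum, ← Finset.sum_product']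
  have h6 : ∀ x ∈ d.powerset ×ˢ S.filter (fun r => d ⊆ r),
      (∏ q ∈ x.1, h q) * ∏ q ∈ x.2 \ d, h q = ∏ q ∈ x.1 ∪ (x.2 \ d), h q := by
    rintro ⟨e, r⟩ hx
    rw [Finset.mem_product, Finset.mem_powerset] at hx
    rw [Finset.prod_union]
    exact (Finset.disjoint_sdiff).mono_left hx.1
  rw [Finset.sum_congr rfl h6]
  have hinj : Set.InjOn (fun x : Finset α × Finset α => x.1 ∪ (x.2 \ d))
      (d.powerset ×ˢ S.filter (fun r => d ⊆ r) : Finset (Finset α × Finset α)) := by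
    rintro ⟨e, r⟩ hx ⟨e', r'⟩ hx' hee
    rw [Finset.mem_coe, Finset.mem_product, Finset.mem_powerset, Finset.mem_filter] at hx hx'
    simp only at hee hx hx'
    have a1 : e = e' := by
      ext q
      constructor
      · intro hq
        have : q ∈ e' ∪ (r' \ d) := by rw [← hee]; exact Finset.mem_union_left _ hq
        rcases Finset.mem_union.1 this with h7 | h7
        · exact h7
        · exact absurd (hx.1 hq) (Finset.mem_sdiff.1 h7).2
      · intro hq
        have : q ∈ e ∪ (r \ d) := by rw [hee]; exact Finset.mem_union_left _ hq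
        rcases Finset.mem_union.1 this with h7 | h7
        · exact h7
        · exact absurd (hx'.1 hq) (Finset.mem_sdiff.1 h7).2
    have a2 : r = r' := by
      ext q
      constructor
      · intro hq
        by_cases hqd : q ∈ d
        · exact hx'.2.2 hqd
        · have : q ∈ e' ∪ (r' \ d) := by
            rw [← hee]; exact Finset.mem_union_right _ (Finset.mem_sdiff.2 ⟨hq, hqd⟩)
          rcases Finset.mem_union.1 this with h7 | h7
          · exact absurd (hx'.1 h7) hqd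
          · exact (Finset.mem_sdiff.1 h7).1
      · intro hq
        by_cases hqd : q ∈ d
        · exact hx.2.2 hqd
        · have : q ∈ e ∪ (r \ d) := by
            rw [hee]; exact Finset.mem_union_right _ (Finset.mem_sdiff.2 ⟨hq, hqd⟩)
          rcases Finset.mem_union.1 this with h7 | h7
          · exact absurd (hx.1 h7) hqd
          · exact (Finset.mem_sdiff.1 h7).1
    rw [a1, a2]
  rw [← Finset.sum_image (f := fun s => ∏ q ∈ s, h q) hinj]
  apply Finset.sum_le_sum_of_subset_of_nonneg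
  · intro s hs
    obtain ⟨⟨e, r⟩, hx, rfl⟩ := Finset.mem_image.1 hs
    rw [Finset.mem_product, Finset.mem_powerset, Finset.mem_filter] at hx
    simp only at hx ⊢
    refine hdown r hx.2.1 _ ?_
    exact Finset.union_subset (hx.1.trans hx.2.2) Finset.sdiff_subset
  · intro s hs _
    exact hpos s (hS s hs)

/-- the support of the coefficients -/
theorem lam_zero {S : Finset (Finset α)} (hdown : ∀ r ∈ S, ∀ r' ⊆ r, r' ∈ S)
    (hy : ∀ r ∈ P.powerset, |y r| ≤ if r ∈ S then 1 else 0)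
    {d : Finset α} (hd : d ∉ S) : lam h P y d = 0 := by
  unfold lam
  have : ∑ r ∈ P.powerset.filter (fun r => d ⊆ r), y r * ∏ q ∈ r \ d, h q = 0 := by
    apply Finset.sum_eq_zero
    intro r hr
    obtain ⟨hr1, hr2⟩ := Finset.mem_filter.1 hr
    have h1 : r ∉ S := fun hh => hd (hdown r hh d hr2)
    have h2 := hy r hr1
    rw [if_neg h1] at h2
    have : y r = 0 := abs_eq_zero.1 (le_antisymm h2 (abs_nonneg _))
    rw [this, zero_mul]
  rw [this, mul_zero]

/-- the probability that `D` contains a given set -/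
theorem ww_sum {I : Finset α} (hI : I ⊆ P) :
    ∑ D ∈ P.powerset, (if I ⊆ D then ww h P D else 0) = ∏ q ∈ I, gg h q := by
  have h1 : ∀ D ∈ P.powerset, (if I ⊆ D then ww h P D else 0) =
      (∏ q ∈ D, gg h q) * ∏ q ∈ P \ D, ((1 - gg h q) * if q ∈ I then 0 else 1) := by
    intro D hD
    rw [Finset.prod_mul_distrib]
    split_ifs with hh
    · have : ∏ q ∈ P \ D, (if q ∈ I then (0 : ℝ) else 1) = 1 := by
        apply Finset.prod_eq_one
        intro q hq
        rw [if_neg]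
        exact fun h' => (Finset.mem_sdiff.1 hq).2 (hh h')
      rw [this, mul_one]
      rfl
    · obtain ⟨q, hq, hqD⟩ := Finset.not_subset.1 hh
      have : ∏ q ∈ P \ D, (if q ∈ I then (0 : ℝ) else 1) = 0 :=
        Finset.prod_eq_zero (Finset.mem_sdiff.2 ⟨hI hq, hqD⟩) (if_pos hq)
      rw [this, mul_zero, mul_zero]
  rw [Finset.sum_congr rfl h1, ← Finset.prod_add]
  rw [← Finset.prod_sdiff hI]
  have h2 : ∏ q ∈ P \ I, (gg h q + (1 - gg h q) * if q ∈ I then 0 else 1) = 1 := by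
    apply Finset.prod_eq_one
    intro q hq
    rw [if_neg (Finset.mem_sdiff.1 hq).2]
    ring
  rw [h2, one_mul]
  refine Finset.prod_congr rfl fun q hq => ?_
  rw [if_pos hq]
  ring

/-- expansion of `(1 - |D|) FY(D)²` -/
theorem expand_sq {D : Finset α} (hD : D ⊆ P) :
    (1 - (D.card : ℝ)) * FY h P y D ^ 2 =
      ∑ d₁ ∈ P.powerset, ∑ d₂ ∈ P.powerset, lam h P y d₁ * lam h P y d₂ *
        ((if d₁ ∪ d₂ ⊆ D then 1 else 0) - ∑ q ∈ P, if insert q (d₁ ∪ d₂) ⊆ D then 1 else 0) := by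
  rw [FY_eq, sq, Finset.sum_mul_sum, Finset.mul_sum]
  refine Finset.sum_congr rfl fun d₁ _ => ?_
  rw [Finset.mul_sum]
  refine Finset.sum_congr rfl fun d₂ _ => ?_
  by_cases hu : d₁ ∪ d₂ ⊆ D
  · have h1 : d₁ ⊆ D := Finset.subset_union_left.trans hu
    have h2 : d₂ ⊆ D := Finset.subset_union_right.trans hu
    have h3 : ∑ q ∈ P, (if insert q (d₁ ∪ d₂) ⊆ D then (1 : ℝ) else 0) = D.card := by
      have : ∀ q ∈ P, (if insert q (d₁ ∪ d₂) ⊆ D then (1 : ℝ) else 0) = if q ∈ D then 1 else 0 := by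
        intro q _
        have : insert q (d₁ ∪ d₂) ⊆ D ↔ q ∈ D := by
          rw [Finset.insert_subset_iff]
          exact ⟨fun hh => hh.1, fun hh => ⟨hh, hu⟩⟩
        simp only [this]
      rw [Finset.sum_congr rfl this, Finset.sum_ite_mem, Finset.inter_eq_right.2 hD,
        Finset.sum_const, nsmul_eq_mul, mul_one]
    rw [if_pos h1, if_pos h2, if_pos hu, h3]
    ring
  · have h3 : ∑ q ∈ P, (if insert q (d₁ ∪ d₂) ⊆ D then (1 : ℝ) else 0) = 0 := by
      apply Finset.sum_eq_zero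
      intro q _
      rw [if_neg]
      intro hh
      exact hu ((Finset.subset_insert _ _).trans hh)
    rw [if_neg hu, h3]
    by_cases h1 : d₁ ⊆ D
    · have h2 : ¬ d₂ ⊆ D := fun hh => hu (Finset.union_subset h1 hh)
      rw [if_neg h2]
      ring
    · rw [if_neg h1]
      ring

/-- the lower bound sieve -/
theorem lower_sieve {β : Type} (hP : ∀ q ∈ P, 0 < h q) {S T : Finset (Finset α)}
    (hS : ∀ r ∈ S, r ⊆ P) (hdown : ∀ r ∈ S, ∀ r' ⊆ r, r' ∈ S)
    (hy : ∀ r ∈ P.powerset, |y r| ≤ if r ∈ S then 1 else 0)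
    (hT1 : ∀ d₁ ∈ S, ∀ d₂ ∈ S, d₁ ∪ d₂ ∈ T)
    (hT2 : ∀ d₁ ∈ S, ∀ d₂ ∈ S, ∀ q ∈ P, insert q (d₁ ∪ d₂) ∈ T)
    (Ω : Finset β) (W : β → ℝ) (hW : ∀ ω ∈ Ω, 0 ≤ W ω) (D : β → Finset α)
    (hD : ∀ ω ∈ Ω, D ω ⊆ P) (X : ℝ) (err : Finset α → ℝ)
    (herr : ∀ I ∈ T, |∑ ω ∈ Ω, (if I ⊆ D ω then W ω else 0) - X * ∏ q ∈ I, gg h q| ≤ err I) :
    X * (∑ r ∈ P.powerset, y r ^ 2 * ∏ q ∈ r, h q -
      ∑ q ∈ P, gg h q * ∑ r ∈ (P.erase q).powerset, (y r - y (insert q r)) ^ 2 * ∏ p ∈ r, h p) -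
      (∑ r ∈ S, ∏ q ∈ r, h q) ^ 2 * (2 * ∑ I ∈ T, 8 ^ I.card * err I) ≤
    (∑ r ∈ P.powerset, y r * ∏ q ∈ r, h q) ^ 2 * ∑ ω ∈ Ω, (if D ω = ∅ then W ω else 0) := by
  classical
  set G : ℝ := ∑ r ∈ S, ∏ q ∈ r, h q with hG
  have hG0 : 0 ≤ G := Finset.sum_nonneg fun r hr => Finset.prod_nonneg fun q hq =>
    (hP q (hS r hr hq)).le
  set M : Finset α → ℝ := fun I => ∑ ω ∈ Ω, (if I ⊆ D ω then W ω else 0) with hM
  set E : Finset α → ℝ := fun I => M I - X * ∏ q ∈ I, gg h q with hE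
  have hET : ∀ I ∈ T, |E I| ≤ err I := herr
  have herr0 : ∀ I ∈ T, 0 ≤ err I := fun I hI => (abs_nonneg _).trans (herr I hI)
  -- step 1
  have s1 : ∑ ω ∈ Ω, W ω * ((1 - ((D ω).card : ℝ)) * FY h P y (D ω) ^ 2) ≤
      (∑ r ∈ P.powerset, y r * ∏ q ∈ r, h q) ^ 2 * ∑ ω ∈ Ω, (if D ω = ∅ then W ω else 0) := by
    rw [Finset.mul_sum]
    refine Finset.sum_le_sum fun ω hω => ?_
    split_ifs with hh
    · rw [hh]
      have : FY h P y ∅ = ∑ r ∈ P.powerset, y r * ∏ q ∈ r, h q := by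
        unfold FY
        refine Finset.sum_congr rfl fun r _ => ?_
        congr 1
      rw [this, Finset.card_empty]
      apply le_of_eq
      push_cast
      ring
    · rw [mul_zero]
      have h1 : (1 : ℝ) ≤ (D ω).card := by
        exact_mod_cast Finset.card_pos.2 (Finset.nonempty_iff_ne_empty.2 hh)
      have h2 : 0 ≤ FY h P y (D ω) ^ 2 := sq_nonneg _
      have h3 := hW ω hω
      have h4 : (1 - ((D ω).card : ℝ)) * FY h P y (D ω) ^ 2 ≤ 0 :=
        mul_nonpos_of_nonpos_of_nonneg (by linarith) h2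
      exact mul_nonpos_of_nonneg_of_nonpos h3 h4
  -- step 2: the expansion over `Ω`
  have s2 : ∑ ω ∈ Ω, W ω * ((1 - ((D ω).card : ℝ)) * FY h P y (D ω) ^ 2) =
      ∑ d₁ ∈ P.powerset, ∑ d₂ ∈ P.powerset, lam h P y d₁ * lam h P y d₂ *
        (M (d₁ ∪ d₂) - ∑ q ∈ P, M (insert q (d₁ ∪ d₂))) := by
    have h1 : ∀ ω ∈ Ω, W ω * ((1 - ((D ω).card : ℝ)) * FY h P y (D ω) ^ 2) =
        ∑ d₁ ∈ P.powerset, ∑ d₂ ∈ P.powerset, lam h P y d₁ * lam h P y d₂ *
        ((if d₁ ∪ d₂ ⊆ D ω then W ω else 0) -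
          ∑ q ∈ P, if insert q (d₁ ∪ d₂) ⊆ D ω then W ω else 0) := by
      intro ω hω
      rw [expand_sq (hD ω hω), Finset.mul_sum]
      refine Finset.sum_congr rfl fun d₁ _ => ?_
      rw [Finset.mul_sum]
      refine Finset.sum_congr rfl fun d₂ _ => ?_
      have e1 : W ω * (if d₁ ∪ d₂ ⊆ D ω then (1 : ℝ) else 0) =
          if d₁ ∪ d₂ ⊆ D ω then W ω else 0 := by split_ifs <;> ring
      have e2 : W ω * ∑ q ∈ P, (if insert q (d₁ ∪ d₂) ⊆ D ω then (1 : ℝ) else 0) =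
          ∑ q ∈ P, if insert q (d₁ ∪ d₂) ⊆ D ω then W ω else 0 := by
        rw [Finset.mul_sum]
        refine Finset.sum_congr rfl fun q _ => ?_
        split_ifs <;> ring
      rw [← e1, ← e2]
      ring
    rw [Finset.sum_congr rfl h1, Finset.sum_comm]
    refine Finset.sum_congr rfl fun d₁ _ => ?_
    rw [Finset.sum_comm]
    refine Finset.sum_congr rfl fun d₂ _ => ?_
    rw [← Finset.mul_sum, Finset.sum_sub_distrib, Finset.sum_comm]
  -- step 3: the expansion in the model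
  have s3 : ∑ D ∈ P.powerset, ww h P D * ((1 - (D.card : ℝ)) * FY h P y D ^ 2) =
      ∑ d₁ ∈ P.powerset, ∑ d₂ ∈ P.powerset, lam h P y d₁ * lam h P y d₂ *
        (∏ q ∈ d₁ ∪ d₂, gg h q - ∑ q ∈ P, ∏ p ∈ insert q (d₁ ∪ d₂), gg h p) := by
    have h1 : ∀ D ∈ P.powerset, ww h P D * ((1 - (D.card : ℝ)) * FY h P y D ^ 2) =
        ∑ d₁ ∈ P.powerset, ∑ d₂ ∈ P.powerset, lam h P y d₁ * lam h P y d₂ *
        ((if d₁ ∪ d₂ ⊆ D then ww h P D else 0) -
          ∑ q ∈ P, if insert q (d₁ ∪ d₂) ⊆ D then ww h P D else 0) := by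
      intro D hD
      rw [expand_sq (Finset.mem_powerset.1 hD), Finset.mul_sum]
      refine Finset.sum_congr rfl fun d₁ _ => ?_
      rw [Finset.mul_sum]
      refine Finset.sum_congr rfl fun d₂ _ => ?_
      have e1 : ww h P D * (if d₁ ∪ d₂ ⊆ D then (1 : ℝ) else 0) =
          if d₁ ∪ d₂ ⊆ D then ww h P D else 0 := by split_ifs <;> ring
      have e2 : ww h P D * ∑ q ∈ P, (if insert q (d₁ ∪ d₂) ⊆ D then (1 : ℝ) else 0) =
          ∑ q ∈ P, if insert q (d₁ ∪ d₂) ⊆ D then ww h P D else 0 := by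
        rw [Finset.mul_sum]
        refine Finset.sum_congr rfl fun q _ => ?_
        split_ifs <;> ring
      rw [← e1, ← e2]
      ring
    rw [Finset.sum_congr rfl h1, Finset.sum_comm]
    refine Finset.sum_congr rfl fun d₁ hd₁ => ?_
    rw [Finset.sum_comm]
    refine Finset.sum_congr rfl fun d₂ hd₂ => ?_
    have hu : d₁ ∪ d₂ ⊆ P :=
      Finset.union_subset (Finset.mem_powerset.1 hd₁) (Finset.mem_powerset.1 hd₂)
    rw [← Finset.mul_sum, Finset.sum_sub_distrib, Finset.sum_comm, ww_sum hu]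
    congr 2
    refine Finset.sum_congr rfl fun q hq => ?_
    exact ww_sum (Finset.insert_subset hq hu)
  -- the difference
  have s4 : ∑ ω ∈ Ω, W ω * ((1 - ((D ω).card : ℝ)) * FY h P y (D ω) ^ 2) -
      X * ∑ D ∈ P.powerset, ww h P D * ((1 - (D.card : ℝ)) * FY h P y D ^ 2) =
      ∑ d₁ ∈ P.powerset, ∑ d₂ ∈ P.powerset, lam h P y d₁ * lam h P y d₂ *
        (E (d₁ ∪ d₂) - ∑ q ∈ P, E (insert q (d₁ ∪ d₂))) := by
    rw [s2, s3, Finset.mul_sum, ← Finset.sum_sub_distrib]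
    refine Finset.sum_congr rfl fun d₁ _ => ?_
    rw [Finset.mul_sum, ← Finset.sum_sub_distrib]
    refine Finset.sum_congr rfl fun d₂ _ => ?_
    simp only [hE]
    rw [Finset.sum_sub_distrib, ← Finset.mul_sum]
    ring
  have hSP : S ⊆ P.powerset := fun r hr => Finset.mem_powerset.2 (hS r hr)
  have s5 : ∑ d₁ ∈ P.powerset, ∑ d₂ ∈ P.powerset, lam h P y d₁ * lam h P y d₂ *
        (E (d₁ ∪ d₂) - ∑ q ∈ P, E (insert q (d₁ ∪ d₂))) =
      ∑ d₁ ∈ S, ∑ d₂ ∈ S, lam h P y d₁ * lam h P y d₂ *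
        (E (d₁ ∪ d₂) - ∑ q ∈ P, E (insert q (d₁ ∪ d₂))) := by
    symm
    have h1 : ∀ d₁, ∑ d₂ ∈ S, lam h P y d₁ * lam h P y d₂ *
        (E (d₁ ∪ d₂) - ∑ q ∈ P, E (insert q (d₁ ∪ d₂))) =
        ∑ d₂ ∈ P.powerset, lam h P y d₁ * lam h P y d₂ *
        (E (d₁ ∪ d₂) - ∑ q ∈ P, E (insert q (d₁ ∪ d₂))) := by
      intro d₁
      apply Finset.sum_subset hSP
      intro d₂ _ hd₂
      rw [lam_zero hdown hy hd₂, mul_zero, zero_mul]
    simp_rw [h1]
    apply Finset.sum_subset hSP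
    intro d₁ _ hd₁
    apply Finset.sum_eq_zero
    intro d₂ _
    rw [lam_zero hdown hy hd₁, zero_mul, zero_mul]
  -- the error terms
  have s6 : |∑ d₁ ∈ S, ∑ d₂ ∈ S, lam h P y d₁ * lam h P y d₂ *
        (E (d₁ ∪ d₂) - ∑ q ∈ P, E (insert q (d₁ ∪ d₂)))| ≤
      G ^ 2 * (∑ d₁ ∈ S, ∑ d₂ ∈ S, err (d₁ ∪ d₂) +
        ∑ d₁ ∈ S, ∑ d₂ ∈ S, ∑ q ∈ P, err (insert q (d₁ ∪ d₂))) := by
    rw [← Finset.sum_add_distrib, Finset.mul_sum]
    refine (Finset.abs_sum_le_sum_abs _ _).trans (Finset.sum_le_sum fun d₁ hd₁ => ?_)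
    rw [← Finset.sum_add_distrib, Finset.mul_sum]
    refine (Finset.abs_sum_le_sum_abs _ _).trans (Finset.sum_le_sum fun d₂ hd₂ => ?_)
    rw [abs_mul, abs_mul, sq]
    have h1 := lam_le hP hS hdown hy (hS d₁ hd₁)
    have h2 := lam_le hP hS hdown hy (hS d₂ hd₂)
    apply mul_le_mul (mul_le_mul h1 h2 (abs_nonneg _) hG0) _ (abs_nonneg _) (by positivity)
    refine (abs_sub _ _).trans (add_le_add (hET _ (hT1 d₁ hd₁ d₂ hd₂)) ?_)
    refine (Finset.abs_sum_le_sum_abs _ _).trans (Finset.sum_le_sum fun q hq => ?_)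
    exact hET _ (hT2 d₁ hd₁ d₂ hd₂ q hq)
  -- counting
  have c1 : ∑ d₁ ∈ S, ∑ d₂ ∈ S, err (d₁ ∪ d₂) ≤ ∑ I ∈ T, 8 ^ I.card * err I := by
    rw [← Finset.sum_product', ← Finset.sum_fiberwise_of_maps_to
      (g := fun x : Finset α × Finset α => x.1 ∪ x.2) (t := T) (by
        rintro ⟨d₁, d₂⟩ hx
        rw [Finset.mem_product] at hx
        exact hT1 _ hx.1 _ hx.2)]
    refine Finset.sum_le_sum fun I hI => ?_
    have h1 : ∀ x ∈ (S ×ˢ S).filter (fun x : Finset α × Finset α => x.1 ∪ x.2 = I),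
        err (x.1 ∪ x.2) = err I := fun x hx => by rw [(Finset.mem_filter.1 hx).2]
    rw [Finset.sum_congr rfl h1, Finset.sum_const, nsmul_eq_mul]
    apply mul_le_mul_of_nonneg_right _ (herr0 I hI)
    have h2 : ((S ×ˢ S).filter (fun x : Finset α × Finset α => x.1 ∪ x.2 = I)).card ≤
        (I.powerset ×ˢ I.powerset).card := by
      apply Finset.card_le_card
      rintro ⟨d₁, d₂⟩ hx
      obtain ⟨-, h3⟩ := Finset.mem_filter.1 hx
      simp only at h3
      rw [Finset.mem_product, Finset.mem_powerset, Finset.mem_powerset]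
      simp only
      rw [← h3]
      exact ⟨Finset.subset_union_left, Finset.subset_union_right⟩
    rw [Finset.card_product, Finset.card_powerset] at h2
    calc (((S ×ˢ S).filter (fun x : Finset α × Finset α => x.1 ∪ x.2 = I)).card : ℝ)
        ≤ ((2 ^ I.card * 2 ^ I.card : ℕ) : ℝ) := by exact_mod_cast h2
      _ = (4 : ℝ) ^ I.card := by
          push_cast
          rw [← mul_pow]
          norm_num
      _ ≤ 8 ^ I.card := pow_le_pow_left₀ (by norm_num) (by norm_num) _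
  have c2 : ∑ d₁ ∈ S, ∑ d₂ ∈ S, ∑ q ∈ P, err (insert q (d₁ ∪ d₂)) ≤
      ∑ I ∈ T, 8 ^ I.card * err I := by
    have e0 : ∑ d₁ ∈ S, ∑ d₂ ∈ S, ∑ q ∈ P, err (insert q (d₁ ∪ d₂)) =
        ∑ x ∈ S ×ˢ (S ×ˢ P), err (insert x.2.2 (x.1 ∪ x.2.1)) := by
      rw [Finset.sum_product]
      refine Finset.sum_congr rfl fun d₁ _ => ?_
      rw [Finset.sum_product]
    rw [e0, ← Finset.sum_fiberwise_of_maps_to
      (g := fun x : Finset α × (Finset α × α) => insert x.2.2 (x.1 ∪ x.2.1)) (t := T) (by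
        rintro ⟨d₁, d₂, q⟩ hx
        rw [Finset.mem_product, Finset.mem_product] at hx
        exact hT2 _ hx.1 _ hx.2.1 _ hx.2.2)]
    refine Finset.sum_le_sum fun I hI => ?_
    have h1 : ∀ x ∈ (S ×ˢ (S ×ˢ P)).filter
        (fun x : Finset α × (Finset α × α) => insert x.2.2 (x.1 ∪ x.2.1) = I),
        err (insert x.2.2 (x.1 ∪ x.2.1)) = err I := fun x hx => by rw [(Finset.mem_filter.1 hx).2]
    rw [Finset.sum_congr rfl h1, Finset.sum_const, nsmul_eq_mul]
    apply mul_le_mul_of_nonneg_right _ (herr0 I hI)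
    have h2 : ((S ×ˢ (S ×ˢ P)).filter
        (fun x : Finset α × (Finset α × α) => insert x.2.2 (x.1 ∪ x.2.1) = I)).card ≤
        (I.powerset ×ˢ (I.powerset ×ˢ I)).card := by
      apply Finset.card_le_card
      rintro ⟨d₁, d₂, q⟩ hx
      obtain ⟨-, h3⟩ := Finset.mem_filter.1 hx
      simp only at h3
      rw [Finset.mem_product, Finset.mem_product, Finset.mem_powerset, Finset.mem_powerset]
      simp only
      rw [← h3]
      exact ⟨Finset.subset_union_left.trans (Finset.subset_insert _ _),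
        Finset.subset_union_right.trans (Finset.subset_insert _ _), Finset.mem_insert_self _ _⟩
    rw [Finset.card_product, Finset.card_product, Finset.card_powerset] at h2
    have h4 : 2 ^ I.card * (2 ^ I.card * I.card) ≤ 8 ^ I.card := by
      have h5 : I.card ≤ 2 ^ I.card := Nat.lt_two_pow_self.le
      calc 2 ^ I.card * (2 ^ I.card * I.card) ≤ 2 ^ I.card * (2 ^ I.card * 2 ^ I.card) := by
            gcongr
        _ = 8 ^ I.card := by
            rw [← mul_pow, ← mul_pow]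
            norm_num
    exact_mod_cast h2.trans h4
  -- the end
  have s7 := expect_main (y := y) hP
  have s8 := (abs_le.1 s6).1
  rw [← s5, ← s4] at s8
  rw [← s7]
  have hG2 : 0 ≤ G ^ 2 := sq_nonneg _
  have s9 : G ^ 2 * (∑ d₁ ∈ S, ∑ d₂ ∈ S, err (d₁ ∪ d₂) +
        ∑ d₁ ∈ S, ∑ d₂ ∈ S, ∑ q ∈ P, err (insert q (d₁ ∪ d₂))) ≤
      G ^ 2 * (2 * ∑ I ∈ T, 8 ^ I.card * err I) :=
    mul_le_mul_of_nonneg_left (by linarith) hG2
  linarith

end Pool.Agent.Helper63.LT2
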