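import Pool.Agent.Helper44.MertensInterval

/-!
# Project LT2: Mertens' theorems with the density `1 / (q - 1)`
-/

set_option autoImplicit false

open Finset Filter Topology

namespace Pool.Agent.Helper63.LT2

/-- `log q / (q - 1)` on the primes not dividing `V` -/
noncomputable def mc (V : ℕ) (k : ℕ) : ℝ :=
  if k.Prime ∧ ¬ k ∣ V then Real.log k / ((k : ℝ) - 1) else 0

/-- `1 / (q - 1)` on the primes not dividing `V` -/
noncomputable def gc (V : ℕ) (k : ℕ) : ℝ :=
  if k.Prime ∧ ¬ k ∣ V then 1 / ((k : ℝ) - 1) else 0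

theorem gc_nonneg (V k : ℕ) : 0 ≤ gc V k := by
  unfold gc
  split_ifs with h
  · have : (1 : ℝ) ≤ k := by exact_mod_cast h.1.one_le
    exact div_nonneg zero_le_one (by linarith)
  · exact le_rfl

theorem mc_eq (V k : ℕ) : mc V k = Real.log k * gc V k := by
  unfold mc gc
  split_ifs with h
  · ring
  · ring

theorem mc_zero (V : ℕ) : mc V 0 = 0 := by
  unfold mc
  rw [if_neg]
  rintro ⟨h, -⟩
  exact Nat.not_prime_zero h

theorem mert {V : ℕ} (hV : V ≠ 0) : ∃ C : ℝ, 0 ≤ C ∧ ∀ x : ℝ, 1 ≤ x →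
    |∑ k ∈ Icc 0 ⌊x⌋₊, mc V k - Real.log x| ≤ C := by
  obtain ⟨C, hC, hM⟩ := Pool.Agent.Helper44.mertens_first
  obtain ⟨D, hD⟩ : ∃ D : ℝ, D = ∑ p ∈ V.divisors, Real.log p := ⟨_, rfl⟩
  have hD0 : 0 ≤ D := by
    rw [hD]
    exact Finset.sum_nonneg fun p _ => Real.log_natCast_nonneg p
  have hpp := Pool.Agent.Helper44.ppC_nonneg
  refine ⟨C + Pool.Agent.Helper44.ppC + D + 1, by linarith, ?_⟩
  intro x hx
  obtain ⟨N, hN⟩ : ∃ N : ℕ, N = ⌊x⌋₊ := ⟨_, rfl⟩
  rw [← hN]
  have hN1 : 1 ≤ N := by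
    rw [hN]
    exact Nat.le_floor (by simpa using hx)
  have h1 := hM N hN1
  have hN0 : (0 : ℝ) < N := by exact_mod_cast hN1
  -- the logarithm
  have hl1 : Real.log N ≤ Real.log x := by
    apply Real.log_le_log hN0
    rw [hN]
    exact Nat.floor_le (by linarith)
  have hl2 : Real.log x ≤ Real.log N + 1 := by
    have h2 : x ≤ 2 * N := by
      have : x < N + 1 := by rw [hN]; exact Nat.lt_floor_add_one x
      have : (1 : ℝ) ≤ N := by exact_mod_cast hN1
      linarith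
    have h3 : Real.log x ≤ Real.log (2 * N) := Real.log_le_log (by linarith) h2
    rw [Real.log_mul (by norm_num) hN0.ne'] at h3
    have h4 : Real.log 2 ≤ 1 := by
      have := Real.log_two_lt_d9
      linarith
    linarith
  -- comparison
  obtain ⟨F, hF⟩ : ∃ F : ℕ → ℝ, F = fun k => if k.Prime then Real.log k / k else 0 := ⟨_, rfl⟩
  have h2 : ∑ q ∈ (Ioc 0 N).filter Nat.Prime, Real.log q / q = ∑ k ∈ Icc 0 N, F k := by
    rw [Finset.sum_filter]
    rw [hF]
    apply Finset.sum_subset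
    · intro k hk
      rw [Finset.mem_Ioc] at hk
      rw [Finset.mem_Icc]
      omega
    · intro k hk hk'
      rw [Finset.mem_Icc] at hk
      rw [Finset.mem_Ioc] at hk'
      have : k = 0 := by omega
      rw [this, if_neg Nat.not_prime_zero]
  rw [h2] at h1
  have h3 : |∑ k ∈ Icc 0 N, mc V k - ∑ k ∈ Icc 0 N, F k| ≤ Pool.Agent.Helper44.ppC + D := by
    rw [← Finset.sum_sub_distrib]
    refine (Finset.abs_sum_le_sum_abs _ _).trans ?_
    have h4 : ∀ k ∈ Icc 0 N, |mc V k - F k| ≤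
        4 / (k : ℝ) ^ (3 / 2 : ℝ) + (if k ∈ V.divisors then Real.log k else 0) := by
      intro k _
      have p1 : (0 : ℝ) ≤ 4 / (k : ℝ) ^ (3 / 2 : ℝ) := by positivity
      have p2 : (0 : ℝ) ≤ (if k ∈ V.divisors then Real.log k else 0) := by
        split_ifs
        · exact Real.log_natCast_nonneg k
        · exact le_rfl
      unfold mc
      rw [hF]
      simp only
      by_cases hk : k.Prime
      · have hk2 : (2 : ℝ) ≤ k := by exact_mod_cast hk.two_le
        have hlk : 0 ≤ Real.log k := Real.log_natCast_nonneg k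
        by_cases hkV : k ∣ V
        · rw [if_neg (by tauto), if_pos hk, if_pos (Nat.mem_divisors.2 ⟨hkV, hV⟩), zero_sub,
            abs_neg, abs_of_nonneg (by positivity)]
          have : Real.log k / k ≤ Real.log k := div_le_self hlk (by linarith)
          linarith
        · rw [if_pos ⟨hk, hkV⟩, if_pos hk]
          have h5 : Real.log k / ((k : ℝ) - 1) - Real.log k / k =
              Real.log k / (((k : ℝ) - 1) * k) := by
            have : (k : ℝ) - 1 ≠ 0 := by linarith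
            field_simp
            ring
          have h6 : Real.log k / (((k : ℝ) - 1) * k) ≤ Real.log k / (k : ℝ) ^ 2 * 2 := by
            rw [div_mul_eq_mul_div, div_le_div_iff₀ (by nlinarith) (by positivity), mul_assoc]
            apply mul_le_mul_of_nonneg_left _ hlk
            nlinarith
          rw [h5, abs_of_nonneg (div_nonneg hlk (by nlinarith))]
          have := Pool.Agent.Helper44.log_div_sq_le k
          linarith
      · rw [if_neg (by tauto), if_neg hk, sub_zero, abs_zero]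
        linarith
    refine (Finset.sum_le_sum h4).trans ?_
    rw [Finset.sum_add_distrib]
    apply add_le_add
    · exact Pool.Agent.Helper44.summable_ppC.sum_le_tsum _ (fun n _ => by positivity)
    · rw [← Finset.sum_filter, hD]
      apply Finset.sum_le_sum_of_subset_of_nonneg
      · intro k hk
        exact (Finset.mem_filter.1 hk).2
      · intro k _ _
        exact Real.log_natCast_nonneg k
  rw [abs_le] at h1 h3 ⊢
  constructor <;> linarith [h1.1, h1.2, h3.1, h3.2]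

/-- the sum of `1 / (q - 1)` is small compared with the logarithm -/
theorem gc_small {V : ℕ} (hV : V ≠ 0) {ε : ℝ} (hε : 0 < ε) : ∃ K : ℝ, 0 ≤ K ∧ ∀ x : ℝ, 1 ≤ x →
    ∑ k ∈ Icc 0 ⌊x⌋₊, gc V k ≤ ε * Real.log x + K := by
  obtain ⟨C, hC, hM⟩ := mert hV
  obtain ⟨Q, hQ⟩ : ∃ Q : ℕ, 1 / ε ≤ Real.log Q ∧ 2 ≤ Q := by
    have h1 := (Real.tendsto_log_atTop.comp tendsto_natCast_atTop_atTop).eventually_ge_atTop (1 / ε)
    obtain ⟨Q, hQ⟩ := (h1.and (eventually_ge_atTop 2)).exists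
    exact ⟨Q, hQ.1, hQ.2⟩
  obtain ⟨hQ1, hQ2⟩ := hQ
  have hlQ : 0 < Real.log Q := lt_of_lt_of_le (by positivity) hQ1
  have hlQ' : 1 ≤ ε * Real.log Q := by
    rw [div_le_iff₀ hε] at hQ1
    linarith
  have hK0 : 0 ≤ ∑ k ∈ Icc 0 Q, gc V k := Finset.sum_nonneg fun k _ => gc_nonneg V k
  refine ⟨∑ k ∈ Icc 0 Q, gc V k + ε * C, by positivity, ?_⟩
  intro x hx
  have h1 : ∀ k ∈ Icc 0 ⌊x⌋₊, gc V k ≤ ε * mc V k + if k ≤ Q then gc V k else 0 := by
    intro k _
    have h2 := gc_nonneg V k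
    rw [mc_eq]
    split_ifs with hk
    · have : 0 ≤ ε * (Real.log k * gc V k) :=
        mul_nonneg hε.le (mul_nonneg (Real.log_natCast_nonneg k) h2)
      linarith
    · push Not at hk
      have h3 : Real.log Q ≤ Real.log k := by
        apply Real.log_le_log
        · exact_mod_cast (by omega : 0 < Q)
        · exact_mod_cast hk.le
      have h4 : ε * Real.log Q ≤ ε * Real.log k := mul_le_mul_of_nonneg_left h3 hε.le
      have h5 : 1 * gc V k ≤ ε * Real.log k * gc V k :=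
        mul_le_mul_of_nonneg_right (by linarith) h2
      linarith
  refine (Finset.sum_le_sum h1).trans ?_
  rw [Finset.sum_add_distrib, ← Finset.mul_sum]
  have h2 := (abs_le.1 (hM x hx)).2
  have h3 : ∑ k ∈ Icc 0 ⌊x⌋₊, (if k ≤ Q then gc V k else 0) ≤ ∑ k ∈ Icc 0 Q, gc V k := by
    rw [← Finset.sum_filter]
    apply Finset.sum_le_sum_of_subset_of_nonneg
    · intro k hk
      have := (Finset.mem_filter.1 hk).2
      rw [Finset.mem_Icc]
      omega
    · intro k _ _
      exact gc_nonneg V k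
  have h4 : ε * ∑ k ∈ Icc 0 ⌊x⌋₊, mc V k ≤ ε * (Real.log x + C) :=
    mul_le_mul_of_nonneg_left (by linarith) hε.le
  linarith

/-- the sum of `1 / (q - 1)` over an interval -/
theorem gc_interval (V : ℕ) : ∃ C : ℝ, 0 ≤ C ∧ ∀ x y : ℝ, 2 ≤ x → x ≤ y →
    ∑ k ∈ Ioc ⌊x⌋₊ ⌊y⌋₊, gc V k ≤ Real.log (Real.log y / Real.log x) + C / Real.log x := by
  obtain ⟨C, hC, hM⟩ := Pool.Agent.Helper44.mertens_interval
  refine ⟨C + 4, by linarith, ?_⟩
  intro x y hx hxy
  have hlx : 0 < Real.log x := Real.log_pos (by linarith)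
  have h1 := (abs_le.1 (hM x y hx hxy)).2
  have h2 : ∀ k ∈ Ioc ⌊x⌋₊ ⌊y⌋₊, gc V k ≤ (if k.Prime then (1 : ℝ) / k else 0) +
      2 * ((k : ℝ) ^ 2)⁻¹ := by
    intro k hk
    unfold gc
    have p2 : (0 : ℝ) ≤ 2 * ((k : ℝ) ^ 2)⁻¹ := by positivity
    by_cases hkp : k.Prime
    · rw [if_pos hkp]
      have hk2 : (2 : ℝ) ≤ k := by exact_mod_cast hkp.two_le
      have h3 : 1 / ((k : ℝ) - 1) ≤ 1 / k + 2 * ((k : ℝ) ^ 2)⁻¹ := by
        have h4 : 1 / ((k : ℝ) - 1) - 1 / k = 1 / (((k : ℝ) - 1) * k) := by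
          have : (k : ℝ) - 1 ≠ 0 := by linarith
          field_simp
          ring
        have h5 : 1 / (((k : ℝ) - 1) * k) ≤ 2 * ((k : ℝ) ^ 2)⁻¹ := by
          rw [← div_eq_mul_inv, div_le_div_iff₀ (by nlinarith) (by positivity)]
          nlinarith
        linarith
      split_ifs
      · exact h3
      · positivity
    · rw [if_neg hkp, if_neg (by tauto)]
      linarith
  refine (Finset.sum_le_sum h2).trans ?_
  rw [Finset.sum_add_distrib, ← Finset.sum_filter, ← Finset.mul_sum]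
  have h3 : 2 * ∑ k ∈ Ioc ⌊x⌋₊ ⌊y⌋₊, ((k : ℝ) ^ 2)⁻¹ ≤ 4 / Real.log x := by
    have hm : 0 < ⌊x⌋₊ := Nat.floor_pos.2 (by linarith)
    have h4 := sum_Ioc_inv_sq_le_sub (α := ℝ) hm.ne' (Nat.floor_le_floor hxy)
    have h5 : (0 : ℝ) ≤ ((⌊y⌋₊ : ℕ) : ℝ)⁻¹ := by positivity
    have h6 : ((⌊x⌋₊ : ℕ) : ℝ)⁻¹ ≤ 2 / Real.log x := by
      have hm' : (0 : ℝ) < ⌊x⌋₊ := by exact_mod_cast hm
      rw [inv_eq_one_div, div_le_div_iff₀ hm' hlx]
      have h7 : x < ⌊x⌋₊ + 1 := Nat.lt_floor_add_one x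
      have h8 : Real.log x ≤ x - 1 := Real.log_le_sub_one_of_pos (by linarith)
      linarith
    calc 2 * ∑ k ∈ Ioc ⌊x⌋₊ ⌊y⌋₊, ((k : ℝ) ^ 2)⁻¹ ≤ 2 * (2 / Real.log x) := by
          apply mul_le_mul_of_nonneg_left _ (by norm_num)
          linarith
      _ = 4 / Real.log x := by ring
  have h4 : (C + 4) / Real.log x = C / Real.log x + 4 / Real.log x := by ring
  rw [h4]
  linarith

end Pool.Agent.Helper63.LT2
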