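import Pool.Agent.Helper63.LT2.Pos
import Pool.Agent.Helper63.LT2.Abel
import Pool.Agent.Helper63.LT2.Mert
import Pool.Agent.Helper63.LT2.Lower

/-!
# Project LT2: the main term of the lower bound sieve
-/

set_option autoImplicit false

open Finset Filter Topology

namespace Pool.Agent.Helper63.LT2

/-- The weights of the sieve. -/
noncomputable def hq (q : ℕ) : ℝ := 1 / ((q : ℝ) - 2)

/-- The cut-off function. -/
noncomputable def YY (R n : ℝ) : ℝ := max 0 (1 - Real.log n / Real.log R)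

/-- The cut-off function on sets of primes. -/
noncomputable def yy (R : ℝ) (r : Finset ℕ) : ℝ := YY R ((∏ q ∈ r, q : ℕ) : ℝ)

theorem fA_div {V n : ℕ} (hn : Squarefree n) (hnV : n.Coprime V) :
    fA V n / n = ∏ q ∈ n.primeFactors, hq q := by
  rw [fA_apply, if_pos ⟨hn, hnV⟩]
  have h1 : (n : ℝ) = ∏ q ∈ n.primeFactors, (q : ℝ) := by
    have := Nat.prod_primeFactors_of_squarefree hn
    conv_lhs => rw [← this]
    push_cast
    rfl
  conv_lhs => rw [h1]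
  rw [← Finset.prod_div_distrib]
  refine Finset.prod_congr rfl fun q hq' => ?_
  have : (0 : ℝ) < q := by exact_mod_cast (Nat.prime_of_mem_primeFactors hq').pos
  unfold hq
  field_simp

theorem subset_sum {V N : ℕ} {P : Finset ℕ} (hP : ∀ q ∈ P, q.Prime ∧ ¬ q ∣ V)
    (hP' : ∀ q : ℕ, q.Prime → ¬ q ∣ V → q ≤ N → q ∈ P) (F : ℕ → ℝ) (hF : ∀ n, N < n → F n = 0) :
    ∑ r ∈ P.powerset, F (∏ q ∈ r, q) * ∏ q ∈ r, hq q =
      ∑ n ∈ Icc 0 N, F n * (fA V n / n) := by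
  classical
  have e1 : ∑ r ∈ P.powerset, F (∏ q ∈ r, q) * ∏ q ∈ r, hq q =
      ∑ r ∈ P.powerset.filter (fun r => ∏ q ∈ r, q ≤ N), F (∏ q ∈ r, q) * ∏ q ∈ r, hq q := by
    symm
    apply Finset.sum_subset (Finset.filter_subset _ _)
    intro r hr hr'
    have : N < ∏ q ∈ r, q := by
      by_contra h
      exact hr' (Finset.mem_filter.2 ⟨hr, not_lt.1 h⟩)
    rw [hF _ this, zero_mul]
  have e2 : ∑ n ∈ Icc 0 N, F n * (fA V n / n) =
      ∑ n ∈ (Icc 0 N).filter (fun n => Squarefree n ∧ n.Coprime V), F n * (fA V n / n) := by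
    symm
    apply Finset.sum_subset (Finset.filter_subset _ _)
    intro n hn hn'
    have : ¬ (Squarefree n ∧ n.Coprime V) := fun h => hn' (Finset.mem_filter.2 ⟨hn, h⟩)
    rw [fA_apply, if_neg this, zero_div, mul_zero]
  rw [e1, e2]
  refine Finset.sum_bij' (fun r _ => ∏ q ∈ r, q) (fun n _ => n.primeFactors) ?_ ?_ ?_ ?_ ?_
  · intro r hr
    obtain ⟨hr1, hr2⟩ := Finset.mem_filter.1 hr
    rw [Finset.mem_powerset] at hr1
    rw [Finset.mem_filter, Finset.mem_Icc]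
    refine ⟨⟨Nat.zero_le _, hr2⟩, ?_, ?_⟩
    · exact Pool.Agent.Helper69.EK.squarefree_prod_primes _ (fun p hp => (hP p (hr1 hp)).1)
    · apply Nat.Coprime.prod_left
      intro q hq
      exact (Nat.Prime.coprime_iff_not_dvd (hP q (hr1 hq)).1).2 (hP q (hr1 hq)).2
  · intro n hn
    obtain ⟨hn1, hn2, hn3⟩ := Finset.mem_filter.1 hn
    rw [Finset.mem_Icc] at hn1
    have hn0 : n ≠ 0 := hn2.ne_zero
    rw [Finset.mem_filter, Finset.mem_powerset]
    refine ⟨?_, ?_⟩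
    · intro q hq
      have hqp := Nat.prime_of_mem_primeFactors hq
      have hqn := Nat.dvd_of_mem_primeFactors hq
      apply hP' q hqp
      · intro h
        have := Nat.dvd_gcd hqn h
        rw [hn3] at this
        exact hqp.one_lt.ne' (Nat.dvd_one.1 this)
      · exact (Nat.le_of_dvd (Nat.pos_of_ne_zero hn0) hqn).trans hn1.2
    · rw [Nat.prod_primeFactors_of_squarefree hn2]
      exact hn1.2
  · intro r hr
    obtain ⟨hr1, hr2⟩ := Finset.mem_filter.1 hr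
    rw [Finset.mem_powerset] at hr1
    exact Nat.primeFactors_prod fun p hp => (hP p (hr1 hp)).1
  · intro n hn
    obtain ⟨hn1, hn2, hn3⟩ := Finset.mem_filter.1 hn
    exact Nat.prod_primeFactors_of_squarefree hn2
  · intro r hr
    obtain ⟨hr1, hr2⟩ := Finset.mem_filter.1 hr
    rw [Finset.mem_powerset] at hr1
    have hsq : Squarefree (∏ q ∈ r, q) :=
      Pool.Agent.Helper69.EK.squarefree_prod_primes _ (fun p hp => (hP p (hr1 hp)).1)
    have hco : (∏ q ∈ r, q).Coprime V := by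
      apply Nat.Coprime.prod_left
      intro q hq
      exact (Nat.Prime.coprime_iff_not_dvd (hP q (hr1 hq)).1).2 (hP q (hr1 hq)).2
    rw [fA_div hsq hco, Nat.primeFactors_prod fun p hp => (hP p (hr1 hp)).1]

section

variable {R : ℝ}

theorem YY_nonneg (R n : ℝ) : 0 ≤ YY R n := le_max_left _ _

theorem YY_le_one (hR : 1 < R) {n : ℝ} (hn : 1 ≤ n) : YY R n ≤ 1 := by
  unfold YY
  apply max_le zero_le_one
  have : 0 ≤ Real.log n / Real.log R := div_nonneg (Real.log_nonneg hn) (Real.log_pos hR).le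
  linarith

theorem YY_of_le (hR : 1 < R) {n : ℝ} (hn : 0 < n) (hnR : n ≤ R) :
    YY R n = 1 - Real.log n / Real.log R := by
  unfold YY
  apply max_eq_right
  have h1 : Real.log n ≤ Real.log R := Real.log_le_log hn hnR
  have h2 := Real.log_pos hR
  rw [sub_nonneg, div_le_one h2]
  exact h1

theorem YY_of_lt (hR : 1 < R) {n : ℝ} (hnR : R < n) : YY R n = 0 := by
  unfold YY
  apply max_eq_left
  have h1 : Real.log R ≤ Real.log n := Real.log_le_log (by linarith) hnR.le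
  have h2 := Real.log_pos hR
  rw [sub_nonpos, one_le_div h2]
  exact h1

/-- The sum in the second term. -/
noncomputable def TT (V : ℕ) (R q : ℝ) : ℝ :=
  ∑ n ∈ Icc 0 ⌊R⌋₊, (YY R n - YY R (n * q)) ^ 2 * (fA V n / n)

/-- the first logarithmic moment -/
noncomputable def S1 (V : ℕ) (t : ℝ) : ℝ :=
  ∑ k ∈ Icc 0 ⌊t⌋₊, (Real.log t - Real.log k) * (fA V k / k)

/-- the second logarithmic moment -/
noncomputable def S2 (V : ℕ) (t : ℝ) : ℝ :=
  ∑ k ∈ Icc 0 ⌊t⌋₊, (Real.log t - Real.log k) ^ 2 * (fA V k / k)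

theorem TT_id (V : ℕ) (hR : 1 < R) {q : ℝ} (hq1 : 1 ≤ q) (hqR : q ≤ R) :
    Real.log R ^ 2 * TT V R q = S2 V R - S2 V (R / q) - 2 * Real.log q * S1 V (R / q) := by
  have hL := Real.log_pos hR
  have hR0 : 0 < R := by linarith
  have hq0 : 0 < q := by linarith
  have hlq : Real.log (R / q) = Real.log R - Real.log q := Real.log_div hR0.ne' hq0.ne'
  unfold TT S1 S2
  have hfl : ⌊R / q⌋₊ ≤ ⌊R⌋₊ := Nat.floor_le_floor (div_le_self hR0.le hq1)
  have hfilt : (Icc 0 ⌊R⌋₊).filter (fun n => n ≤ ⌊R / q⌋₊) = Icc 0 ⌊R / q⌋₊ := by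
    ext n
    simp only [Finset.mem_filter, Finset.mem_Icc]
    omega
  rw [← hfilt, Finset.sum_filter, Finset.sum_filter, Finset.mul_sum, Finset.mul_sum,
    ← Finset.sum_sub_distrib, ← Finset.sum_sub_distrib]
  refine Finset.sum_congr rfl fun n hn => ?_
  rcases Nat.eq_zero_or_pos n with rfl | hn0
  · simp
  have hn0' : (0 : ℝ) < n := by exact_mod_cast hn0
  have hnR : (n : ℝ) ≤ R := (Nat.le_floor_iff hR0.le).1 (Finset.mem_Icc.1 hn).2
  rw [YY_of_le hR hn0' hnR]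
  split_ifs with hnq
  · have h1 : (n : ℝ) ≤ R / q := (Nat.le_floor_iff (by positivity)).1 hnq
    have h2 : (n : ℝ) * q ≤ R := by rwa [le_div_iff₀ hq0] at h1
    rw [YY_of_le hR (by positivity) h2, Real.log_mul hn0'.ne' hq0.ne', hlq]
    field_simp
    ring
  · have h1 : R / q < n := by
      by_contra h
      exact hnq ((Nat.le_floor_iff (by positivity)).2 (not_lt.1 h))
    have h2 : R < (n : ℝ) * q := by rwa [div_lt_iff₀ hq0] at h1
    rw [YY_of_lt hR h2]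
    field_simp
    ring

theorem TT_gt (V : ℕ) (hR : 1 < R) {q : ℝ} (hqR : R < q) :
    Real.log R ^ 2 * TT V R q = S2 V R := by
  have hL := Real.log_pos hR
  have hR0 : 0 < R := by linarith
  unfold TT S2
  rw [Finset.mul_sum]
  refine Finset.sum_congr rfl fun n hn => ?_
  rcases Nat.eq_zero_or_pos n with rfl | hn0
  · simp
  have hn0' : (0 : ℝ) < n := by exact_mod_cast hn0
  have hn1 : (1 : ℝ) ≤ n := by exact_mod_cast hn0
  have hnR : (n : ℝ) ≤ R := (Nat.le_floor_iff hR0.le).1 (Finset.mem_Icc.1 hn).2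
  have h2 : R < (n : ℝ) * q := by nlinarith
  rw [YY_of_le hR hn0' hnR, YY_of_lt hR h2]
  field_simp
  ring

theorem YY_sum (V : ℕ) (hR : 1 < R) :
    Real.log R ^ 2 * ∑ n ∈ Icc 0 ⌊R⌋₊, YY R n ^ 2 * (fA V n / n) = S2 V R := by
  have hL := Real.log_pos hR
  have hR0 : 0 < R := by linarith
  unfold S2
  rw [Finset.mul_sum]
  refine Finset.sum_congr rfl fun n hn => ?_
  rcases Nat.eq_zero_or_pos n with rfl | hn0
  · simp
  have hn0' : (0 : ℝ) < n := by exact_mod_cast hn0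
  have hnR : (n : ℝ) ≤ R := (Nat.le_floor_iff hR0.le).1 (Finset.mem_Icc.1 hn).2
  rw [YY_of_le hR hn0' hnR]
  field_simp

end

theorem HH_eq (V : ℕ) (t : ℝ) : ∑ k ∈ Icc 0 ⌊t⌋₊, fA V k / k = HH V t := by
  unfold HH
  symm
  apply Finset.sum_subset
  · intro k hk
    rw [Finset.mem_Ioc] at hk
    rw [Finset.mem_Icc]
    omega
  · intro k hk hk'
    rw [Finset.mem_Icc] at hk
    rw [Finset.mem_Ioc] at hk'
    have : k = 0 := by omega
    rw [this]
    simp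

/-- moments -/
theorem moments {V : ℕ} (hV : V ≠ 0) (h2 : 2 ∣ V) : ∃ A C : ℝ, 0 < A ∧ 0 ≤ C ∧
    (∀ t : ℝ, 1 ≤ t → |HH V t - A * Real.log t| ≤ C) ∧
    (∀ t : ℝ, 1 ≤ t → |S1 V t - A / 2 * Real.log t ^ 2| ≤ C * Real.log t) ∧
    (∀ t : ℝ, 1 ≤ t → |S2 V t - A / 3 * Real.log t ^ 3| ≤ C * Real.log t ^ 2) := by
  obtain ⟨A, C, hA, hC, h⟩ := HH_pos hV h2
  have h' : ∀ x : ℝ, 1 ≤ x → |∑ k ∈ Icc 0 ⌊x⌋₊, (fun k : ℕ => fA V k / k) k -
      A * Real.log x| ≤ C := by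
    intro x hx
    simp only
    rw [HH_eq]
    exact h x hx
  refine ⟨A, C, hA, hC, h, ?_, ?_⟩
  · intro t ht
    exact abel_one (fun k : ℕ => fA V k / k) (by simp) h' ht
  · intro t ht
    exact abel_two (fun k : ℕ => fA V k / k) (by simp) h' ht

theorem TT_le {V : ℕ} {A C : ℝ} (hC : 0 ≤ C)
    (h1 : ∀ t : ℝ, 1 ≤ t → |S1 V t - A / 2 * Real.log t ^ 2| ≤ C * Real.log t)
    (h2 : ∀ t : ℝ, 1 ≤ t → |S2 V t - A / 3 * Real.log t ^ 3| ≤ C * Real.log t ^ 2)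
    {R : ℝ} (hR : 1 < R) {q : ℝ} (hq1 : 1 ≤ q) (hqR : q ≤ R) :
    Real.log R ^ 2 * TT V R q ≤ A * (Real.log R * Real.log q ^ 2 - 2 / 3 * Real.log q ^ 3) +
      4 * C * Real.log R ^ 2 := by
  have hL := Real.log_pos hR
  have hR0 : 0 < R := by linarith
  have hq0 : 0 < q := by linarith
  have hlq : Real.log (R / q) = Real.log R - Real.log q := Real.log_div hR0.ne' hq0.ne'
  have hRq : 1 ≤ R / q := by rwa [one_le_div hq0]
  rw [TT_id V hR hq1 hqR]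
  have a1 := (abs_le.1 (h2 R hR.le)).2
  have a2 := (abs_le.1 (h2 (R / q) hRq)).1
  have a3 := (abs_le.1 (h1 (R / q) hRq)).1
  rw [hlq] at a2 a3
  obtain ⟨L, hLd⟩ : ∃ L, L = Real.log R := ⟨_, rfl⟩
  obtain ⟨l, hld⟩ : ∃ l, l = Real.log q := ⟨_, rfl⟩
  rw [← hLd] at a1 a2 a3 hL ⊢
  rw [← hld] at a2 a3 ⊢
  have hl0 : 0 ≤ l := by rw [hld]; exact Real.log_nonneg hq1
  have hlL : l ≤ L := by
    rw [hld, hLd]
    exact Real.log_le_log hq0 hqR
  have b1 : 2 * l * (A / 2 * (L - l) ^ 2 - C * (L - l)) ≤ 2 * l * S1 V (R / q) :=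
    mul_le_mul_of_nonneg_left (by linarith) (by positivity)
  have b2 : C * (L - l) ^ 2 ≤ C * L ^ 2 := by
    apply mul_le_mul_of_nonneg_left _ hC
    nlinarith
  have b3 : C * (l * (L - l)) ≤ C * L ^ 2 := by
    apply mul_le_mul_of_nonneg_left _ hC
    nlinarith
  nlinarith [b1, b2, b3, a1, a2]

/-- the prime sums -/
theorem prime_moments {V : ℕ} (hV : V ≠ 0) : ∃ C : ℝ, 0 ≤ C ∧ ∀ R : ℝ, 1 ≤ R →
    ∑ k ∈ Icc 0 ⌊R⌋₊, Real.log k ^ 2 * gc V k ≤
      Real.log R ^ 2 / 2 + C * Real.log R ∧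
    Real.log R ^ 3 / 3 - C * Real.log R ^ 2 ≤ ∑ k ∈ Icc 0 ⌊R⌋₊, Real.log k ^ 3 * gc V k := by
  obtain ⟨C, hC, hM⟩ := mert hV
  have hM' : ∀ x : ℝ, 1 ≤ x → |∑ k ∈ Icc 0 ⌊x⌋₊, mc V k - 1 * Real.log x| ≤ C := by
    intro x hx
    rw [one_mul]
    exact hM x hx
  refine ⟨4 * C, by linarith, ?_⟩
  intro R hR
  have h0 := hM R hR
  have h1 := abel_one (mc V) (mc_zero V) hM' hR
  have h2 := abel_two (mc V) (mc_zero V) hM' hR
  have hL : 0 ≤ Real.log R := Real.log_nonneg hR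
  obtain ⟨U0, hU0⟩ : ∃ U0 : ℝ, U0 = ∑ k ∈ Icc 0 ⌊R⌋₊, mc V k := ⟨_, rfl⟩
  obtain ⟨U1, hU1⟩ : ∃ U1 : ℝ, U1 = ∑ k ∈ Icc 0 ⌊R⌋₊, Real.log k ^ 2 * gc V k := ⟨_, rfl⟩
  obtain ⟨U2, hU2⟩ : ∃ U2 : ℝ, U2 = ∑ k ∈ Icc 0 ⌊R⌋₊, Real.log k ^ 3 * gc V k := ⟨_, rfl⟩
  have e1 : ∑ k ∈ Icc 0 ⌊R⌋₊, (Real.log R - Real.log k) * mc V k = Real.log R * U0 - U1 := by
    rw [hU0, hU1, Finset.mul_sum, ← Finset.sum_sub_distrib]
    refine Finset.sum_congr rfl fun k _ => ?_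
    rw [mc_eq]
    ring
  have e2 : ∑ k ∈ Icc 0 ⌊R⌋₊, (Real.log R - Real.log k) ^ 2 * mc V k =
      Real.log R ^ 2 * U0 - 2 * Real.log R * U1 + U2 := by
    rw [hU0, hU1, hU2, Finset.mul_sum, Finset.mul_sum, ← Finset.sum_sub_distrib,
      ← Finset.sum_add_distrib]
    refine Finset.sum_congr rfl fun k _ => ?_
    rw [mc_eq]
    ring
  rw [e1] at h1
  rw [e2] at h2
  rw [← hU0] at h0
  rw [← hU1, ← hU2]
  obtain ⟨L, hLd⟩ : ∃ L, L = Real.log R := ⟨_, rfl⟩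
  rw [← hLd] at h0 h1 h2 hL ⊢
  rw [abs_le] at h0 h1 h2
  have c1 : L * (U0 - L) ≤ L * C := mul_le_mul_of_nonneg_left h0.2 hL
  have c2 : L * (-C) ≤ L * (U0 - L) := mul_le_mul_of_nonneg_left h0.1 hL
  constructor
  · nlinarith [h1.1, mul_nonneg hC hL]
  · have c3 : L * (L * (-C)) ≤ L * (L * (U0 - L)) := mul_le_mul_of_nonneg_left c2 hL
    have c4 : L * (L * U0 - U1 - 1 / 2 * L ^ 2) ≤ L * (C * L) :=
      mul_le_mul_of_nonneg_left h1.2 hL
    nlinarith [h2.1, c3, c4]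

end Pool.Agent.Helper63.LT2
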