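import Pool.Agent.Helper63.LT2.MainT

/-!
# Project LT2: positivity of the main term of the lower bound sieve
-/

set_option autoImplicit false

open Finset Filter Topology

namespace Pool.Agent.Helper63.LT2

theorem gg_hq {V q : ℕ} (h2 : 2 ∣ V) (hq' : q.Prime) (hqV : ¬ q ∣ V) :
    0 < hq q ∧ gg hq q = gc V q := by
  have h3 : 3 ≤ q := by
    have h4 := hq'.two_le
    have h5 : q ≠ 2 := by
      rintro rfl
      exact hqV h2
    omega
  have h3' : (3 : ℝ) ≤ q := by exact_mod_cast h3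
  have h4 : (0 : ℝ) < (q : ℝ) - 2 := by linarith
  refine ⟨?_, ?_⟩
  · unfold hq
    positivity
  · unfold gg gc hq
    rw [if_pos ⟨hq', hqV⟩]
    have h5 : (q : ℝ) - 1 ≠ 0 := by linarith
    have h6 : 1 + 1 / ((q : ℝ) - 2) = ((q : ℝ) - 1) / ((q : ℝ) - 2) := by
      field_simp
      ring
    rw [h6]
    field_simp

theorem main_term {V : ℕ} (hV : V ≠ 0) (h2 : 2 ∣ V) {θ : ℝ} (hθ : 1 < θ)
    (hθ' : Real.log θ < 1 / 6) : ∃ c C R0 : ℝ, 0 < c ∧ 0 < C ∧ 2 ≤ R0 ∧ ∀ R : ℝ, R0 ≤ R →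
    ∀ P : Finset ℕ, (∀ q : ℕ, q ∈ P ↔ q.Prime ∧ (q : ℝ) ≤ R ^ θ ∧ ¬ q ∣ V) →
    c * Real.log R ≤ ∑ r ∈ P.powerset, yy R r ^ 2 * ∏ q ∈ r, hq q -
      ∑ q ∈ P, gg hq q * ∑ r ∈ (P.erase q).powerset,
        (yy R r - yy R (insert q r)) ^ 2 * ∏ p ∈ r, hq p ∧
    ∑ r ∈ P.powerset.filter (fun r => ∏ q ∈ r, q ≤ ⌊R⌋₊), ∏ q ∈ r, hq q ≤ C * Real.log R := by
  classical
  obtain ⟨A, C0, hA, hC0, hm0, hm1, hm2⟩ := moments hV h2
  obtain ⟨C1, hC1, hpm⟩ := prime_moments hV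
  obtain ⟨C2, hC2, hgi⟩ := gc_interval V
  have hlθ : 0 < Real.log θ := Real.log_pos hθ
  obtain ⟨δ, hδ⟩ : ∃ δ : ℝ, δ = A * (1 / 18 - Real.log θ / 3) := ⟨_, rfl⟩
  have hδ0 : 0 < δ := by
    rw [hδ]
    apply mul_pos hA
    linarith
  obtain ⟨ε, hε⟩ : ∃ ε : ℝ, ε = δ / (8 * C0 + 8) := ⟨_, rfl⟩
  have hε0 : 0 < ε := by rw [hε]; positivity
  have hεC : 4 * C0 * ε ≤ δ / 2 := by
    rw [hε, mul_div_assoc', div_le_div_iff₀ (by positivity) (by norm_num)]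
    nlinarith
  obtain ⟨K, hK, hgs⟩ := gc_small hV hε0
  obtain ⟨K3, hK3⟩ : ∃ K3 : ℝ, K3 = C0 + 5 / 3 * A * C1 + 4 * C0 * K + A * C2 / 3 + C0 +
    C0 * C2 := ⟨_, rfl⟩
  have hK30 : 0 ≤ K3 := by rw [hK3]; positivity
  refine ⟨δ / 4, A + C0 + 1, Real.exp (4 * K3 / δ + 1), by positivity, by positivity, ?_, ?_⟩
  · have : (2 : ℝ) ≤ Real.exp 1 := by
      have := Real.add_one_le_exp (1 : ℝ)
      linarith
    refine this.trans (Real.exp_le_exp.2 ?_)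
    have : 0 ≤ 4 * K3 / δ := by positivity
    linarith
  intro R hR P hP
  have hRpos : 0 < R := lt_of_lt_of_le (Real.exp_pos _) hR
  have hLge : 4 * K3 / δ + 1 ≤ Real.log R := by
    rw [← Real.log_exp (4 * K3 / δ + 1)]
    exact Real.log_le_log (Real.exp_pos _) hR
  have hL1 : 1 ≤ Real.log R := by
    have : 0 ≤ 4 * K3 / δ := by positivity
    linarith
  have hL0 : 0 < Real.log R := by linarith
  have hR2 : 2 ≤ R := by
    have h3 : Real.exp 1 ≤ R := by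
      rw [← Real.exp_log hRpos]
      exact Real.exp_le_exp.2 hL1
    have := Real.add_one_le_exp (1 : ℝ)
    linarith
  have hR1 : 1 < R := by linarith
  have hRθ : R ≤ R ^ θ := by
    conv_lhs => rw [← Real.rpow_one R]
    exact Real.rpow_le_rpow_of_exponent_le hR1.le hθ.le
  have hP1 : ∀ q ∈ P, q.Prime ∧ ¬ q ∣ V := fun q hq => ⟨((hP q).1 hq).1, ((hP q).1 hq).2.2⟩
  have hP2 : ∀ q : ℕ, q.Prime → ¬ q ∣ V → q ≤ ⌊R⌋₊ → q ∈ P := by
    intro q h3 h4 h5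
    rw [hP]
    exact ⟨h3, ((Nat.le_floor_iff hRpos.le).1 h5).trans hRθ, h4⟩
  have hlt : ∀ n : ℕ, ⌊R⌋₊ < n → R < (n : ℝ) := fun n hn => Nat.lt_of_floor_lt hn
  have hh0 : ∀ q ∈ P, 0 ≤ hq q := fun q hq' => (gg_hq h2 (hP1 q hq').1 (hP1 q hq').2).1.le
  constructor
  swap
  · -- the sum of the weights
    have e1 := subset_sum hP1 hP2 (fun n => if n ≤ ⌊R⌋₊ then (1 : ℝ) else 0) (by
      intro n hn
      rw [if_neg (by omega)])
    have e2 : ∑ r ∈ P.powerset.filter (fun r => ∏ q ∈ r, q ≤ ⌊R⌋₊), ∏ q ∈ r, hq q =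
        ∑ r ∈ P.powerset, (if ∏ q ∈ r, q ≤ ⌊R⌋₊ then (1 : ℝ) else 0) * ∏ q ∈ r, hq q := by
      rw [Finset.sum_filter]
      refine Finset.sum_congr rfl fun r _ => ?_
      split_ifs <;> ring
    have e3 : ∑ n ∈ Icc 0 ⌊R⌋₊, (if n ≤ ⌊R⌋₊ then (1 : ℝ) else 0) * (fA V n / n) = HH V R := by
      rw [← HH_eq]
      refine Finset.sum_congr rfl fun n hn => ?_
      rw [if_pos (Finset.mem_Icc.1 hn).2, one_mul]
    rw [e2, e1, e3]
    have h3 := (abs_le.1 (hm0 R hR1.le)).2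
    nlinarith
  -- the first sum
  have e1 : Real.log R ^ 2 * ∑ r ∈ P.powerset, yy R r ^ 2 * ∏ q ∈ r, hq q = S2 V R := by
    rw [← YY_sum V hR1]
    congr 1
    exact subset_sum hP1 hP2 (fun n => YY R n ^ 2) (by
      intro n hn
      rw [YY_of_lt hR1 (hlt n hn)]
      norm_num)
  -- the inner sums
  have e2 : ∀ q ∈ P, ∑ r ∈ (P.erase q).powerset,
        (yy R r - yy R (insert q r)) ^ 2 * ∏ p ∈ r, hq p ≤ TT V R q := by
    intro q hqP
    have hq1 : (1 : ℝ) ≤ q := by exact_mod_cast (hP1 q hqP).1.one_le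
    have e3 := subset_sum hP1 hP2 (fun n => (YY R n - YY R (n * q)) ^ 2) (by
      intro n hn
      have h3 := hlt n hn
      rw [YY_of_lt hR1 h3, YY_of_lt hR1 (by nlinarith)]
      norm_num)
    unfold TT
    rw [← e3]
    have e4 : ∀ r ∈ (P.erase q).powerset, (yy R r - yy R (insert q r)) ^ 2 * ∏ p ∈ r, hq p =
        (YY R ((∏ q ∈ r, q : ℕ) : ℝ) - YY R (((∏ q ∈ r, q : ℕ) : ℝ) * q)) ^ 2 *
          ∏ p ∈ r, hq p := by
      intro r hr
      rw [Finset.mem_powerset] at hr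
      have hqr : q ∉ r := fun h => Finset.notMem_erase _ _ (hr h)
      unfold yy
      rw [Finset.prod_insert hqr]
      push_cast
      rw [mul_comm (q : ℝ)]
    rw [Finset.sum_congr rfl e4]
    apply Finset.sum_le_sum_of_subset_of_nonneg
    · exact Finset.powerset_mono.2 (Finset.erase_subset _ _)
    · intro r hr _
      rw [Finset.mem_powerset] at hr
      exact mul_nonneg (sq_nonneg _) (Finset.prod_nonneg fun p hp => hh0 p (hr hp))
  obtain ⟨L, hLd⟩ : ∃ L, L = Real.log R := ⟨_, rfl⟩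
  rw [← hLd] at e1 hLge hL1 hL0 ⊢
  have hL2 : 0 < L ^ 2 := by positivity
  -- small `q`
  have e5 : ∀ q ∈ P.filter (fun q => q ≤ ⌊R⌋₊), gg hq q * ∑ r ∈ (P.erase q).powerset,
        (yy R r - yy R (insert q r)) ^ 2 * ∏ p ∈ r, hq p ≤
      gc V q * ((A * (L * Real.log q ^ 2 - 2 / 3 * Real.log q ^ 3) + 4 * C0 * L ^ 2) / L ^ 2) := by
    intro q hq'
    obtain ⟨hqP, hqR⟩ := Finset.mem_filter.1 hq'
    rw [(gg_hq h2 (hP1 q hqP).1 (hP1 q hqP).2).2]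
    apply mul_le_mul_of_nonneg_left _ (gc_nonneg V q)
    refine (e2 q hqP).trans ?_
    rw [le_div_iff₀ hL2, mul_comm]
    have hq1 : (1 : ℝ) ≤ q := by exact_mod_cast (hP1 q hqP).1.one_le
    have := TT_le hC0 hm1 hm2 hR1 hq1 ((Nat.le_floor_iff hRpos.le).1 hqR)
    rw [← hLd] at this
    exact this
  have e6 : ∀ q ∈ P.filter (fun q => ¬ q ≤ ⌊R⌋₊), gg hq q * ∑ r ∈ (P.erase q).powerset,
        (yy R r - yy R (insert q r)) ^ 2 * ∏ p ∈ r, hq p ≤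
      gc V q * (S2 V R / L ^ 2) := by
    intro q hq'
    obtain ⟨hqP, hqR⟩ := Finset.mem_filter.1 hq'
    rw [(gg_hq h2 (hP1 q hqP).1 (hP1 q hqP).2).2]
    apply mul_le_mul_of_nonneg_left _ (gc_nonneg V q)
    refine (e2 q hqP).trans ?_
    rw [le_div_iff₀ hL2, mul_comm]
    have := TT_gt V hR1 (hlt q (not_le.1 hqR))
    rw [← hLd] at this
    exact this.le
  have e7 : ∑ q ∈ P.filter (fun q => q ≤ ⌊R⌋₊), gc V q *
      ((A * (L * Real.log q ^ 2 - 2 / 3 * Real.log q ^ 3) + 4 * C0 * L ^ 2) / L ^ 2) =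
      (A * (L * ∑ k ∈ Icc 0 ⌊R⌋₊, Real.log k ^ 2 * gc V k -
        2 / 3 * ∑ k ∈ Icc 0 ⌊R⌋₊, Real.log k ^ 3 * gc V k) +
        4 * C0 * L ^ 2 * ∑ k ∈ Icc 0 ⌊R⌋₊, gc V k) / L ^ 2 := by
    have e8 : ∑ q ∈ P.filter (fun q => q ≤ ⌊R⌋₊), gc V q *
        ((A * (L * Real.log q ^ 2 - 2 / 3 * Real.log q ^ 3) + 4 * C0 * L ^ 2) / L ^ 2) =
        ∑ q ∈ Icc 0 ⌊R⌋₊, gc V q *
        ((A * (L * Real.log q ^ 2 - 2 / 3 * Real.log q ^ 3) + 4 * C0 * L ^ 2) / L ^ 2) := by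
      apply Finset.sum_subset
      · intro q hq'
        rw [Finset.mem_Icc]
        exact ⟨Nat.zero_le _, (Finset.mem_filter.1 hq').2⟩
      · intro q hq1 hq2
        have h3 : gc V q = 0 := by
          unfold gc
          rw [if_neg]
          rintro ⟨h4, h5⟩
          exact hq2 (Finset.mem_filter.2 ⟨hP2 q h4 h5 (Finset.mem_Icc.1 hq1).2,
            (Finset.mem_Icc.1 hq1).2⟩)
        rw [h3, zero_mul]
    rw [e8, eq_div_iff hL2.ne', Finset.sum_mul, Finset.mul_sum, Finset.mul_sum, Finset.mul_sum,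
      ← Finset.sum_sub_distrib, Finset.mul_sum, ← Finset.sum_add_distrib]
    refine Finset.sum_congr rfl fun k _ => ?_
    field_simp
  have e9 : ∑ q ∈ P.filter (fun q => ¬ q ≤ ⌊R⌋₊), gc V q ≤ Real.log θ + C2 / L := by
    have h3 := hgi R (R ^ θ) hR2 hRθ
    have h4 : Real.log (R ^ θ) / Real.log R = θ := by
      rw [Real.log_rpow hRpos, ← hLd]
      field_simp
    rw [h4, ← hLd] at h3
    refine le_trans ?_ h3
    apply Finset.sum_le_sum_of_subset_of_nonneg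
    · intro q hq'
      obtain ⟨hqP, hqR⟩ := Finset.mem_filter.1 hq'
      rw [Finset.mem_Ioc]
      refine ⟨not_le.1 hqR, ?_⟩
      exact Nat.le_floor ((hP q).1 hqP).2.1
    · intro q _ _
      exact gc_nonneg V q
  have hsplit : ∑ q ∈ P, gg hq q * ∑ r ∈ (P.erase q).powerset,
        (yy R r - yy R (insert q r)) ^ 2 * ∏ p ∈ r, hq p ≤
      (A * (L * ∑ k ∈ Icc 0 ⌊R⌋₊, Real.log k ^ 2 * gc V k -
        2 / 3 * ∑ k ∈ Icc 0 ⌊R⌋₊, Real.log k ^ 3 * gc V k) +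
        4 * C0 * L ^ 2 * ∑ k ∈ Icc 0 ⌊R⌋₊, gc V k) / L ^ 2 +
      (Real.log θ + C2 / L) * (S2 V R / L ^ 2) := by
    rw [← Finset.sum_filter_add_sum_filter_not P (fun q => q ≤ ⌊R⌋₊)]
    apply add_le_add
    · rw [← e7]
      exact Finset.sum_le_sum e5
    · refine (Finset.sum_le_sum e6).trans ?_
      rw [← Finset.sum_mul]
      apply mul_le_mul_of_nonneg_right e9
      apply div_nonneg _ hL2.le
      rw [← e1]
      apply mul_nonneg hL2.le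
      apply Finset.sum_nonneg
      intro r hr
      rw [Finset.mem_powerset] at hr
      exact mul_nonneg (sq_nonneg _) (Finset.prod_nonneg fun p hp => hh0 p (hr hp))
  have hx : ∑ r ∈ P.powerset, yy R r ^ 2 * ∏ q ∈ r, hq q = S2 V R / L ^ 2 := by
    rw [eq_div_iff hL2.ne', mul_comm]
    exact e1
  rw [hx]
  have b1 := (hpm R hR1.le).1
  have b2 := (hpm R hR1.le).2
  have b3 := hgs R hR1.le
  have b4 := hm2 R hR1.le
  rw [← hLd] at b1 b2 b3 b4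
  obtain ⟨x, hxd⟩ : ∃ x : ℝ, x = S2 V R / L ^ 2 := ⟨_, rfl⟩
  have b5 : |x - A / 3 * L| ≤ C0 := by
    have h3 : x - A / 3 * L = (S2 V R - A / 3 * L ^ 3) / L ^ 2 := by
      rw [hxd]
      field_simp
    rw [h3, abs_div, abs_of_pos hL2, div_le_iff₀ hL2]
    exact b4
  rw [← hxd] at hsplit ⊢
  have b6 : (A * (L * ∑ k ∈ Icc 0 ⌊R⌋₊, Real.log k ^ 2 * gc V k -
        2 / 3 * ∑ k ∈ Icc 0 ⌊R⌋₊, Real.log k ^ 3 * gc V k) +
        4 * C0 * L ^ 2 * ∑ k ∈ Icc 0 ⌊R⌋₊, gc V k) / L ^ 2 ≤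
      5 / 18 * A * L + 5 / 3 * A * C1 + 4 * C0 * (ε * L + K) := by
    rw [div_le_iff₀ hL2]
    have c1 : L * ∑ k ∈ Icc 0 ⌊R⌋₊, Real.log k ^ 2 * gc V k ≤ L * (L ^ 2 / 2 + C1 * L) :=
      mul_le_mul_of_nonneg_left b1 hL0.le
    have c2 : A * (L * ∑ k ∈ Icc 0 ⌊R⌋₊, Real.log k ^ 2 * gc V k -
        2 / 3 * ∑ k ∈ Icc 0 ⌊R⌋₊, Real.log k ^ 3 * gc V k) ≤
        A * (L * (L ^ 2 / 2 + C1 * L) - 2 / 3 * (L ^ 3 / 3 - C1 * L ^ 2)) :=
      mul_le_mul_of_nonneg_left (by linarith) hA.le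
    have c3 : 4 * C0 * L ^ 2 * ∑ k ∈ Icc 0 ⌊R⌋₊, gc V k ≤ 4 * C0 * L ^ 2 * (ε * L + K) :=
      mul_le_mul_of_nonneg_left b3 (by positivity)
    calc _ ≤ A * (L * (L ^ 2 / 2 + C1 * L) - 2 / 3 * (L ^ 3 / 3 - C1 * L ^ 2)) +
          4 * C0 * L ^ 2 * (ε * L + K) := add_le_add c2 c3
      _ = _ := by ring
  have b7 : (Real.log θ + C2 / L) * x ≤ A / 3 * Real.log θ * L + A * C2 / 3 + C0 + C0 * C2 := by
    have c1 : x ≤ A / 3 * L + C0 := by linarith [(abs_le.1 b5).2]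
    have c2 : 0 ≤ C2 / L := by positivity
    calc (Real.log θ + C2 / L) * x ≤ (Real.log θ + C2 / L) * (A / 3 * L + C0) :=
          mul_le_mul_of_nonneg_left c1 (by positivity)
      _ = A / 3 * Real.log θ * L + A * C2 / 3 + C0 * Real.log θ + C0 * (C2 / L) := by
          field_simp
          ring
      _ ≤ A / 3 * Real.log θ * L + A * C2 / 3 + C0 * 1 + C0 * C2 := by
          apply add_le_add (add_le_add le_rfl _) _
          · exact mul_le_mul_of_nonneg_left (by linarith) hC0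
          · exact mul_le_mul_of_nonneg_left (div_le_self hC2 hL1) hC0
      _ = _ := by ring
  have b8 : δ * L = A * (1 / 18 - Real.log θ / 3) * L := by rw [hδ]
  have b9 : 4 * K3 ≤ δ * L := by
    have : 4 * K3 / δ ≤ L := by linarith
    rw [div_le_iff₀ hδ0] at this
    linarith
  have b10 : 4 * C0 * ε * L ≤ δ / 2 * L := mul_le_mul_of_nonneg_right hεC hL0.le
  have b11 := (abs_le.1 b5).1
  nlinarith [hsplit, b6, b7, b8, b9, b10, b11]

end Pool.Agent.Helper63.LT2
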