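import Mathlib

/-!
# Project LT2: the quadratic form of a lower bound sieve

`P` is a finite set, `h q > 0` for `q ∈ P`, `y` a function of the subsets of `P`. For `D ⊆ P` let
`FY D = ∑_{r ⊆ P} y r ∏_{q ∈ r} (if q ∈ D then -1 else h q)`. With the probability in which `D`
contains `q` with probability `g q = h q / (1 + h q)` independently, the expectation of
`(1 - |D|) FY(D)²` is computed exactly.
-/

set_option autoImplicit false

open Finset

namespace Pool.Agent.Helper63.LT2

variable {α : Type} [DecidableEq α]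

/-- The local factor. -/
def psi (h : α → ℝ) (D : Finset α) (q : α) : ℝ := if q ∈ D then -1 else h q

/-- The trial function. -/
def FY (h : α → ℝ) (P : Finset α) (y : Finset α → ℝ) (D : Finset α) : ℝ :=
  ∑ r ∈ P.powerset, y r * ∏ q ∈ r, psi h D q

/-- The density. -/
noncomputable def gg (h : α → ℝ) (q : α) : ℝ := h q / (1 + h q)

/-- The probability of `D`. -/
noncomputable def ww (h : α → ℝ) (P D : Finset α) : ℝ :=
  (∏ q ∈ D, gg h q) * ∏ q ∈ P \ D, (1 - gg h q)

omit [DecidableEq α] in
theorem one_sub_gg {h : α → ℝ} {q : α} (hq : 0 < h q) : 1 - gg h q = 1 / (1 + h q) := by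
  unfold gg
  have : 1 + h q ≠ 0 := by positivity
  field_simp
  ring

/-- expansion of a sum over the subsets -/
private theorem expand (P : Finset α) (r r' : Finset α) (hr : r ⊆ P) (hr' : r' ⊆ P) (h : α → ℝ)
    (c : α → ℝ) :
    ∑ D ∈ P.powerset, ((∏ q ∈ D, gg h q) * ∏ q ∈ P \ D, c q) *
      ((∏ q ∈ r, psi h D q) * ∏ q ∈ r', psi h D q) =
    ∏ q ∈ P, (gg h q * ((if q ∈ r then -1 else 1) * if q ∈ r' then -1 else 1) +
      c q * ((if q ∈ r then h q else 1) * if q ∈ r' then h q else 1)) := by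
  rw [Finset.prod_add]
  refine Finset.sum_congr rfl fun D hD => ?_
  rw [Finset.mem_powerset] at hD
  have key : ∀ s : Finset α, s ⊆ P → ∏ q ∈ s, psi h D q =
      (∏ q ∈ D, (if q ∈ s then (-1 : ℝ) else 1)) * ∏ q ∈ P \ D, (if q ∈ s then h q else 1) := by
    intro s hs
    have h1 : ∏ q ∈ s, psi h D q = ∏ q ∈ P, (if q ∈ s then psi h D q else 1) := by
      rw [Finset.prod_ite_mem, Finset.inter_eq_right.2 hs]
    rw [h1, ← Finset.prod_sdiff hD, mul_comm]
    congr 1
    · refine Finset.prod_congr rfl fun q hq => ?_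
      simp only [psi]
      rw [if_pos hq]
    · refine Finset.prod_congr rfl fun q hq => ?_
      have : q ∉ D := (Finset.mem_sdiff.1 hq).2
      simp only [psi]
      rw [if_neg this]
  rw [key r hr, key r' hr']
  rw [Finset.prod_mul_distrib, Finset.prod_mul_distrib, Finset.prod_mul_distrib,
    Finset.prod_mul_distrib]
  ring

variable {h : α → ℝ} {P : Finset α} {y : Finset α → ℝ}

omit [DecidableEq α] in
theorem local_both {q : α} (hq : 0 < h q) : gg h q * ((-1) * (-1)) + (1 - gg h q) * (h q * h q) =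
    h q := by
  rw [one_sub_gg hq]
  unfold gg
  have : 1 + h q ≠ 0 := by positivity
  field_simp

omit [DecidableEq α] in
theorem local_one {q : α} (hq : 0 < h q) : gg h q * (-1) + (1 - gg h q) * h q = 0 := by
  rw [one_sub_gg hq]
  unfold gg
  have : 1 + h q ≠ 0 := by positivity
  field_simp
  ring

/-- orthogonality -/
theorem expect_mul (hP : ∀ q ∈ P, 0 < h q) {r r' : Finset α} (hr : r ⊆ P) (hr' : r' ⊆ P) :
    ∑ D ∈ P.powerset, ww h P D * ((∏ q ∈ r, psi h D q) * ∏ q ∈ r', psi h D q) =
      if r = r' then ∏ q ∈ r, h q else 0 := by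
  unfold ww
  rw [expand P r r' hr hr' h (fun q => 1 - gg h q)]
  split_ifs with hrr
  · subst hrr
    have h1 : ∏ q ∈ r, h q = ∏ q ∈ P, (if q ∈ r then h q else 1) := by
      rw [Finset.prod_ite_mem, Finset.inter_eq_right.2 hr]
    rw [h1]
    refine Finset.prod_congr rfl fun q hq => ?_
    by_cases hqr : q ∈ r
    · simp only [if_pos hqr]
      exact local_both (hP q hq)
    · simp only [if_neg hqr]
      ring
  · obtain ⟨q, hq⟩ : ∃ q, ¬ (q ∈ r ↔ q ∈ r') := by
      by_contra hcon
      push Not at hcon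
      exact hrr (Finset.ext hcon)
    by_cases hqr : q ∈ r
    · have hqr' : q ∉ r' := fun hh => hq ⟨fun _ => hh, fun _ => hqr⟩
      refine Finset.prod_eq_zero (hr hqr) ?_
      simp only [if_pos hqr, if_neg hqr', mul_one]
      exact local_one (hP q (hr hqr))
    · have hqr' : q ∈ r' := by
        by_contra hh
        exact hq ⟨fun h1 => absurd h1 hqr, fun h1 => absurd h1 hh⟩
      refine Finset.prod_eq_zero (hr' hqr') ?_
      simp only [if_neg hqr, if_pos hqr', one_mul]
      exact local_one (hP q (hr' hqr'))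

/-- the second moment -/
theorem expect_sq (hP : ∀ q ∈ P, 0 < h q) :
    ∑ D ∈ P.powerset, ww h P D * FY h P y D ^ 2 = ∑ r ∈ P.powerset, y r ^ 2 * ∏ q ∈ r, h q := by
  have h1 : ∀ D : Finset α, ww h P D * FY h P y D ^ 2 =
      ∑ r ∈ P.powerset, ∑ r' ∈ P.powerset, (y r * y r') *
        (ww h P D * ((∏ q ∈ r, psi h D q) * ∏ q ∈ r', psi h D q)) := by
    intro D
    unfold FY
    rw [sq, Finset.sum_mul_sum, Finset.mul_sum]
    refine Finset.sum_congr rfl fun r _ => ?_
    rw [Finset.mul_sum]
    refine Finset.sum_congr rfl fun r' _ => ?_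
    ring
  simp_rw [h1]
  rw [Finset.sum_comm]
  refine Finset.sum_congr rfl fun r hr => ?_
  rw [Finset.sum_comm]
  have h2 : ∀ r' ∈ P.powerset, ∑ D ∈ P.powerset, (y r * y r') *
        (ww h P D * ((∏ q ∈ r, psi h D q) * ∏ q ∈ r', psi h D q)) =
      if r = r' then y r ^ 2 * ∏ q ∈ r, h q else 0 := by
    intro r' hr'
    rw [← Finset.mul_sum, expect_mul hP (Finset.mem_powerset.1 hr) (Finset.mem_powerset.1 hr')]
    split_ifs with hh
    · rw [← hh]; ring
    · rw [mul_zero]
  rw [Finset.sum_congr rfl h2, Finset.sum_ite_eq, if_pos hr]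

/-- the powerset of `P` as the union of the subsets of `P.erase q` with and without `q` -/
private theorem sum_powerset_erase {β : Type} [AddCommMonoid β] {q : α} (hq : q ∈ P)
    (f : Finset α → β) : ∑ D ∈ P.powerset, f D =
      ∑ D ∈ (P.erase q).powerset, f D + ∑ D ∈ (P.erase q).powerset, f (insert q D) := by
  conv_lhs => rw [← Finset.insert_erase hq]
  exact Finset.sum_powerset_insert (Finset.notMem_erase _ _) f

/-- the second moment on the event `q₀ ∈ D` -/
theorem expect_sq_ind (hP : ∀ q ∈ P, 0 < h q) {q₀ : α} (hq₀ : q₀ ∈ P) :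
    ∑ D ∈ P.powerset, (if q₀ ∈ D then ww h P D else 0) * FY h P y D ^ 2 =
      gg h q₀ * ∑ r ∈ (P.erase q₀).powerset, (y r - y (insert q₀ r)) ^ 2 * ∏ q ∈ r, h q := by
  rw [sum_powerset_erase hq₀]
  have h1 : ∑ D ∈ (P.erase q₀).powerset, (if q₀ ∈ D then ww h P D else 0) * FY h P y D ^ 2 = 0 := by
    apply Finset.sum_eq_zero
    intro D hD
    have : q₀ ∉ D := fun hh => Finset.notMem_erase _ _ (Finset.mem_powerset.1 hD hh)
    rw [if_neg this, zero_mul]
  rw [h1, zero_add, ← expect_sq (P := P.erase q₀) (y := fun r => y r - y (insert q₀ r))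
    (fun q hq => hP q (Finset.mem_of_mem_erase hq)), Finset.mul_sum]
  refine Finset.sum_congr rfl fun D hD => ?_
  rw [Finset.mem_powerset] at hD
  have hqD : q₀ ∉ D := fun hh => Finset.notMem_erase _ _ (hD hh)
  rw [if_pos (Finset.mem_insert_self _ _)]
  have e1 : ww h P (insert q₀ D) = gg h q₀ * ww h (P.erase q₀) D := by
    unfold ww
    rw [Finset.prod_insert hqD]
    have : P \ insert q₀ D = P.erase q₀ \ D := by
      ext x
      simp only [Finset.mem_sdiff, Finset.mem_insert, Finset.mem_erase, not_or]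
      tauto
    rw [this]
    ring
  have e2 : FY h P y (insert q₀ D) =
      FY h (P.erase q₀) (fun r => y r - y (insert q₀ r)) D := by
    unfold FY
    rw [sum_powerset_erase hq₀, ← Finset.sum_add_distrib]
    refine Finset.sum_congr rfl fun r hr => ?_
    rw [Finset.mem_powerset] at hr
    have hqr : q₀ ∉ r := fun hh => Finset.notMem_erase _ _ (hr hh)
    rw [Finset.prod_insert hqr]
    have e3 : ∏ q ∈ r, psi h (insert q₀ D) q = ∏ q ∈ r, psi h D q := by
      refine Finset.prod_congr rfl fun q hq => ?_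
      have hne : q ≠ q₀ := fun hh => hqr (hh ▸ hq)
      simp only [psi, Finset.mem_insert, hne, false_or]
    have e4 : psi h (insert q₀ D) q₀ = -1 := by
      simp only [psi, Finset.mem_insert_self, if_true]
    rw [e3, e4]
    ring
  rw [e1, e2]
  ring

/-- the expectation of `(1 - |D|) FY(D)²` -/
theorem expect_main (hP : ∀ q ∈ P, 0 < h q) :
    ∑ D ∈ P.powerset, ww h P D * ((1 - (D.card : ℝ)) * FY h P y D ^ 2) =
      ∑ r ∈ P.powerset, y r ^ 2 * ∏ q ∈ r, h q -
      ∑ q ∈ P, gg h q * ∑ r ∈ (P.erase q).powerset, (y r - y (insert q r)) ^ 2 * ∏ p ∈ r, h p := by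
  have h1 : ∀ D ∈ P.powerset, ww h P D * ((1 - (D.card : ℝ)) * FY h P y D ^ 2) =
      ww h P D * FY h P y D ^ 2 - ∑ q ∈ P, (if q ∈ D then ww h P D else 0) * FY h P y D ^ 2 := by
    intro D hD
    rw [Finset.mem_powerset] at hD
    have h2 : ∑ q ∈ P, (if q ∈ D then ww h P D else 0) * FY h P y D ^ 2 =
        (D.card : ℝ) * (ww h P D * FY h P y D ^ 2) := by
      have h3 : ∀ q ∈ P, (if q ∈ D then ww h P D else 0) * FY h P y D ^ 2 =
          if q ∈ D then ww h P D * FY h P y D ^ 2 else 0 := by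
        intro q _
        split_ifs <;> ring
      rw [Finset.sum_congr rfl h3, Finset.sum_ite_mem, Finset.inter_eq_right.2 hD,
        Finset.sum_const, nsmul_eq_mul]
    rw [h2]
    ring
  rw [Finset.sum_congr rfl h1, Finset.sum_sub_distrib, expect_sq hP, Finset.sum_comm]
  congr 1
  exact Finset.sum_congr rfl fun q hq => expect_sq_ind hP hq

end Pool.Agent.Helper63.LT2
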