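import Pool.Agent.Helper63.LT2.Sp2
import Pool.Agent.Helper18.BV.Assemble2

/-!
# Project LT2: one of finitely many properties holds for many special primes
-/

set_option autoImplicit false

open Finset Filter Topology

namespace Pool.Agent.Helper63.LT2

open Pool.Agent.Helper18.BV

/-- if every special prime is exceptional or belongs to one of the sets `F j`, then one of the
sets `F j` has many primes -/
theorem pigeon (hS : SpecialPlus2) {v u : ℕ} (hv : 0 < v) (huv : u.Coprime v) (h2v : 2 ∣ v)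
    (hru : ∀ r : ℕ, r.Prime → r ≠ 2 → r ∣ v → ¬ r ∣ u + 1) {A : Type} [Fintype A] (F : A → Set ℕ)
    (Z : ℝ → Finset ℕ) {K X1 : ℝ} (hK : 0 ≤ K)
    (hZ : ∀ x : ℝ, X1 ≤ x → ((Z x).card : ℝ) ≤ K * x ^ (4993 / 5000 : ℝ))
    (hcov : ∀ x : ℝ, X1 ≤ x → ∀ p : ℕ, p.Prime → (p : ℝ) ≤ x → x ^ (999 / 1000 : ℝ) < (p : ℝ) →
      p ≡ u [MOD v] → (∀ r : ℕ, r.Prime → r ∣ p + 1 → r = 2 ∨ x ^ (183 / 1000 : ℝ) < (r : ℝ)) →
      p ∈ Z x ∨ ∃ j, p ∈ F j) :
    ∃ j, ∃ c : ℝ, 0 < c ∧ ∀ z0 : ℝ, ∃ z : ℝ, z0 ≤ z ∧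
      c * z / Real.log z ^ 2 ≤ ({p : ℕ | p.Prime ∧ (p : ℝ) ≤ z ∧ p ∈ F j}.ncard : ℝ) := by
  classical
  obtain ⟨g, hg, hgne, hg1, hg0⟩ := exists_wt (τ := 1 / 1000) (by norm_num) (by norm_num)
  obtain ⟨c1, X0, hc1, hX0, hmass⟩ := hS v u hv huv h2v hru g hg hgne hg1 (fun y hy => hg0 y
    (by linarith))
  by_contra hcon
  push Not at hcon
  obtain ⟨M, hM⟩ : ∃ M : ℝ, M = Fintype.card A + 1 := ⟨_, rfl⟩
  have hM0 : 0 < M := by rw [hM]; positivity
  obtain ⟨c', hc'⟩ : ∃ c' : ℝ, c' = c1 / (32 * M) := ⟨_, rfl⟩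
  have hc'0 : 0 < c' := by rw [hc']; positivity
  choose zf hzf using fun j => hcon j c' hc'0
  obtain ⟨z0, hz0⟩ : ∃ z0 : ℝ, ∀ j, zf j ≤ z0 := by
    refine ⟨∑ j, |zf j|, fun j => (le_abs_self _).trans ?_⟩
    exact Finset.single_le_sum (f := fun j => |zf j|) (fun i _ => abs_nonneg _) (Finset.mem_univ j)
  -- the key inequality
  have key : ∀ x : ℝ, X0 ≤ x → X1 ≤ x → 4 ≤ x → z0 ≤ x ^ (999 / 1000 : ℝ) →
      c1 / 2 ≤ K * (Real.log x * x ^ (-(1 / 2500) : ℝ)) := by
    intro x hx0 hx1' hx4 hxz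
    have hx1 : 1 < x := by linarith
    have hxpos : 0 < x := by linarith
    have hlog : 0 < Real.log x := Real.log_pos hx1
    obtain ⟨E, hE⟩ : ∃ E : Finset ℕ, E = (Finset.range (⌊x⌋₊ + 1)).filter
      (fun p => p.Prime ∧ p ≡ u [MOD v] ∧
      ∀ r : ℕ, r.Prime → r ∣ p + 1 → r = 2 ∨ x ^ (183 / 1000 : ℝ) < (r : ℝ)) := ⟨_, rfl⟩
    have hEmem : ∀ p : ℕ, p ∈ E ↔ (p.Prime ∧ (p : ℝ) ≤ x ∧ p ≡ u [MOD v] ∧
        ∀ r : ℕ, r.Prime → r ∣ p + 1 → r = 2 ∨ x ^ (183 / 1000 : ℝ) < (r : ℝ)) := by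
      intro p
      rw [hE, Finset.mem_filter, Finset.mem_range, Nat.lt_succ_iff, Nat.le_floor_iff hxpos.le]
      tauto
    have hm := hmass x hx0 E hEmem
    obtain ⟨E', hE'⟩ : ∃ E' : Finset ℕ, E' = E.filter (fun p : ℕ => x ^ (999 / 1000 : ℝ) < (p : ℝ)) :=
      ⟨_, rfl⟩
    have hE'mem : ∀ p ∈ E', p.Prime ∧ (p : ℝ) ≤ x ∧ x ^ (999 / 1000 : ℝ) < (p : ℝ) ∧
        p ≡ u [MOD v] ∧
        ∀ r : ℕ, r.Prime → r ∣ p + 1 → r = 2 ∨ x ^ (183 / 1000 : ℝ) < (r : ℝ) := by
      intro p hp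
      rw [hE'] at hp
      obtain ⟨hpE, hpx⟩ := Finset.mem_filter.1 hp
      obtain ⟨a1, a2, a3, a4⟩ := (hEmem p).1 hpE
      exact ⟨a1, a2, hpx, a3, a4⟩
    -- only `E'` matters
    have h3 : ∑ p ∈ E, Real.log p * wt g x p = ∑ p ∈ E', Real.log p * wt g x p := by
      symm
      rw [hE']
      apply Finset.sum_subset (Finset.filter_subset _ _)
      intro p hpE hpE'
      have hple : (p : ℝ) ≤ x ^ (999 / 1000 : ℝ) := by
        by_contra hlt
        exact hpE' (Finset.mem_filter.2 ⟨hpE, not_le.1 hlt⟩)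
      have hp := ((hEmem p).1 hpE).1
      have hp0 : (0 : ℝ) < p := by exact_mod_cast hp.pos
      have hlp : Real.log p ≤ 999 / 1000 * Real.log x := by
        rw [← Real.log_rpow hxpos]
        exact Real.log_le_log hp0 hple
      have : g (Real.log p / Real.log x) = 0 := by
        apply hg0
        rw [div_le_iff₀ hlog]
        refine hlp.trans (le_of_eq ?_)
        norm_num
      rw [wt, this]; simp
    -- covering
    have hcov' : E' ⊆ (Finset.univ : Finset A).biUnion (fun j => E'.filter (fun p => p ∈ F j)) ∪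
        E'.filter (fun p => p ∈ Z x) := by
      intro p hp
      obtain ⟨hpp, hple, hpx, hpu, hpr⟩ := hE'mem p hp
      rcases hcov x hx1' p hpp hple hpx hpu hpr with h | ⟨j, hj⟩
      · exact Finset.mem_union_right _ (Finset.mem_filter.2 ⟨hp, h⟩)
      · apply Finset.mem_union_left
        rw [Finset.mem_biUnion]
        exact ⟨j, Finset.mem_univ _, Finset.mem_filter.2 ⟨hp, hj⟩⟩
    have hnn : ∀ p : ℕ, 0 ≤ Real.log p * wt g x p := by
      intro p
      rcases Nat.eq_zero_or_pos p with rfl | hp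
      · simp
      · exact mul_nonneg (Real.log_nonneg (by exact_mod_cast hp))
          (div_nonneg (hg.nonneg _) (Nat.cast_nonneg _))
    have hun : ∀ s t : Finset ℕ, ∑ p ∈ s ∪ t, Real.log p * wt g x p ≤
        ∑ p ∈ s, Real.log p * wt g x p + ∑ p ∈ t, Real.log p * wt g x p := by
      intro s t
      rw [← Finset.sum_union_inter]
      have : 0 ≤ ∑ p ∈ s ∩ t, Real.log p * wt g x p := Finset.sum_nonneg fun p _ => hnn p
      linarith
    have hsplit : ∑ p ∈ E', Real.log p * wt g x p ≤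
        ∑ j, ∑ p ∈ E'.filter (fun p => p ∈ F j), Real.log p * wt g x p +
          ∑ p ∈ E'.filter (fun p => p ∈ Z x), Real.log p * wt g x p := by
      calc ∑ p ∈ E', Real.log p * wt g x p
          ≤ ∑ p ∈ (Finset.univ : Finset A).biUnion (fun j => E'.filter (fun p => p ∈ F j)) ∪
              E'.filter (fun p => p ∈ Z x), Real.log p * wt g x p :=
            Finset.sum_le_sum_of_subset_of_nonneg hcov' (fun p _ _ => hnn p)
        _ ≤ _ := (hun _ _).trans (add_le_add (sum_biUnion_le' _ _ _ hnn) le_rfl)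
    -- contribution of the sets `F j`
    have hFs : ∀ j, ∑ p ∈ E'.filter (fun p => p ∈ F j), Real.log p * wt g x p ≤ 16 * c' := by
      intro j
      obtain ⟨G, hG⟩ : ∃ G : Finset ℕ, G = E'.filter (fun p => p ∈ F j) := ⟨_, rfl⟩
      rw [← hG]
      have hGmem : ∀ p ∈ G, p ∈ E' ∧ p ∈ F j := by
        intro p hp
        rw [hG] at hp
        exact Finset.mem_filter.1 hp
      have hterm : ∀ p ∈ G, Real.log p * wt g x p ≤ Real.log p / p := by
        intro p hp
        have hpp := (hE'mem p (hGmem p hp).1).1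
        have hp0 : (0 : ℝ) < p := by exact_mod_cast hpp.pos
        have hlp0 : 0 ≤ Real.log p := Real.log_nonneg (by exact_mod_cast hpp.one_le)
        rw [div_eq_mul_one_div]
        apply mul_le_mul_of_nonneg_left _ hlp0
        exact div_le_div_of_nonneg_right (hg1 _) hp0.le
      refine (Finset.sum_le_sum hterm).trans ?_
      apply dyadic hc'0.le hx4 (z := x ^ (999 / 1000 : ℝ))
      · exact Real.rpow_le_rpow_of_exponent_le hx1.le (by norm_num)
      · intro p hp
        obtain ⟨_, a2, a3, _⟩ := hE'mem p (hGmem p hp).1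
        exact ⟨a3.le, a2⟩
      · intro y hy
        refine le_trans ?_ (hzf j y ((hz0 j).trans (hxz.trans hy))).le
        have hy0 : 0 ≤ y := (Real.rpow_nonneg hxpos.le _).trans hy
        have hfin : {p : ℕ | p.Prime ∧ (p : ℝ) ≤ y ∧ p ∈ F j}.Finite := by
          apply (Finset.finite_toSet (Finset.range (⌊y⌋₊ + 1))).subset
          intro p hp
          rw [Finset.mem_coe, Finset.mem_range, Nat.lt_succ_iff, Nat.le_floor_iff hy0]
          exact hp.2.1
        rw [← Set.ncard_coe_finset]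
        have : ((G.filter (fun p : ℕ => (p : ℝ) ≤ y) : Finset ℕ) : Set ℕ).ncard ≤
            {p : ℕ | p.Prime ∧ (p : ℝ) ≤ y ∧ p ∈ F j}.ncard := by
          apply Set.ncard_le_ncard _ hfin
          intro p hp
          obtain ⟨hp1, hp2⟩ := Finset.mem_filter.1 (Finset.mem_coe.1 hp)
          exact ⟨(hE'mem p (hGmem p hp1).1).1, hp2, (hGmem p hp1).2⟩
        exact_mod_cast this
    -- the exceptional primes
    have hsmall : ∑ p ∈ E'.filter (fun p => p ∈ Z x), Real.log p * wt g x p ≤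
        K * (Real.log x * x ^ (-(1 / 2500) : ℝ)) := by
      obtain ⟨G, hG⟩ : ∃ G : Finset ℕ, G = E'.filter (fun p => p ∈ Z x) := ⟨_, rfl⟩
      rw [← hG]
      have hGmem : ∀ p ∈ G, p ∈ E' ∧ p ∈ Z x := by
        intro p hp
        rw [hG] at hp
        exact Finset.mem_filter.1 hp
      have hcard : (G.card : ℝ) ≤ K * x ^ (4993 / 5000 : ℝ) := by
        refine le_trans ?_ (hZ x hx1')
        exact_mod_cast Finset.card_le_card fun p hp => (hGmem p hp).2
      calc ∑ p ∈ G, Real.log p * wt g x p ≤ ∑ p ∈ G, Real.log x * x ^ (-(999 / 1000) : ℝ) := by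
            apply Finset.sum_le_sum
            intro p hp
            obtain ⟨hpp, hple, hpx, _, _⟩ := hE'mem p (hGmem p hp).1
            have hp0 : (0 : ℝ) < p := by exact_mod_cast hpp.pos
            have hlp : Real.log p ≤ Real.log x := Real.log_le_log hp0 hple
            have hxt : 0 < x ^ (999 / 1000 : ℝ) := Real.rpow_pos_of_pos hxpos _
            have hw : wt g x p ≤ x ^ (-(999 / 1000) : ℝ) := by
              unfold wt
              calc g (Real.log p / Real.log x) / p ≤ 1 / x ^ (999 / 1000 : ℝ) :=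
                    div_le_div₀ zero_le_one (hg1 _) hxt hpx.le
                _ = x ^ (-(999 / 1000) : ℝ) := by
                    rw [one_div, ← Real.rpow_neg hxpos.le]
            have hw0 : 0 ≤ wt g x p := div_nonneg (hg.nonneg _) hp0.le
            exact mul_le_mul hlp hw hw0 hlog.le
        _ = (G.card : ℝ) * (Real.log x * x ^ (-(999 / 1000) : ℝ)) := by
            rw [Finset.sum_const, nsmul_eq_mul]
        _ ≤ (K * x ^ (4993 / 5000 : ℝ)) * (Real.log x * x ^ (-(999 / 1000) : ℝ)) :=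
            mul_le_mul_of_nonneg_right hcard (by positivity)
        _ = K * (Real.log x * (x ^ (4993 / 5000 : ℝ) * x ^ (-(999 / 1000) : ℝ))) := by ring
        _ = K * (Real.log x * x ^ (-(1 / 2500) : ℝ)) := by
            rw [← Real.rpow_add hxpos]
            norm_num
    have hfin : c1 ≤ Fintype.card A * (16 * c') + K * (Real.log x * x ^ (-(1 / 2500) : ℝ)) := by
      calc c1 ≤ ∑ p ∈ E, Real.log p * wt g x p := hm
        _ = ∑ p ∈ E', Real.log p * wt g x p := h3
        _ ≤ _ := hsplit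
        _ ≤ ∑ _j : A, 16 * c' + K * (Real.log x * x ^ (-(1 / 2500) : ℝ)) :=
            add_le_add (Finset.sum_le_sum fun j _ => hFs j) hsmall
        _ = _ := by
            rw [Finset.sum_const, Finset.card_univ, nsmul_eq_mul]
    have h4 : Fintype.card A * (16 * c') ≤ c1 / 2 := by
      have h5 : (Fintype.card A : ℝ) ≤ M := by rw [hM]; linarith
      calc (Fintype.card A : ℝ) * (16 * c') ≤ M * (16 * c') :=
            mul_le_mul_of_nonneg_right h5 (by positivity)
        _ = c1 / 2 := by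
            rw [hc']
            field_simp
            norm_num
    linarith
  -- the limit
  have hlim : Tendsto (fun x : ℝ => K * (Real.log x * x ^ (-(1 / 2500) : ℝ))) atTop (𝓝 0) := by
    have h1 : Tendsto (fun x : ℝ => Real.log x / x ^ (1 / 2500 : ℝ)) atTop (𝓝 0) :=
      (isLittleO_log_rpow_atTop (by norm_num)).tendsto_div_nhds_zero
    have h2 : Tendsto (fun x : ℝ => K * (Real.log x / x ^ (1 / 2500 : ℝ))) atTop (𝓝 0) := by
      simpa using h1.const_mul K
    refine h2.congr' ?_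
    filter_upwards [eventually_gt_atTop (0:ℝ)] with x hx
    rw [Real.rpow_neg hx.le, div_eq_mul_inv]
  have hev' : ∀ᶠ x : ℝ in atTop, z0 ≤ x ^ (999 / 1000 : ℝ) :=
    (tendsto_rpow_atTop (by norm_num)).eventually_ge_atTop _
  have hev3 : ∀ᶠ x : ℝ in atTop, K * (Real.log x * x ^ (-(1 / 2500) : ℝ)) < c1 / 2 :=
    hlim.eventually (gt_mem_nhds (by linarith))
  obtain ⟨x, hx1, hx2, hx3, hx4, hx5⟩ := (hev'.and (hev3.and
    ((eventually_ge_atTop X0).and ((eventually_ge_atTop X1).and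
      (eventually_ge_atTop (4:ℝ)))))).exists
  have := key x hx3 hx4 hx5 hx1
  linarith

end Pool.Agent.Helper63.LT2
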