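import Pool.Agent.Helper63.LT2.Hy
import Pool.Agent.Helper7.AV.GGlow

/-!
# Project LT2: positivity of the constant
-/

set_option autoImplicit false

open Finset Filter Topology

namespace Pool.Agent.Helper63.LT2

theorem inv_totient_le {V n : ℕ} (h2 : 2 ∣ V) (hn : Squarefree n) (hnV : n.Coprime V) :
    (1 : ℝ) / n.totient ≤ fA V n / n := by
  rw [fA_apply, if_pos ⟨hn, hnV⟩, Pool.Agent.Helper69.EK.totient_sqf hn]
  have h1 : (n : ℝ) = ∏ q ∈ n.primeFactors, (q : ℝ) := by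
    have := Nat.prod_primeFactors_of_squarefree hn
    conv_lhs => rw [← this]
    push_cast
    rfl
  have h3 : (∏ q ∈ n.primeFactors, ((q : ℝ) / ((q : ℝ) - 2))) / n =
      ∏ q ∈ n.primeFactors, (1 / ((q : ℝ) - 2)) := by
    conv_lhs => rw [h1]
    rw [← Finset.prod_div_distrib]
    refine Finset.prod_congr rfl fun q hq => ?_
    have : (0 : ℝ) < q := by exact_mod_cast (Nat.prime_of_mem_primeFactors hq).pos
    field_simp
  rw [h3]
  apply Finset.prod_le_prod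
  · intro q hq
    have : (1 : ℝ) ≤ q := by exact_mod_cast (Nat.prime_of_mem_primeFactors hq).one_le
    exact div_nonneg zero_le_one (by linarith)
  · intro q hq
    have hqp := Nat.prime_of_mem_primeFactors hq
    have hq3 : 3 ≤ q := by
      have h4 := hqp.two_le
      have h5 : q ≠ 2 := by
        rintro rfl
        have h6 := Nat.dvd_gcd (Nat.dvd_of_mem_primeFactors hq) h2
        rw [hnV] at h6
        omega
      omega
    have : (3 : ℝ) ≤ q := by exact_mod_cast hq3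
    apply one_div_le_one_div_of_le <;> linarith

theorem fA_nonneg {V : ℕ} (h2 : 2 ∣ V) (n : ℕ) : 0 ≤ fA V n / n := by
  by_cases h : Squarefree n ∧ n.Coprime V
  · exact le_trans (by positivity) (inv_totient_le h2 h.1 h.2)
  · rw [fA_apply, if_neg h, zero_div]

theorem HH_ge {V : ℕ} (hV : V ≠ 0) (h2 : 2 ∣ V) {t : ℝ} (ht : 1 ≤ t) :
    Real.log t ≤ V.divisors.card * HH V t := by
  classical
  refine (Pool.Agent.Helper7.AV.ggtriv t t ht le_rfl).trans ?_
  unfold Pool.Agent.Helper40.AV.GG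
  obtain ⟨S, hS⟩ : ∃ S : Finset ℕ, S = (Finset.Icc 1 ⌊t⌋₊).filter (fun m => Squarefree m ∧
    ∀ r : ℕ, r.Prime → r ∣ m → (r : ℝ) ≤ t) := ⟨_, rfl⟩
  have hS' : ∀ m ∈ S, 1 ≤ m ∧ m ≤ ⌊t⌋₊ ∧ Squarefree m := by
    intro m hm
    rw [hS, Finset.mem_filter, Finset.mem_Icc] at hm
    exact ⟨hm.1.1, hm.1.2, hm.2.1⟩
  obtain ⟨N, hN⟩ : ∃ N : Finset ℕ, N = (Ioc 0 ⌊t⌋₊).filter (fun n => Squarefree n ∧
    n.Coprime V) := ⟨_, rfl⟩
  have hcop : ∀ l : ℕ, Squarefree l → (l / l.gcd V).Coprime V ∧ (l.gcd V).Coprime (l / l.gcd V) := by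
    intro l hl
    have hl0 : l ≠ 0 := hl.ne_zero
    have hd : l.gcd V ∣ l := Nat.gcd_dvd_left _ _
    have hmul : l.gcd V * (l / l.gcd V) = l := Nat.mul_div_cancel' hd
    have hc : (l.gcd V).Coprime (l / l.gcd V) := by
      rw [← hmul] at hl
      exact Nat.coprime_of_squarefree_mul hl
    refine ⟨?_, hc⟩
    rw [Nat.coprime_iff_gcd_eq_one] 
    by_contra hne
    obtain ⟨p, hp, hpd⟩ := Nat.exists_prime_and_dvd hne
    have h3 : p ∣ l / l.gcd V := hpd.trans (Nat.gcd_dvd_left _ _)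
    have h4 : p ∣ V := hpd.trans (Nat.gcd_dvd_right _ _)
    have h5 : p ∣ l.gcd V := Nat.dvd_gcd (h3.trans (Nat.div_dvd_of_dvd hd)) h4
    have h6 := Nat.dvd_gcd h5 h3
    rw [hc] at h6
    exact hp.one_lt.ne' (Nat.dvd_one.1 h6)
  obtain ⟨i, hi⟩ : ∃ i : ℕ → ℕ × ℕ, i = fun l => (l.gcd V, l / l.gcd V) := ⟨_, rfl⟩
  have hinj : Set.InjOn i (S : Set ℕ) := by
    intro l _ l' _ h
    rw [hi] at h
    simp only [Prod.mk.injEq] at h
    rw [← Nat.mul_div_cancel' (Nat.gcd_dvd_left l V), ← Nat.mul_div_cancel' (Nat.gcd_dvd_left l' V),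
      h.2, h.1]
  have h3 : ∀ l ∈ S, (1 : ℝ) / l.totient ≤ 1 / ((i l).2.totient : ℝ) := by
    intro l hl
    obtain ⟨hl1, -, hl3⟩ := hS' l hl
    rw [hi]
    simp only
    have hd : l.gcd V ∣ l := Nat.gcd_dvd_left _ _
    have hmul : l.gcd V * (l / l.gcd V) = l := Nat.mul_div_cancel' hd
    have h4 : l / l.gcd V ∣ l := Nat.div_dvd_of_dvd hd
    have h5 : 0 < l / l.gcd V := Nat.pos_of_dvd_of_pos h4 (by omega)
    have h6 := Nat.le_of_dvd (Nat.totient_pos.2 (by omega)) (Nat.totient_dvd_of_dvd h4)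
    apply one_div_le_one_div_of_le
    · exact_mod_cast Nat.totient_pos.2 h5
    · exact_mod_cast h6
  rw [← hS]
  refine (Finset.sum_le_sum h3).trans ?_
  rw [← Finset.sum_image (f := fun x : ℕ × ℕ => (1 : ℝ) / (x.2.totient : ℝ)) hinj]
  have h7 : S.image i ⊆ V.divisors ×ˢ N := by
    intro x hx
    obtain ⟨l, hl, rfl⟩ := Finset.mem_image.1 hx
    obtain ⟨hl1, hl2, hl3⟩ := hS' l hl
    have hd : l.gcd V ∣ l := Nat.gcd_dvd_left _ _
    have h4 : l / l.gcd V ∣ l := Nat.div_dvd_of_dvd hd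
    have h5 : 0 < l / l.gcd V := Nat.pos_of_dvd_of_pos h4 (by omega)
    rw [hi, Finset.mem_product]
    simp only
    refine ⟨Nat.mem_divisors.2 ⟨Nat.gcd_dvd_right _ _, hV⟩, ?_⟩
    rw [hN, Finset.mem_filter, Finset.mem_Ioc]
    exact ⟨⟨h5, (Nat.div_le_self _ _).trans hl2⟩, hl3.squarefree_of_dvd h4, (hcop l hl3).1⟩
  refine (Finset.sum_le_sum_of_subset_of_nonneg h7 (fun x _ _ => by positivity)).trans ?_
  rw [Finset.sum_product]
  simp only
  rw [Finset.sum_const, nsmul_eq_mul]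
  apply mul_le_mul_of_nonneg_left _ (Nat.cast_nonneg _)
  unfold HH
  calc ∑ x ∈ N, (1 : ℝ) / (x.totient : ℝ) ≤ ∑ x ∈ N, fA V x / x := by
        refine Finset.sum_le_sum fun x hx => ?_
        rw [hN, Finset.mem_filter] at hx
        exact inv_totient_le h2 hx.2.1 hx.2.2
    _ ≤ _ := by
        apply Finset.sum_le_sum_of_subset_of_nonneg
        · rw [hN]
          exact Finset.filter_subset _ _
        · intro x _ _
          exact fA_nonneg h2 x

theorem HH_pos {V : ℕ} (hV : V ≠ 0) (h2 : 2 ∣ V) :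
    ∃ A C : ℝ, 0 < A ∧ 0 ≤ C ∧ ∀ t : ℝ, 1 ≤ t → |HH V t - A * Real.log t| ≤ C := by
  obtain ⟨A, C, hC, h⟩ := HH_asymp hV h2
  refine ⟨A, C, ?_, hC, h⟩
  by_contra hA
  push Not at hA
  have hcard : (0 : ℝ) < V.divisors.card := by
    exact_mod_cast Finset.card_pos.2 ⟨1, Nat.one_mem_divisors.2 hV⟩
  obtain ⟨t, ht⟩ : ∃ t : ℝ, t = Real.exp (V.divisors.card * C + 1) := ⟨_, rfl⟩
  have ht1 : 1 ≤ t := by
    rw [ht]
    apply Real.one_le_exp
    positivity
  have hlog : Real.log t = V.divisors.card * C + 1 := by rw [ht, Real.log_exp]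
  have h3 := HH_ge hV h2 ht1
  have h4 := (abs_le.1 (h t ht1)).2
  have h5 : A * Real.log t ≤ 0 := mul_nonpos_of_nonpos_of_nonneg hA (Real.log_nonneg ht1)
  have h6 : HH V t ≤ C := by linarith
  have h7 := mul_le_mul_of_nonneg_left h6 hcard.le
  linarith

end Pool.Agent.Helper63.LT2
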