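import Pool.Agent.Helper63.LT2.MainU
import Pool.Agent.Helper63.LT2.Err

/-!
# Project LT2: primes `p` such that all odd prime factors of `p + 1` are larger than `x ^ 0.183`
-/

set_option autoImplicit false

open Finset Filter Topology
open scoped ArithmeticFunction.vonMangoldt

namespace Pool.Agent.Helper63.LT2

open Pool.Agent.Helper18.BV Pool.Agent.Helper18.CA

private theorem dvd_succ_iff {d n : ℕ} (hd : 0 < d) : d ∣ n + 1 ↔ n ≡ d - 1 [MOD d] := by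
  have h0 : (d - 1) + 1 ≡ 0 [MOD d] := by
    rw [Nat.sub_add_cancel hd]
    exact (Nat.modEq_zero_iff_dvd).2 dvd_rfl
  constructor
  · intro h
    exact Nat.ModEq.add_right_cancel' 1 (((Nat.modEq_zero_iff_dvd).2 h).trans h0.symm)
  · intro h
    exact (Nat.modEq_zero_iff_dvd).1 ((h.add_right 1).trans h0)

private theorem prod_dvd_succ (I : Finset ℕ) (hI : ∀ q ∈ I, q.Prime) (n : ℕ) :
    (∏ q ∈ I, q) ∣ n + 1 ↔ ∀ q ∈ I, q ∣ n + 1 := by
  constructor
  · intro h q hq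
    exact (Finset.dvd_prod_of_mem _ hq).trans h
  · intro h
    have h1 : (∏ q ∈ I, (q : ℤ)) ∣ ((n + 1 : ℕ) : ℤ) := by
      apply Finset.prod_dvd_of_coprime
      · intro a ha b hb hab
        rw [Function.onFun]
        exact (Nat.isCoprime_iff_coprime).2 ((Nat.coprime_primes (hI a ha) (hI b hb)).2 hab)
      · intro q hq
        exact Int.natCast_dvd_natCast.2 (h q hq)
    have h2 : ((∏ q ∈ I, q : ℕ) : ℤ) ∣ ((n + 1 : ℕ) : ℤ) := by
      rw [Nat.cast_prod]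
      exact h1
    exact Int.natCast_dvd_natCast.1 h2

/-- the residue class used for the modulus `v d` -/
private theorem exists_class_neg {v u : ℕ} (hv : 0 < v) (huv : u.Coprime v) :
    ∃ c : ℕ → ℕ, (∀ d, Nat.Coprime (c d) d) ∧ ∀ d : ℕ, 0 < d → v.Coprime d →
      ∀ n : ℕ, n ≡ c (v * d) [MOD v * d] ↔ (n ≡ u [MOD v] ∧ d ∣ n + 1) := by
  classical
  have h : ∀ m : ℕ, ∃ c : ℕ, Nat.Coprime c m ∧ ∀ d : ℕ, 0 < d → v.Coprime d → m = v * d →
      ∀ n : ℕ, n ≡ c [MOD v * d] ↔ (n ≡ u [MOD v] ∧ d ∣ n + 1) := by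
    intro m
    by_cases hm : ∃ d : ℕ, 0 < d ∧ v.Coprime d ∧ m = v * d
    · obtain ⟨d, hd0, hd, rfl⟩ := hm
      refine ⟨Nat.chineseRemainder hd u (d - 1), ?_, ?_⟩
      · have h1 := (Nat.chineseRemainder hd u (d - 1)).2.1
        have h2 := (Nat.chineseRemainder hd u (d - 1)).2.2
        apply Nat.Coprime.mul_right
        · have := h1.gcd_eq
          rw [Nat.Coprime, this]; exact huv
        · have h3 := h2.gcd_eq
          rw [Nat.Coprime, h3]
          have h4 : Nat.Coprime (d - 1) ((d - 1) + 1) := by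
            rw [Nat.coprime_self_add_right]
            exact Nat.coprime_one_right _
          rw [Nat.sub_add_cancel hd0] at h4
          exact h4
      · intro d' hd0' hd' hdd n
        have hc := (Nat.chineseRemainder hd u (d - 1)).2
        rw [← hdd, ← Nat.modEq_and_modEq_iff_modEq_mul hd]
        have : d = d' := Nat.eq_of_mul_eq_mul_left hv hdd
        subst this
        rw [dvd_succ_iff hd0]
        constructor
        · rintro ⟨h1, h2⟩
          exact ⟨h1.trans hc.1, h2.trans hc.2⟩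
        · rintro ⟨h1, h2⟩
          exact ⟨h1.trans hc.1.symm, h2.trans hc.2.symm⟩
    · exact ⟨1, Nat.coprime_one_left m, fun d hd0 hd hmd => absurd ⟨d, hd0, hd, hmd⟩ hm⟩
  choose c hc1 hc2 using h
  exact ⟨c, hc1, fun d hd0 hd => hc2 (v * d) d hd0 hd rfl⟩

/-- Primes `p` such that all odd prime factors of `p + 1` are larger than `x ^ 0.183`. -/
def SpecialPlus2 : Prop :=
  ∀ v u : ℕ, 0 < v → u.Coprime v → 2 ∣ v →
    (∀ r : ℕ, r.Prime → r ≠ 2 → r ∣ v → ¬ r ∣ u + 1) →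
    ∀ g : ℝ → ℝ, IsWt g → (∃ y, g y ≠ 0) → (∀ y, g y ≤ 1) → (∀ y, y ≤ 1 - 1 / 250 → g y = 0) →
    ∃ c X0 : ℝ, 0 < c ∧ 3 ≤ X0 ∧ ∀ x : ℝ, X0 ≤ x →
      ∀ E : Finset ℕ, (∀ p : ℕ, p ∈ E ↔ (p.Prime ∧ (p : ℝ) ≤ x ∧ p ≡ u [MOD v] ∧
        ∀ r : ℕ, r.Prime → r ∣ p + 1 → r = 2 ∨ x ^ (183 / 1000 : ℝ) < (r : ℝ))) →
      c ≤ ∑ p ∈ E, Real.log p * wt g x p

theorem log_theta : Real.log (47 / 40 : ℝ) < 1 / 6 := by
  rw [Real.log_lt_iff_lt_exp (by norm_num)]
  have := Real.quadratic_le_exp_of_nonneg (x := (1 / 6 : ℝ)) (by norm_num)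
  norm_num at this ⊢
  linarith

theorem specialPlus2 (hBV : BVhalf) (hM : Mass) : SpecialPlus2 := by
  classical
  intro v u hv huv h2v hru g hg hgne hg1 hgε
  obtain ⟨cM, CM, R0, hcM, hCM, hR0, hmain⟩ := main_term hv.ne' h2v (θ := 47 / 40) (by norm_num)
    log_theta
  obtain ⟨Ce, X1, hCe, hX1, herrs⟩ := err_sum hBV hM hg hgne hg1 (ε := 1 / 250) (by norm_num)
    (by norm_num) hgε hv h2v
  obtain ⟨cm, Cm, X2, hcm, hCm, hX2, hmass⟩ := hM g hg hgne
  obtain ⟨cf, hcf1, hcf2⟩ := exists_class_neg hv huv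
  have hφ : 0 < v.totient := Nat.totient_pos.2 hv
  have hφ' : (0 : ℝ) < v.totient := by exact_mod_cast hφ
  obtain ⟨a, ha⟩ : ∃ a : ℝ, a = cm / v.totient * (cM * (183 / 1175)) := ⟨_, rfl⟩
  obtain ⟨b, hb⟩ : ∃ b : ℝ, b = (CM * (183 / 1175)) ^ 2 := ⟨_, rfl⟩
  have ha0 : 0 < a := by rw [ha]; positivity
  have hb0 : 0 < b := by rw [hb]; positivity
  obtain ⟨c1, hc1⟩ : ∃ c1 : ℝ, c1 = a / (2 * b) := ⟨_, rfl⟩
  have hc10 : 0 < c1 := by rw [hc1]; positivity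
  obtain ⟨X3, hX3, hnp⟩ := nonprime_small hg (ε := c1 / 2) (by linarith)
  -- large `x`
  have hev1 : ∀ᶠ x : ℝ in atTop, R0 ≤ x ^ (183 / 1175 : ℝ) :=
    (tendsto_rpow_atTop (by norm_num)).eventually_ge_atTop _
  have hev2 : ∀ᶠ x : ℝ in atTop, (v : ℝ) ≤ x ^ (1 / 1000 : ℝ) :=
    (tendsto_rpow_atTop (by norm_num)).eventually_ge_atTop _
  have hev3 : ∀ᶠ x : ℝ in atTop, 4 * b * Ce / a + 1 ≤ Real.log x :=
    Real.tendsto_log_atTop.eventually_ge_atTop _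
  obtain ⟨X4, hX4⟩ := ((hev1.and (hev2.and hev3))).exists_forall_of_atTop
  refine ⟨c1 / 2, max (max X1 X2) (max X3 X4), by linarith,
    hX1.trans ((le_max_left _ _).trans (le_max_left _ _)), ?_⟩
  intro x hx E hE
  have hx1 : X1 ≤ x := (le_max_left _ _).trans ((le_max_left _ _).trans hx)
  have hx2 : X2 ≤ x := (le_max_right _ _).trans ((le_max_left _ _).trans hx)
  have hx3 : X3 ≤ x := (le_max_left _ _).trans ((le_max_right _ _).trans hx)
  obtain ⟨hRx, hvx, hlogx⟩ := hX4 x ((le_max_right _ _).trans ((le_max_right _ _).trans hx))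
  have hx3' : (3 : ℝ) ≤ x := hX1.trans hx1
  have hxpos : 0 < x := by linarith
  have hx1' : 1 < x := by linarith
  have hlog1 : 1 ≤ Real.log x := by
    have : 0 ≤ 4 * b * Ce / a := by positivity
    linarith
  have hlog : 0 < Real.log x := by linarith
  obtain ⟨l, hl⟩ : ∃ l : ℝ, l = Real.log x := ⟨_, rfl⟩
  obtain ⟨z, hz⟩ : ∃ z : ℝ, z = x ^ (183 / 1000 : ℝ) := ⟨_, rfl⟩
  obtain ⟨R, hR⟩ : ∃ R : ℝ, R = x ^ (183 / 1175 : ℝ) := ⟨_, rfl⟩
  have hzpos : 0 < z := by rw [hz]; positivity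
  have hRpos : 0 < R := by rw [hR]; positivity
  have hRz : R ^ (47 / 40 : ℝ) = z := by
    rw [hR, hz, ← Real.rpow_mul hxpos.le]
    norm_num
  have hlogR : Real.log R = 183 / 1175 * l := by rw [hR, Real.log_rpow hxpos, hl]
  have hR1 : 1 < R := by
    rw [hR]
    exact Real.one_lt_rpow hx1' (by norm_num)
  obtain ⟨P, hP⟩ : ∃ P : Finset ℕ, P = (Finset.range (⌊z⌋₊ + 1)).filter
    (fun q => q.Prime ∧ ¬ q ∣ v) := ⟨_, rfl⟩
  have hPmem : ∀ q : ℕ, q ∈ P ↔ q.Prime ∧ (q : ℝ) ≤ z ∧ ¬ q ∣ v := by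
    intro q
    rw [hP, Finset.mem_filter, Finset.mem_range, Nat.lt_succ_iff, Nat.le_floor_iff hzpos.le]
    tauto
  obtain ⟨hm1, hm2⟩ := hmain R (by rw [hR]; exact hRx) P (by
    intro q
    rw [hRz]
    exact hPmem q)
  have hPp : ∀ q ∈ P, q.Prime := fun q hq => ((hPmem q).1 hq).1
  have hPv : ∀ q ∈ P, ¬ q ∣ v := fun q hq => ((hPmem q).1 hq).2.2
  have hh : ∀ q ∈ P, 0 < hq q := fun q hq' => (gg_hq h2v (hPp q hq') (hPv q hq')).1
  obtain ⟨S, hS⟩ : ∃ S : Finset (Finset ℕ), S = P.powerset.filter (fun r => ∏ q ∈ r, q ≤ ⌊R⌋₊) :=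
    ⟨_, rfl⟩
  obtain ⟨T, hT⟩ : ∃ T : Finset (Finset ℕ), T = P.powerset.filter
    (fun r => ∏ q ∈ r, q ≤ ⌊R⌋₊ * ⌊R⌋₊ * ⌊z⌋₊) := ⟨_, rfl⟩
  have hpos : ∀ r : Finset ℕ, r ⊆ P → 0 < ∏ q ∈ r, q := fun r hr =>
    Finset.prod_pos fun q hq => (hPp q (hr hq)).pos
  have hSP : ∀ r ∈ S, r ⊆ P := by
    intro r hr
    rw [hS, Finset.mem_filter, Finset.mem_powerset] at hr
    exact hr.1
  have hSle : ∀ r ∈ S, ∏ q ∈ r, q ≤ ⌊R⌋₊ := by
    intro r hr
    rw [hS, Finset.mem_filter] at hr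
    exact hr.2
  have hdown : ∀ r ∈ S, ∀ r' ⊆ r, r' ∈ S := by
    intro r hr r' hr'
    have h1 := hSP r hr
    rw [hS, Finset.mem_filter, Finset.mem_powerset]
    refine ⟨hr'.trans h1, le_trans ?_ (hSle r hr)⟩
    exact Nat.le_of_dvd (hpos r h1) (Finset.prod_dvd_prod_of_subset _ _ _ hr')
  have hy : ∀ r ∈ P.powerset, |yy R r| ≤ if r ∈ S then 1 else 0 := by
    intro r hr
    have h1 := hpos r (Finset.mem_powerset.1 hr)
    have h1' : (1 : ℝ) ≤ ((∏ q ∈ r, q : ℕ) : ℝ) := by exact_mod_cast h1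
    unfold yy
    rw [abs_of_nonneg (YY_nonneg _ _)]
    split_ifs with h
    · exact YY_le_one hR1 h1'
    · have h3 : ⌊R⌋₊ < ∏ q ∈ r, q := by
        by_contra hcon
        exact h (by rw [hS]; exact Finset.mem_filter.2 ⟨hr, not_lt.1 hcon⟩)
      rw [YY_of_lt hR1 (Nat.lt_of_floor_lt h3)]
  have hz1 : 1 ≤ ⌊z⌋₊ := by
    apply Nat.le_floor
    rw [hz]
    have := Real.one_le_rpow hx1'.le (by norm_num : (0 : ℝ) ≤ 183 / 1000)
    simpa using this
  have hunion : ∀ d₁ ∈ S, ∀ d₂ ∈ S, ∏ q ∈ d₁ ∪ d₂, q ≤ ⌊R⌋₊ * ⌊R⌋₊ := by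
    intro d₁ h₁ d₂ h₂
    have h3 : ∏ q ∈ d₁ ∪ d₂, q ≤ (∏ q ∈ d₁, q) * ∏ q ∈ d₂, q := by
      have h4 : ∏ q ∈ d₁ ∪ d₂, q = (∏ q ∈ d₁, q) * ∏ q ∈ d₂ \ d₁, q := by
        rw [← Finset.prod_union Finset.disjoint_sdiff, Finset.union_sdiff_self_eq_union]
      rw [h4]
      apply Nat.mul_le_mul_left
      exact Nat.le_of_dvd (hpos _ (hSP _ h₂))
        (Finset.prod_dvd_prod_of_subset _ _ _ Finset.sdiff_subset)
    exact h3.trans (Nat.mul_le_mul (hSle _ h₁) (hSle _ h₂))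
  have hT1 : ∀ d₁ ∈ S, ∀ d₂ ∈ S, d₁ ∪ d₂ ∈ T := by
    intro d₁ h₁ d₂ h₂
    rw [hT, Finset.mem_filter, Finset.mem_powerset]
    refine ⟨Finset.union_subset (hSP _ h₁) (hSP _ h₂), (hunion _ h₁ _ h₂).trans ?_⟩
    exact Nat.le_mul_of_pos_right _ hz1
  have hT2 : ∀ d₁ ∈ S, ∀ d₂ ∈ S, ∀ q ∈ P, insert q (d₁ ∪ d₂) ∈ T := by
    intro d₁ h₁ d₂ h₂ q hq'
    rw [hT, Finset.mem_filter, Finset.mem_powerset]
    have hqz : q ≤ ⌊z⌋₊ := Nat.le_floor ((hPmem q).1 hq').2.1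
    refine ⟨Finset.insert_subset hq' (Finset.union_subset (hSP _ h₁) (hSP _ h₂)), ?_⟩
    by_cases hm : q ∈ d₁ ∪ d₂
    · rw [Finset.insert_eq_of_mem hm]
      exact (hunion _ h₁ _ h₂).trans (Nat.le_mul_of_pos_right _ hz1)
    · rw [Finset.prod_insert hm, mul_comm]
      exact Nat.mul_le_mul (hunion _ h₁ _ h₂) hqz
  -- the sum over all `n`
  obtain ⟨Sm, hSm⟩ : ∃ Sm : ℝ, Sm = ∑ n ∈ Icc 1 ⌊x⌋₊, Λ n * wt g x n := ⟨_, rfl⟩
  obtain ⟨Ω, hΩ⟩ : ∃ Ω : Finset ℕ, Ω = (Icc 1 ⌊x⌋₊).filter (fun n => n ≡ u [MOD v]) := ⟨_, rfl⟩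
  have hsv := lower_sieve (h := hq) (P := P) (y := yy R) hh hSP hdown hy hT1 hT2 Ω
    (fun n => Λ n * wt g x n)
    (fun n _ => mul_nonneg ArithmeticFunction.vonMangoldt_nonneg (wt_nonneg hg x n))
    (fun n => P.filter (fun q => q ∣ n + 1)) (fun n _ => Finset.filter_subset _ _)
    ((1 / (v.totient : ℝ)) * Sm) (fun I => Er g cf x (v * ∏ q ∈ I, q)) ?_
  swap
  · intro I hI
    rw [hT, Finset.mem_filter, Finset.mem_powerset] at hI
    obtain ⟨hIP, -⟩ := hI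
    have hIp : ∀ q ∈ I, q.Prime := fun q hq => hPp q (hIP hq)
    obtain ⟨d, hd⟩ : ∃ d : ℕ, d = ∏ q ∈ I, q := ⟨_, rfl⟩
    have hdpos : 0 < d := by rw [hd]; exact hpos I hIP
    have hvd : v.Coprime d := by
      rw [hd]
      apply Nat.Coprime.prod_right
      intro q hq
      rw [Nat.coprime_comm, Nat.Prime.coprime_iff_not_dvd (hIp q hq)]
      exact hPv q (hIP hq)
    have e1 : ∑ n ∈ Ω, (if I ⊆ P.filter (fun q => q ∣ n + 1) then Λ n * wt g x n else 0) =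
        ∑ n ∈ (Icc 1 ⌊x⌋₊).filter (fun n => n ≡ cf (v * d) [MOD v * d]), Λ n * wt g x n := by
      rw [← Finset.sum_filter]
      refine Finset.sum_congr ?_ fun _ _ => rfl
      ext n
      rw [Finset.mem_filter, Finset.mem_filter, hcf2 d hdpos hvd n, hd, prod_dvd_succ I hIp, hΩ,
        Finset.mem_filter]
      have h3 : I ⊆ P.filter (fun q => q ∣ n + 1) ↔ ∀ q ∈ I, q ∣ n + 1 := by
        constructor
        · intro h q hq
          exact (Finset.mem_filter.1 (h hq)).2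
        · intro h q hq
          exact Finset.mem_filter.2 ⟨hIP hq, h q hq⟩
      rw [h3]
      tauto
    have e2 : 1 / (v.totient : ℝ) * Sm * ∏ q ∈ I, gg hq q = 1 / ((v * d).totient : ℝ) * Sm := by
      have e3 : ∏ q ∈ I, gg hq q = 1 / (d.totient : ℝ) := by
        rw [hd, totient_prod_primes I hIp]
        push_cast
        have h6 : ∏ q ∈ I, gg hq q = ∏ q ∈ I, (1 / ((q : ℝ) - 1)) := by
          refine Finset.prod_congr rfl fun q hq' => ?_
          rw [(gg_hq h2v (hIp q hq') (hPv q (hIP hq'))).2]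
          unfold gc
          rw [if_pos ⟨hIp q hq', hPv q (hIP hq')⟩]
        rw [h6, Finset.prod_div_distrib, Finset.prod_const_one]
        congr 1
        apply Finset.prod_congr rfl
        intro q hq
        rw [Nat.cast_sub (hIp q hq).one_le, Nat.cast_one]
      rw [e3, Nat.totient_mul hvd]
      push_cast
      field_simp
    rw [← hd, e1, e2, hSm]
    exact le_rfl
  simp only at hsv
  -- the error terms
  have herr : ∑ I ∈ T, 8 ^ I.card * Er g cf x (v * ∏ q ∈ I, q) ≤ Ce / l ^ 3 := by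
    rw [hl]
    apply herrs x hx1 cf hcf1 P
    · intro q hq'
      refine ⟨hPp q hq', ?_, hPv q hq'⟩
      refine ((hPmem q).1 hq').2.1.trans ?_
      rw [hz]
      conv_rhs => rw [← Real.rpow_one x]
      exact Real.rpow_le_rpow_of_exponent_le hx1'.le (by norm_num)
    · intro I hI
      rw [hT, Finset.mem_filter, Finset.mem_powerset] at hI
      refine ⟨hI.1, ?_⟩
      have h3 : ((∏ q ∈ I, q : ℕ) : ℝ) ≤ R * R * z := by
        calc ((∏ q ∈ I, q : ℕ) : ℝ) ≤ ((⌊R⌋₊ * ⌊R⌋₊ * ⌊z⌋₊ : ℕ) : ℝ) := by exact_mod_cast hI.2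
          _ = (⌊R⌋₊ : ℝ) * ⌊R⌋₊ * ⌊z⌋₊ := by push_cast; ring
          _ ≤ R * R * z := by
              have h4 := Nat.floor_le hRpos.le
              have h5 := Nat.floor_le hzpos.le
              gcongr
      rw [Nat.cast_mul]
      calc (v : ℝ) * ((∏ q ∈ I, q : ℕ) : ℝ) ≤ x ^ (1 / 1000 : ℝ) * (R * R * z) :=
            mul_le_mul hvx h3 (Nat.cast_nonneg _) (by positivity)
        _ = x ^ (1 / 1000 + (183 / 1175 + 183 / 1175 + 183 / 1000) : ℝ) := by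
            rw [hR, hz, ← Real.rpow_add hxpos, ← Real.rpow_add hxpos, ← Real.rpow_add hxpos]
        _ ≤ x ^ (1 / 2 - 1 / 250 : ℝ) :=
            Real.rpow_le_rpow_of_exponent_le hx1'.le (by norm_num)
  obtain ⟨Er0, hEr0⟩ : ∃ Er0 : ℝ, Er0 = ∑ I ∈ T, 8 ^ I.card * Er g cf x (v * ∏ q ∈ I, q) :=
    ⟨_, rfl⟩
  obtain ⟨Mn, hMn⟩ : ∃ Mn : ℝ, Mn = ∑ r ∈ P.powerset, yy R r ^ 2 * ∏ q ∈ r, hq q -
      ∑ q ∈ P, gg hq q * ∑ r ∈ (P.erase q).powerset,
        (yy R r - yy R (insert q r)) ^ 2 * ∏ p ∈ r, hq p := ⟨_, rfl⟩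
  obtain ⟨G, hG⟩ : ∃ G : ℝ, G = ∑ r ∈ S, ∏ q ∈ r, hq q := ⟨_, rfl⟩
  obtain ⟨Yh, hYh⟩ : ∃ Yh : ℝ, Yh = ∑ r ∈ P.powerset, yy R r * ∏ q ∈ r, hq q := ⟨_, rfl⟩
  obtain ⟨E2, hE2⟩ : ∃ E2 : Finset ℕ, E2 = Ω.filter
    (fun n => P.filter (fun q => q ∣ n + 1) = ∅) := ⟨_, rfl⟩
  have hZz : ∑ ω ∈ Ω, (if P.filter (fun q => q ∣ ω + 1) = ∅ then Λ ω * wt g x ω else 0) =
      ∑ n ∈ E2, Λ n * wt g x n := by
    rw [hE2, Finset.sum_filter]
  rw [hZz, ← hEr0, ← hMn, ← hG, ← hYh] at hsv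
  rw [← hEr0] at herr
  rw [← hMn, hlogR] at hm1
  rw [← hS, ← hG, hlogR] at hm2
  obtain ⟨Zt, hZt⟩ : ∃ Zt : ℝ, Zt = ∑ n ∈ E2, Λ n * wt g x n := ⟨_, rfl⟩
  have hZt0 : 0 ≤ Zt := by
    rw [hZt]
    exact Finset.sum_nonneg fun n _ =>
      mul_nonneg ArithmeticFunction.vonMangoldt_nonneg (wt_nonneg hg x n)
  rw [← hZt] at hsv
  have hl0 : 0 < l := by rw [hl]; exact hlog
  have hl1 : 1 ≤ l := by rw [hl]; exact hlog1
  have hhn : ∀ r, r ⊆ P → 0 ≤ ∏ q ∈ r, hq q := fun r hr =>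
    Finset.prod_nonneg fun q hq' => (hh q (hr hq')).le
  have hG0 : 0 ≤ G := by
    rw [hG]
    exact Finset.sum_nonneg fun r hr => hhn r (hSP r hr)
  have hYh0 : 0 ≤ Yh := by
    rw [hYh]
    apply Finset.sum_nonneg
    intro r hr
    rw [Finset.mem_powerset] at hr
    exact mul_nonneg (YY_nonneg _ _) (hhn r hr)
  have hYG : Yh ≤ G := by
    rw [hYh, hG, hS, Finset.sum_filter]
    apply Finset.sum_le_sum
    intro r hr
    have h3 := hy r hr
    rw [hS] at h3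
    have h4 := hhn r (Finset.mem_powerset.1 hr)
    have h5 : yy R r ≤ |yy R r| := le_abs_self _
    have h6 : r ∈ P.powerset.filter (fun r => ∏ q ∈ r, q ≤ ⌊R⌋₊) ↔ ∏ q ∈ r, q ≤ ⌊R⌋₊ := by
      rw [Finset.mem_filter]
      tauto
    simp only [h6] at h3
    split_ifs at h3 ⊢ with h7
    · calc yy R r * ∏ q ∈ r, hq q ≤ 1 * ∏ q ∈ r, hq q :=
            mul_le_mul_of_nonneg_right (h5.trans h3) h4
        _ = _ := one_mul _
    · have : yy R r ≤ 0 := h5.trans h3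
      exact mul_nonpos_of_nonpos_of_nonneg this h4
  have hb1 : G ^ 2 ≤ b * l ^ 2 := by
    have h3 : G ^ 2 ≤ (CM * (183 / 1175 * l)) ^ 2 := by
      apply pow_le_pow_left₀ hG0 hm2
    rw [hb]
    calc G ^ 2 ≤ (CM * (183 / 1175 * l)) ^ 2 := h3
      _ = _ := by ring
  have hb2 : Yh ^ 2 ≤ b * l ^ 2 := (pow_le_pow_left₀ hYh0 hYG 2).trans hb1
  have hX : a * l ^ 2 ≤ 1 / (v.totient : ℝ) * Sm * Mn := by
    have h3 := (hmass x hx2).1
    rw [← hSm, ← hl] at h3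
    calc a * l ^ 2 = 1 / (v.totient : ℝ) * (cm * l) * (cM * (183 / 1175 * l)) := by
          rw [ha]
          ring
      _ ≤ 1 / (v.totient : ℝ) * Sm * Mn := by
          apply mul_le_mul _ hm1 (by positivity)
          · apply mul_nonneg (by positivity)
            exact le_trans (by positivity) h3
          · exact mul_le_mul_of_nonneg_left h3 (by positivity)
  have hEb : G ^ 2 * (2 * Er0) ≤ a / 2 * l ^ 2 := by
    have h3 : G ^ 2 * (2 * Er0) ≤ b * l ^ 2 * (2 * (Ce / l ^ 3)) := by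
      apply mul_le_mul hb1 (by linarith) _ (by positivity)
      rw [hEr0]
      apply mul_nonneg (by norm_num)
      exact Finset.sum_nonneg fun I _ => mul_nonneg (by positivity) (Er_nonneg _ _ _ _)
    refine h3.trans ?_
    have h4 : b * l ^ 2 * (2 * (Ce / l ^ 3)) = 2 * b * Ce / l := by
      field_simp
    rw [h4, div_le_iff₀ hl0]
    have h5 : 4 * b * Ce ≤ a * l := by
      have : 4 * b * Ce / a ≤ l := by
        rw [hl]
        linarith
      rw [div_le_iff₀ ha0] at this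
      linarith
    have h6 : a * l ≤ a * l ^ 3 := by
      apply mul_le_mul_of_nonneg_left _ ha0.le
      nlinarith [mul_pos hl0 hl0]
    nlinarith
  have hfin : c1 ≤ Zt := by
    have h3 : a / 2 * l ^ 2 ≤ b * l ^ 2 * Zt := by
      calc a / 2 * l ^ 2 ≤ Yh ^ 2 * Zt := by linarith
        _ ≤ b * l ^ 2 * Zt := mul_le_mul_of_nonneg_right hb2 hZt0
    have h4 : a / 2 ≤ b * Zt := by
      have h5 : 0 < l ^ 2 := by positivity
      have h6 : a / 2 * l ^ 2 ≤ b * Zt * l ^ 2 := by linarith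
      exact le_of_mul_le_mul_right h6 h5
    rw [hc1, div_le_iff₀ (by positivity)]
    linarith
  -- comparison with the primes
  have hcomp : Zt ≤ ∑ p ∈ E, Real.log p * wt g x p + c1 / 2 := by
    rw [hZt, ← Finset.sum_filter_add_sum_filter_not E2 (fun n => n.Prime)]
    apply add_le_add
    · have h14 : ∑ n ∈ E2.filter (fun n => n.Prime), Λ n * wt g x n =
          ∑ n ∈ E2.filter (fun n => n.Prime), Real.log n * wt g x n := by
        apply Finset.sum_congr rfl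
        intro n hn
        rw [ArithmeticFunction.vonMangoldt_apply_prime (Finset.mem_filter.1 hn).2]
      rw [h14]
      apply Finset.sum_le_sum_of_subset_of_nonneg
      · intro p hp
        obtain ⟨hpE2, hpp⟩ := Finset.mem_filter.1 hp
        rw [hE2] at hpE2
        obtain ⟨hpΩ, hps⟩ := Finset.mem_filter.1 hpE2
        rw [hΩ] at hpΩ
        obtain ⟨hpI, hpu⟩ := Finset.mem_filter.1 hpΩ
        rw [hE]
        refine ⟨hpp, ?_, hpu, ?_⟩
        · rw [← Nat.le_floor_iff hxpos.le]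
          exact (Finset.mem_Icc.1 hpI).2
        · intro r hrp hrd
          by_cases hr2 : r = 2
          · exact Or.inl hr2
          right
          by_contra hle
          by_cases hrv : r ∣ v
          · apply hru r hrp hr2 hrv
            have h15 : p + 1 ≡ u + 1 [MOD r] := (hpu.of_dvd hrv).add_right 1
            exact (Nat.modEq_zero_iff_dvd).1
              (h15.symm.trans ((Nat.modEq_zero_iff_dvd).2 hrd))
          · have h16 : r ∈ P.filter (fun q => q ∣ p + 1) := by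
              rw [Finset.mem_filter, hPmem]
              refine ⟨⟨hrp, ?_, hrv⟩, hrd⟩
              rw [hz]
              exact not_lt.1 hle
            rw [hps] at h16
            exact absurd h16 (Finset.notMem_empty _)
      · intro p hp _
        have hpp := ((hE p).1 hp).1
        exact mul_nonneg (Real.log_nonneg (by exact_mod_cast hpp.one_le)) (wt_nonneg hg x p)
    · exact hnp x hx3 _ (fun n hn => (Finset.mem_filter.1 hn).2)
  linarith

end Pool.Agent.Helper63.LT2
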