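import Pool.Agent.Helper63.LT.St

/-!
# Project LT2: projective `x`-coordinates on `y² = x³ + x`
-/

set_option autoImplicit false

open scoped NumberField

namespace Pool.Agent.Helper63.LT2

open WeierstrassCurve Pool.Agent.Helper10.SS Pool.Agent.Helper63.LT

/-- `(X : Z)` is the `x`-coordinate of the point `P`. -/
def XZ {F : Type} [Field F] (P : (EF (1 : F) 0).Point) (X Z : F) : Prop :=
  (P = 0 ∧ Z = 0 ∧ X ≠ 0) ∨ ∃ x y, AtF P x y ∧ Z ≠ 0 ∧ Z * x = X

section
variable {F : Type} [Field F]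

theorem XZ.zero_right {P : (EF (1 : F) 0).Point} {X : F} (h : XZ P X 0) : P = 0 := by
  rcases h with ⟨h, -, -⟩ | ⟨x, y, -, h, -⟩
  · exact h
  · exact absurd rfl h

theorem XZ.of_zero {X Z : F} (h : XZ (0 : (EF (1 : F) 0).Point) X Z) : Z = 0 := by
  rcases h with ⟨-, h, -⟩ | ⟨x, y, h, -, -⟩
  · exact h
  · exact absurd rfl h.ne_zero

theorem XZ.exists {P : (EF (1 : F) 0).Point} (h0 : P ≠ 0) {X Z : F} (h : XZ P X Z) :
    ∃ x y, AtF P x y ∧ Z ≠ 0 ∧ Z * x = X := by
  rcases h with ⟨h, -, -⟩ | h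
  · exact absurd h h0
  · exact h

variable [DecidableEq F]

/-- a point with `x = 0` has order two -/
theorem XZ.two {P : (EF (1 : F) 0).Point} {X Z : F} (h : XZ P X Z) (h2 : P + P ≠ 0) :
    X ≠ 0 ∧ Z ≠ 0 := by
  have hP : P ≠ 0 := by
    rintro rfl
    apply h2
    rw [add_zero]
  obtain ⟨x, y, hxy, hZ, hX⟩ := h.exists hP
  refine ⟨?_, hZ⟩
  intro hX0
  apply h2
  have hx : x = 0 := by
    rw [hX0] at hX
    exact (mul_eq_zero.1 hX).resolve_left hZ
  have hy : y = 0 := by
    have := hxy.eqn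
    rw [hx] at this
    have h3 : y ^ 2 = 0 := by rw [this]; ring
    exact pow_eq_zero_iff (two_ne_zero) |>.1 h3
  apply hxy.add_neg (Q := P)
  rw [hy, neg_zero]
  rw [hy] at hxy
  exact hxy

/-- the sum from the difference -/
theorem XZ.add {P Q : (EF (1 : F) 0).Point} {X1 Z1 X2 Z2 X0 Z0 : F}
    (h2 : (2 : F) ≠ 0) (h1 : XZ P X1 Z1) (h3 : XZ Q X2 Z2) (h0 : XZ (P - Q) X0 Z0)
    (hX0 : X0 ≠ 0) (hZ0 : Z0 ≠ 0) :
    XZ (P + Q) (Z0 * (X1 * X2 - Z1 * Z2) ^ 2) (X0 * (X1 * Z2 - X2 * Z1) ^ 2) := by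
  have hPQ : P - Q ≠ 0 := by
    intro h
    rw [h] at h0
    exact hZ0 h0.of_zero
  obtain ⟨x0, y0, hd, -, e0⟩ := h0.exists hPQ
  rcases h1 with ⟨rfl, rfl, hX1⟩ | ⟨x1, y1, hP, hZ1, e1⟩
  · -- `P = 0`
    have hQ : Q ≠ 0 := by
      rintro rfl
      apply hPQ
      simp
    obtain ⟨x2, y2, hQ2, hZ2, e2⟩ := h3.exists hQ
    have h4 : AtF (0 - Q) x2 (-y2) := by
      rw [zero_sub]
      exact hQ2.neg
    have h5 : x0 = x2 := (hd.unique h4).1
    right
    refine ⟨x2, y2, by rwa [zero_add], ?_, ?_⟩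
    · apply mul_ne_zero hX0
      apply pow_ne_zero
      rw [mul_zero, sub_zero]
      exact mul_ne_zero hX1 hZ2
    · rw [← e0, ← e2, h5]
      ring
  · rcases h3 with ⟨rfl, rfl, hX2⟩ | ⟨x2, y2, hQ, hZ2, e2⟩
    · have h5 : x0 = x1 := (hd.unique (by rwa [sub_zero])).1
      right
      refine ⟨x1, y1, by rwa [add_zero], ?_, ?_⟩
      · apply mul_ne_zero hX0
        apply pow_ne_zero
        rw [mul_zero, zero_sub]
        exact neg_ne_zero.2 (mul_ne_zero hX2 hZ1)
      · rw [← e0, ← e1, h5]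
        ring
    · by_cases hx : x1 = x2
      · -- `Q = -P`
        have hy : y1 ≠ y2 := by
          intro hy
          apply hPQ
          rw [hx, hy] at hP
          rw [hP.eq hQ, sub_self]
        have hyy : y1 = -y2 := by
          have a1 := hP.eqn
          have a2 := hQ.eqn
          rw [← hx] at a2
          have : (y1 - y2) * (y1 + y2) = 0 := by linear_combination a1 - a2
          rcases mul_eq_zero.1 this with h | h
          · exact absurd (sub_eq_zero.1 h) hy
          · exact eq_neg_of_add_eq_zero_left h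
        have hy1 : 2 * y1 ≠ 0 := by
          intro h
          have h' : y1 = 0 := (mul_eq_zero.1 h).resolve_left h2
          apply hy
          rw [h'] at hyy ⊢
          exact (neg_eq_zero.1 hyy.symm).symm
        have hQneg : Q = -P := by
          have := hP.neg
          rw [hyy, neg_neg, hx] at this
          exact hQ.eq this
        have hsum : P + Q = 0 := by rw [hQneg, add_neg_cancel]
        have hdbl := hP.dbl hy1
        have hsub : P - Q = P + P := by rw [hQneg, sub_neg_eq_add]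
        rw [hsub] at hd
        have e3 := (hd.unique hdbl).1
        left
        refine ⟨hsum, ?_, ?_⟩
        · rw [← e1, ← e2, hx]
          ring
        · apply mul_ne_zero hZ0
          apply pow_ne_zero
          intro h
          -- then `x1 ^ 2 = 1` and `x(2P) = 0`
          have hx1 : x1 ^ 2 = 1 := by
            have h6 : (Z1 * Z2) * (x1 ^ 2 - 1) = 0 := by
              rw [← e1, ← e2, ← hx] at h
              linear_combination h
            have := (mul_eq_zero.1 h6).resolve_left (mul_ne_zero hZ1 hZ2)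
            linear_combination this
          apply hX0
          rw [← e0, e3]
          have a1 := hP.eqn
          have h7 : ((3 * x1 ^ 2 + 1) / (2 * y1)) ^ 2 - x1 - x1 = 0 := by
            rw [div_pow, sub_sub, sub_eq_zero, div_eq_iff (pow_ne_zero _ hy1)]
            have : (2 * y1) ^ 2 = 4 * (x1 ^ 3 + 1 * x1 + 0) := by rw [← a1]; ring
            rw [this]
            linear_combination (x1 ^ 2 - 1) * hx1
          rw [h7, mul_zero]
      · have hsub : AtF (P - Q) (((y1 + y2) / (x1 - x2)) ^ 2 - x1 - x2)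
            (-((y1 + y2) / (x1 - x2) * (((y1 + y2) / (x1 - x2)) ^ 2 - x1 - x2 - x1) + y1)) := by
          rw [sub_eq_add_neg P Q]
          have := hP.add hQ.neg hx
          rwa [sub_neg_eq_add] at this
        have hadd := hP.add hQ hx
        have e3 := (hd.unique hsub).1
        right
        have hxx : x1 - x2 ≠ 0 := sub_ne_zero.2 hx
        refine ⟨_, _, hadd, ?_, ?_⟩
        · apply mul_ne_zero hX0
          apply pow_ne_zero
          rw [← e1, ← e2]
          have : Z1 * x1 * Z2 - Z2 * x2 * Z1 = (Z1 * Z2) * (x1 - x2) := by ring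
          rw [this]
          exact mul_ne_zero (mul_ne_zero hZ1 hZ2) hxx
        · have a1 := hP.eqn
          have a2 := hQ.eqn
          have key : (((y1 + y2) / (x1 - x2)) ^ 2 - x1 - x2) *
              (((y1 - y2) / (x1 - x2)) ^ 2 - x1 - x2) * (x1 - x2) ^ 2 = (x1 * x2 - 1) ^ 2 := by
            have b1 : ((y1 + y2) / (x1 - x2)) ^ 2 = (y1 + y2) ^ 2 / (x1 - x2) ^ 2 := div_pow _ _ _
            have b2 : ((y1 - y2) / (x1 - x2)) ^ 2 = (y1 - y2) ^ 2 / (x1 - x2) ^ 2 := div_pow _ _ _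
            rw [b1, b2]
            have hne : (x1 - x2) ^ 2 ≠ 0 := pow_ne_zero _ hxx
            have b3 : ((y1 + y2) ^ 2 - (x1 + x2) * (x1 - x2) ^ 2) *
                ((y1 - y2) ^ 2 - (x1 + x2) * (x1 - x2) ^ 2) =
                (x1 * x2 - 1) ^ 2 * (x1 - x2) ^ 2 := by
              have c1 : (y1 + y2) ^ 2 * (y1 - y2) ^ 2 = (y1 ^ 2 - y2 ^ 2) ^ 2 := by ring
              have c2 : (y1 + y2) ^ 2 + (y1 - y2) ^ 2 = 2 * (y1 ^ 2 + y2 ^ 2) := by ring
              have c3 : ((y1 + y2) ^ 2 - (x1 + x2) * (x1 - x2) ^ 2) *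
                ((y1 - y2) ^ 2 - (x1 + x2) * (x1 - x2) ^ 2) =
                (y1 + y2) ^ 2 * (y1 - y2) ^ 2 -
                  (x1 + x2) * (x1 - x2) ^ 2 * ((y1 + y2) ^ 2 + (y1 - y2) ^ 2) +
                  ((x1 + x2) * (x1 - x2) ^ 2) ^ 2 := by ring
              rw [c3, c1, c2, a1, a2]
              ring
            field_simp
            linear_combination b3
          rw [← e0, e3, ← e1, ← e2]
          linear_combination (Z0 * (Z1 * Z2) ^ 2) * key

/-- doubling -/
theorem XZ.dbl {P : (EF (1 : F) 0).Point} {X Z : F} (h2 : (2 : F) ≠ 0) (h : XZ P X Z) :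
    XZ (P + P) ((X ^ 2 - Z ^ 2) ^ 2) (4 * X * Z * (X ^ 2 + Z ^ 2)) := by
  rcases h with ⟨rfl, rfl, hX⟩ | ⟨x, y, hP, hZ, e⟩
  · left
    refine ⟨by simp, by ring, ?_⟩
    apply pow_ne_zero
    have : X ^ 2 - 0 ^ 2 = X ^ 2 := by ring
    rw [this]
    exact pow_ne_zero _ hX
  · have a1 := hP.eqn
    by_cases hy : y = 0
    · left
      have hx : x * (x ^ 2 + 1) = 0 := by
        rw [hy] at a1
        linear_combination -a1
      refine ⟨?_, ?_, ?_⟩
      · apply hP.add_neg (Q := P)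
        rw [hy, neg_zero]
        rw [hy] at hP
        exact hP
      · rw [← e]
        linear_combination (4 * Z ^ 4) * hx
      · apply pow_ne_zero
        intro h
        rw [← e] at h
        have h3 : Z ^ 2 * (x ^ 2 - 1) = 0 := by linear_combination h
        have h4 := (mul_eq_zero.1 h3).resolve_left (pow_ne_zero _ hZ)
        rcases mul_eq_zero.1 hx with h5 | h5
        · rw [h5] at h4
          apply one_ne_zero (α := F)
          linear_combination -h4
        · apply h2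
          linear_combination h5 - h4
    · right
      have hy2 : 2 * y ≠ 0 := mul_ne_zero h2 hy
      refine ⟨_, _, hP.dbl hy2, ?_, ?_⟩
      · have : 4 * X * Z * (X ^ 2 + Z ^ 2) = Z ^ 4 * (2 * y) ^ 2 := by
          rw [← e]
          linear_combination (-4 * Z ^ 4) * a1
        rw [this]
        exact mul_ne_zero (pow_ne_zero _ hZ) (pow_ne_zero _ hy2)
      · have h3 : 4 * X * Z * (X ^ 2 + Z ^ 2) = Z ^ 4 * (2 * y) ^ 2 := by
          rw [← e]
          linear_combination (-4 * Z ^ 4) * a1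
        rw [h3, div_pow]
        have h4 : Z ^ 4 * (2 * y) ^ 2 * ((3 * x ^ 2 + 1) ^ 2 / (2 * y) ^ 2 - x - x) =
            Z ^ 4 * ((3 * x ^ 2 + 1) ^ 2 - 2 * x * (2 * y) ^ 2) := by
          field_simp
          ring
        rw [h4, mul_pow, a1, ← e]
        ring

end

/-- reduction -/
theorem rd_xz {L κ : Type} [Field L] [Field κ] {φ : 𝓞 L →+* κ} {P : (EF (1 : L) 0).Point}
    {P' : (EF (1 : κ) 0).Point} (h : Rd φ P P') {X Z : 𝓞 L} (hXZ : XZ P (X : L) (Z : L))
    (hX : X ≠ 0 → φ X ≠ 0) (hZ : Z ≠ 0 → φ Z ≠ 0) : XZ P' (φ X) (φ Z) := by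
  have c0 : ∀ a : 𝓞 L, (a : L) = 0 ↔ a = 0 := fun a =>
    NumberField.RingOfIntegers.coe_eq_zero_iff
  rcases h with ⟨rfl, rfl⟩ | ⟨x, y, x', y', h1, h2, s, t, b, hb, hs, -, hs', -⟩
  · left
    have h1 : Z = 0 := (c0 Z).1 hXZ.of_zero
    refine ⟨rfl, by rw [h1, map_zero], ?_⟩
    rcases hXZ with ⟨-, -, h⟩ | ⟨x, y, h, -, -⟩
    · exact hX fun h' => h ((c0 X).2 h')
    · exact absurd rfl h.ne_zero
  · right
    obtain ⟨x1, y1, h3, hZ0, e⟩ := hXZ.exists h1.ne_zero
    obtain ⟨rfl, rfl⟩ := h3.unique h1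
    refine ⟨x', y', h2, hZ fun h' => hZ0 ((c0 Z).2 h'), ?_⟩
    have h4 : Z * s = b * X := by
      apply NumberField.RingOfIntegers.coe_injective
      rw [map_mul, map_mul]
      change (Z : L) * (s : L) = (b : L) * (X : L)
      rw [← hs, ← e]
      ring
    have h5 : φ Z * φ s = φ b * φ X := by rw [← map_mul, h4, map_mul]
    apply mul_left_cancel₀ hb
    rw [← h5, ← hs']
    ring

end Pool.Agent.Helper63.LT2
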